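import Pool.Agent.Run7.h661.Funct

/-!
# Area, first moment and the Gaussian functional
-/

open Set Filter Topology MeasureTheory
open scoped ContDiff Real

namespace Run7.h661

/-- `∫ Φ(t,x) dy` along the edge `i` -/
noncomputable def FF (Φ : ℝ → ℝ → ℝ) (g : Fin 3 → ℝ → ℝ → ℂ) (i : Fin 3) (t : ℝ) : ℝ :=
  ∫ p in (0:ℝ)..1, Φ t (g i t p).re * (dp (g i) t p).im

/-- area of the quarter cell -/
noncomputable def Aq (g : Fin 3 → ℝ → ℝ → ℂ) (t : ℝ) : ℝ :=
  FF (fun _ x => x) g 1 t - FF (fun _ x => x) g 0 t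

/-- first moment of the quarter cell -/
noncomputable def Jq (g : Fin 3 → ℝ → ℝ → ℂ) (t : ℝ) : ℝ :=
  FF (fun _ x => x ^ 2 / 2) g 1 t - FF (fun _ x => x ^ 2 / 2) g 0 t

/-- Gaussian height -/
noncomputable def Nq (T : ℝ) (g : Fin 3 → ℝ → ℝ → ℂ) (t : ℝ) : ℝ :=
  FF (Gs T (5001 / 10000) (49 / 50)) g 2 t - FF (Gs T (5001 / 10000) (49 / 50)) g 0 t

lemma int_mono {f f' : ℝ → ℝ} {a b : ℝ} (hab : a ≤ b) (hf : ContinuousOn f (Icc a b))
    (hf' : ContinuousOn f' (Icc a b)) (h : ∀ p ∈ Icc a b, f p ≤ f' p) :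
    ∫ p in a..b, f p ≤ ∫ p in a..b, f' p := by
  apply intervalIntegral.integral_mono_on hab
  · apply ContinuousOn.intervalIntegrable; rwa [uIcc_of_le hab]
  · apply ContinuousOn.intervalIntegrable; rwa [uIcc_of_le hab]
  · exact h

lemma int_ftc {f f' : ℝ → ℝ} {a b : ℝ} (hab : a ≤ b) (hf' : ContinuousOn f' (Icc a b))
    (h : ∀ p ∈ Icc a b, HasDerivAt f (f' p) p) : ∫ p in a..b, f' p = f b - f a := by
  apply intervalIntegral.integral_eq_sub_of_hasDerivAt
  · rwa [uIcc_of_le hab]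
  · apply ContinuousOn.intervalIntegrable; rwa [uIcc_of_le hab]

/-- integral comparison with an explicit primitive -/
lemma int_le_primitive {f F F' : ℝ → ℝ} {a b : ℝ} (hab : a ≤ b) (hf : ContinuousOn f (Icc a b))
    (hF' : ContinuousOn F' (Icc a b)) (hF : ∀ p ∈ Icc a b, HasDerivAt F (F' p) p)
    (h : ∀ p ∈ Icc a b, f p ≤ F' p) : ∫ p in a..b, f p ≤ F b - F a := by
  rw [← int_ftc hab hF' hF]
  exact int_mono hab hf hF' h

lemma primitive_le_int {f F F' : ℝ → ℝ} {a b : ℝ} (hab : a ≤ b) (hf : ContinuousOn f (Icc a b))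
    (hF' : ContinuousOn F' (Icc a b)) (hF : ∀ p ∈ Icc a b, HasDerivAt F (F' p) p)
    (h : ∀ p ∈ Icc a b, F' p ≤ f p) : F b - F a ≤ ∫ p in a..b, f p := by
  rw [← int_ftc hab hF' hF]
  exact int_mono hab hF' hf h

section
variable {T R h : ℝ} {g : Fin 3 → ℝ → ℝ → ℂ}

lemma QF.cZi (H : QF T R h g) {t : ℝ} (ht : t ∈ Ioo 0 T) (i : Fin 3) :
    Continuous (fun p => (dp (g i) t p).im) :=
  Complex.continuous_im.comp ((H.edge i).sm.dp.continuous_p ht)
lemma QF.cZr (H : QF T R h g) {t : ℝ} (ht : t ∈ Ioo 0 T) (i : Fin 3) :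
    Continuous (fun p => (dp (g i) t p).re) :=
  Complex.continuous_re.comp ((H.edge i).sm.dp.continuous_p ht)
lemma QF.cx (H : QF T R h g) {t : ℝ} (ht : t ∈ Ioo 0 T) (i : Fin 3) :
    Continuous (fun p => (g i t p).re) :=
  Complex.continuous_re.comp ((H.edge i).sm.continuous_p ht)
lemma QF.cy (H : QF T R h g) {t : ℝ} (ht : t ∈ Ioo 0 T) (i : Fin 3) :
    Continuous (fun p => (g i t p).im) :=
  Complex.continuous_im.comp ((H.edge i).sm.continuous_p ht)

lemma QF.cth (H : QF T R h g) {t : ℝ} (ht : t ∈ Ioo 0 T) (hs : SecAt g t) (i : Fin 3) :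
    ContinuousOn (th (cang i) (g i) t) (Icc 0 1) := fun p hp =>
  (hasDerivAt_th_p (H.edge i).sm ht (SecAt.posAt H ht hs i p hp)).continuousAt.continuousWithinAt

lemma Test.cslice {Φ Φt Φx Φxx : ℝ → ℝ → ℝ} (hΦ : Test T Φ Φt Φx Φxx) {t : ℝ} (ht : t ∈ Ioo 0 T) :
    Continuous (Φ t) ∧ Continuous (Φt t) ∧ Continuous (Φx t) ∧ Continuous (Φxx t) :=
  ⟨slice_cont hΦ.c ht, slice_cont hΦ.ct ht, slice_cont hΦ.cx ht, slice_cont hΦ.cxx ht⟩

lemma QF.dt0_im (H : QF T R h g) {t : ℝ} (ht : t ∈ Ioo 0 T) : (dt (g 0) t 1).im = 0 := by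
  have h1 := hasDerivAt_im ((H.edge 0).sm.hasDerivAt_t ht 1)
  have h2 : (fun s => (g 0 s 1).im) =ᶠ[𝓝 t] (fun _ => (0:ℝ)) := by
    filter_upwards [Ioo_mem_nhds ht.1 ht.2] with s hs
    exact H.bIm s hs
  exact (h1.congr_of_eventuallyEq h2.symm).unique (hasDerivAt_const t (0:ℝ))

/-! ### the area -/

lemma QF.Aq_deriv (H : QF T R h g) {t : ℝ} (ht : t ∈ Ioo 0 T) (hs : SecAt g t) :
    HasDerivAt (Aq g) (-(π / 3)) t := by
  have hpos := SecAt.posAt H ht hs
  have h1 := func_deriv (H.edge 1) ht (hpos 1) (test_x T)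
  have h0 := func_deriv (H.edge 0) ht (hpos 0) (test_x T)
  refine (h1.sub h0).congr_deriv ?_
  simp only [H.th_M ht hpos, H.th_b ht hpos, H.dt0_im ht, H.mRe t ht, H.re_zero ht 1,
    H.re_zero ht 0, H.vel_junc ht 1 0, H.th_junc ht hpos 1 0, zero_mul, add_zero, mul_zero,
    intervalIntegral.integral_zero]
  ring

lemma QF.xbound (H : QF T R h g) {t : ℝ} (ht : t ∈ Ioo 0 T) (hs : SecAt g t) {p : ℝ}
    (hp : p ∈ Icc (0:ℝ) 1) : (g 0 t p).re ≤ xa g t + √3 / 3 * ya g t ∧
    xa g t - √3 / 3 * ya g t ≤ (g 0 t p).re := by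
  obtain ⟨h1, h2⟩ := H.x0_lip ht hs hp
  have h3 := H.y0_nonneg ht hs hp
  have hs3 : √3 * √3 = 3 := Real.mul_self_sqrt (by norm_num)
  have hs30 : 0 < √3 := by positivity
  constructor
  · have : √3 * ((g 0 t p).re - xa g t) ≤ √3 * (√3 / 3 * ya g t) := by nlinarith
    have := le_of_mul_le_mul_left this hs30
    linarith
  · have : √3 * (xa g t - (g 0 t p).re) ≤ √3 * (√3 / 3 * ya g t) := by nlinarith
    have := le_of_mul_le_mul_left this hs30
    linarith

/-- crude bounds of the area: `|A| ≤ X y_M` -/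
lemma QF.Aq_abs_le (H : QF T R h g) {t : ℝ} (ht : t ∈ Ioo 0 T) (hs : SecAt g t) {X : ℝ}
    (hX : xa g t + √3 / 3 * ya g t ≤ X) (hX2 : √3 / 3 * ya g t - xa g t ≤ X) :
    |Aq g t| ≤ X * yM g t := by
  have hya := H.ya_pos ht hs
  have hxa := H.xa_nonneg ht hs
  have hs30 : 0 < √3 := by positivity
  have hX0 : 0 ≤ X := by
    have : 0 ≤ xa g t + √3 / 3 * ya g t := by positivity
    linarith
  have b1 : ∀ p ∈ Icc (0:ℝ) 1, (g 1 t p).re ≤ X := fun p hp => by
    have := H.x1_le ht hs hp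
    have : 0 ≤ √3 / 3 * ya g t := by positivity
    linarith
  have e1 : FF (fun _ x => x) g 1 t ≤ X * yM g t - X * ya g t := by
    have := int_le_primitive (f := fun p => (g 1 t p).re * (dp (g 1) t p).im)
      (F := fun p => X * (g 1 t p).im) (F' := fun p => X * (dp (g 1) t p).im) zero_le_one
      ((H.cx ht 1).mul (H.cZi ht 1)).continuousOn ((H.cZi ht 1).const_mul X).continuousOn
      (fun p _ => (H.dim ht 1 p).const_mul X)
      (fun p hp => mul_le_mul_of_nonneg_right (b1 p hp) (H.dp1_im_nonneg ht hs hp))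
    simp only [H.im_zero ht] at this
    exact this
  have e1' : 0 ≤ FF (fun _ x => x) g 1 t := by
    apply intervalIntegral.integral_nonneg zero_le_one
    intro p hp
    exact mul_nonneg (H.x1_nonneg ht hs hp) (H.dp1_im_nonneg ht hs hp)
  have e0 : X * 0 - X * ya g t ≤ FF (fun _ x => x) g 0 t := by
    have := primitive_le_int (f := fun p => (g 0 t p).re * (dp (g 0) t p).im)
      (F := fun p => X * (g 0 t p).im) (F' := fun p => X * (dp (g 0) t p).im) zero_le_one
      ((H.cx ht 0).mul (H.cZi ht 0)).continuousOn ((H.cZi ht 0).const_mul X).continuousOn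
      (fun p _ => (H.dim ht 0 p).const_mul X)
      (fun p hp => mul_le_mul_of_nonpos_right ((H.xbound ht hs hp).1.trans hX)
        (H.dp0_im_neg ht hs hp).le)
    simp only [H.im_zero ht, H.bIm t ht] at this
    exact this
  have e0' : FF (fun _ x => x) g 0 t ≤ -X * 0 - -X * ya g t := by
    have := int_le_primitive (f := fun p => (g 0 t p).re * (dp (g 0) t p).im)
      (F := fun p => -X * (g 0 t p).im) (F' := fun p => -X * (dp (g 0) t p).im) zero_le_one
      ((H.cx ht 0).mul (H.cZi ht 0)).continuousOn ((H.cZi ht 0).const_mul (-X)).continuousOn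
      (fun p _ => (H.dim ht 0 p).const_mul (-X))
      (fun p hp => mul_le_mul_of_nonpos_right (by have := (H.xbound ht hs hp).2; linarith)
        (H.dp0_im_neg ht hs hp).le)
    simp only [H.im_zero ht, H.bIm t ht] at this
    exact this
  have hyy := H.ya_le_yM ht hs
  rw [Aq, abs_le]
  constructor
  · nlinarith [mul_le_mul_of_nonneg_left hyy hX0]
  · nlinarith [mul_le_mul_of_nonneg_left hyy hX0]

/-- exact formula for the area -/
theorem QF.Aq_eq (H : QF T R h g) {t0 : ℝ} (h0 : t0 ∈ Ioo 0 T) (hs : SecAt g t0)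
    (hlim : Tendsto (yM g) (𝓝[<] T) (𝓝 0)) :
    ∀ t ∈ Ico t0 T, Aq g t = π / 3 * (T - t) := by
  intro t ht
  have hsec := H.sec_all h0 hs
  have hmem : ∀ s ∈ Ico t0 T, s ∈ Ioo 0 T := fun s hs => ⟨h0.1.trans_le hs.1, hs.2⟩
  have hconst : ∀ s ∈ Ico t T, Aq g s + π / 3 * s = Aq g t + π / 3 * t := by
    intro s hs'
    have hder : ∀ x ∈ Icc t s, HasDerivAt (fun x => Aq g x + π / 3 * x) 0 x := by
      intro x hx
      have hxI : x ∈ Ico t0 T := ⟨ht.1.trans hx.1, hx.2.trans_lt hs'.2⟩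
      exact ((H.Aq_deriv (hmem x hxI) (hsec x hxI)).add
        ((hasDerivAt_id' x).const_mul (π / 3))).congr_deriv (by ring)
    have := constant_of_derivWithin_zero (f := fun x => Aq g x + π / 3 * x) (a := t) (b := s)
      (fun x hx => (hder x hx).differentiableAt.differentiableWithinAt)
      (fun x hx => (hder x ⟨hx.1, hx.2.le⟩).hasDerivWithinAt.derivWithin
        (uniqueDiffOn_Icc (hx.1.trans_lt hx.2) x ⟨hx.1, hx.2.le⟩)) s ⟨hs'.1, le_refl _⟩
    exact this
  have hRb : ∀ s ∈ Ico t0 T, |Aq g s| ≤ (|R| + |h|) * yM g s := by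
    intro s hs'
    have hxs := H.xa_le_R (hmem s hs') (hsec s hs')
    have hx0 := H.xa_nonneg (hmem s hs') (hsec s hs')
    have hys := H.ya_le_h (hmem s hs') (hsec s hs')
    have hy0 := H.ya_pos (hmem s hs') (hsec s hs')
    have h3 : √3 ≤ 3 := by
      rw [Real.sqrt_le_left (by norm_num)]; norm_num
    have h30 : 0 ≤ √3 := Real.sqrt_nonneg 3
    have hRR := le_abs_self R
    have hhh := le_abs_self h
    have : √3 / 3 * ya g s ≤ ya g s := by nlinarith
    exact H.Aq_abs_le (hmem s hs') (hsec s hs') (by linarith) (by linarith)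
  have hA0 : Tendsto (Aq g) (𝓝[<] T) (𝓝 0) := by
    apply squeeze_zero_norm' (a := fun s => (|R| + |h|) * yM g s)
    · filter_upwards [Ico_mem_nhdsLT h0.2] with s hs'
      exact hRb s hs'
    · simpa using hlim.const_mul (|R| + |h|)
  have hid : Tendsto (fun s : ℝ => π / 3 * s) (𝓝[<] T) (𝓝 (π / 3 * T)) :=
    ((continuous_const.mul continuous_id).tendsto T).mono_left nhdsWithin_le_nhds
  have hl1 : Tendsto (fun s => Aq g s + π / 3 * s) (𝓝[<] T) (𝓝 (0 + π / 3 * T)) := hA0.add hid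
  have hl2 : Tendsto (fun s => Aq g s + π / 3 * s) (𝓝[<] T) (𝓝 (Aq g t + π / 3 * t)) := by
    apply tendsto_const_nhds.congr'
    filter_upwards [Ico_mem_nhdsLT ht.2] with s hs'
    exact (hconst s hs').symm
  have := tendsto_nhds_unique hl1 hl2
  linarith

/-- lower bound of the area -/
lemma QF.Aq_lower (H : QF T R h g) {t : ℝ} (ht : t ∈ Ioo 0 T) (hs : SecAt g t) :
    xa g t * ya g t - √3 / 6 * ya g t ^ 2 ≤ Aq g t := by
  have hs3 : √3 * √3 = 3 := Real.mul_self_sqrt (by norm_num)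
  have hs30 : 0 < √3 := by positivity
  have e1' : 0 ≤ FF (fun _ x => x) g 1 t := by
    apply intervalIntegral.integral_nonneg zero_le_one
    intro p hp
    exact mul_nonneg (H.x1_nonneg ht hs hp) (H.dp1_im_nonneg ht hs hp)
  have e0 : FF (fun _ x => x) g 0 t ≤ 0 - (xa g t * ya g t - √3 / 6 * ya g t ^ 2) := by
    have := int_le_primitive (f := fun p => (g 0 t p).re * (dp (g 0) t p).im)
      (F := fun p => (xa g t - √3 / 3 * ya g t) * (g 0 t p).im + √3 / 6 * (g 0 t p).im ^ 2)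
      (F' := fun p => (xa g t - √3 / 3 * ya g t) * (dp (g 0) t p).im
        + √3 / 6 * (2 * (g 0 t p).im * (dp (g 0) t p).im)) zero_le_one
      ((H.cx ht 0).mul (H.cZi ht 0)).continuousOn
      (((H.cZi ht 0).const_mul _).add ((((H.cy ht 0).const_mul 2).mul (H.cZi ht 0)).const_mul
        _)).continuousOn
      (fun p _ => by
        have d1 := (H.dim ht 0 p)
        have d2 : HasDerivAt (fun p => (g 0 t p).im ^ 2) (2 * (g 0 t p).im * (dp (g 0) t p).im) p :=
          (d1.pow 2).congr_deriv (by simp)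
        exact (d1.const_mul _).add (d2.const_mul _))
      (fun p hp => by
        have h1 := (H.x0_lip ht hs hp).2
        have h2 := H.dp0_im_neg ht hs hp
        have h3 : xa g t - √3 / 3 * (ya g t - (g 0 t p).im) ≤ (g 0 t p).re := by
          have : √3 * (xa g t - (g 0 t p).re) ≤ √3 * (√3 / 3 * (ya g t - (g 0 t p).im)) := by
            have e : √3 * (√3 / 3 * (ya g t - (g 0 t p).im)) =
              (√3 * √3) / 3 * (ya g t - (g 0 t p).im) := by ring
            rw [e, hs3]; linarith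
          have := le_of_mul_le_mul_left this hs30
          linarith
        have := mul_le_mul_of_nonpos_right h3 h2.le
        linarith)
    simp only [H.im_zero ht, H.bIm t ht] at this
    have h5 : FF (fun _ x => x) g 0 t = ∫ p in (0:ℝ)..1, (g 0 t p).re * (dp (g 0) t p).im := rfl
    rw [h5]
    nlinarith
  rw [Aq]
  linarith

/-- upper bound of the area when `sin φ ≤ B x` on the cap, `B = (√3/2)/r` -/
lemma QF.Aq_upper (H : QF T R h g) {t r : ℝ} (ht : t ∈ Ioo 0 T) (hs : SecAt g t) (hr : 0 < r)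
    (hD : ∀ p ∈ Icc (0:ℝ) 1, Real.sin (π / 3 - th (cang 1) (g 1) t p) ≤
      √3 / 2 / r * (g 1 t p).re) :
    Aq g t ≤ (xa g t + √3 / 3 * ya g t) * ya g t + √3 / 6 * xa g t ^ 3 / r
      + √3 / 10 * xa g t ^ 5 / r ^ 3 := by
  have hs3 : √3 * √3 = 3 := Real.mul_self_sqrt (by norm_num)
  have hs30 : 0 < √3 := by positivity
  have hya := H.ya_pos ht hs
  set X := xa g t + √3 / 3 * ya g t with hXdef
  have e0 : X * 0 - X * ya g t ≤ FF (fun _ x => x) g 0 t := by
    have := primitive_le_int (f := fun p => (g 0 t p).re * (dp (g 0) t p).im)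
      (F := fun p => X * (g 0 t p).im) (F' := fun p => X * (dp (g 0) t p).im) zero_le_one
      ((H.cx ht 0).mul (H.cZi ht 0)).continuousOn ((H.cZi ht 0).const_mul X).continuousOn
      (fun p _ => (H.dim ht 0 p).const_mul X)
      (fun p hp => mul_le_mul_of_nonpos_right ((H.xbound ht hs hp).1)
        (H.dp0_im_neg ht hs hp).le)
    simp only [H.im_zero ht, H.bIm t ht] at this
    exact this
  set B := √3 / 2 / r with hB
  have hBpos : 0 < B := by positivity
  have e1 : FF (fun _ x => x) g 1 t ≤ 0 - (-(B / 3 * xa g t ^ 3 + 4 / 15 * B ^ 3 * xa g t ^ 5)) := by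
    have := int_le_primitive (f := fun p => (g 1 t p).re * (dp (g 1) t p).im)
      (F := fun p => -(B / 3 * (g 1 t p).re ^ 3 + 4 / 15 * B ^ 3 * (g 1 t p).re ^ 5))
      (F' := fun p => -(B / 3 * (3 * (g 1 t p).re ^ 2 * (dp (g 1) t p).re)
        + 4 / 15 * B ^ 3 * (5 * (g 1 t p).re ^ 4 * (dp (g 1) t p).re))) zero_le_one
      ((H.cx ht 1).mul (H.cZi ht 1)).continuousOn
      (by
        have c1 := H.cx ht 1
        have c2 := H.cZr ht 1
        fun_prop)
      (fun p _ => by
        have d1 := (H.dre ht 1 p)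
        have d3 : HasDerivAt (fun p => (g 1 t p).re ^ 3)
          (3 * (g 1 t p).re ^ 2 * (dp (g 1) t p).re) p := (d1.pow 3).congr_deriv (by simp)
        have d5 : HasDerivAt (fun p => (g 1 t p).re ^ 5)
          (5 * (g 1 t p).re ^ 4 * (dp (g 1) t p).re) p := (d1.pow 5).congr_deriv (by simp)
        exact ((d3.const_mul _).add (d5.const_mul _)).neg)
      (fun p hp => by
        have hx0 := H.x1_nonneg ht hs hp
        obtain ⟨p1, p2⟩ := polar1 (g := g) t p
        have hth := H.th_mem ht hs 1 hp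
        have hφ0 : 0 ≤ π / 3 - th (cang 1) (g 1) t p := by linarith [hth.2]
        have hφ1 : π / 3 - th (cang 1) (g 1) t p ≤ π / 3 := by linarith [hth.1]
        have hSle := hD p hp
        have hS0 := sin_nonneg3 hφ0 hφ1
        have hS1 := sin_le_half_sqrt hφ0 hφ1
        have hC := cos_ge_half hφ0 hφ1
        have hsc := Real.sin_sq_add_cos_sq (π / 3 - th (cang 1) (g 1) t p)
        have hv := H.norm_pos ht 1 hp
        rw [p1, p2]
        set S := Real.sin (π / 3 - th (cang 1) (g 1) t p) with hS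
        set C := Real.cos (π / 3 - th (cang 1) (g 1) t p) with hC'
        set v := ‖dp (g 1) t p‖
        set x := (g 1 t p).re
        -- S ≤ (S + 4/3 S^3) C
        have k1 : 1 ≤ (1 + 4 / 3 * S ^ 2) * C := by
          have hq : S ^ 2 ≤ 3 / 4 := by nlinarith
          have hq0 : 0 ≤ S ^ 2 := sq_nonneg S
          have hC2 : C ^ 2 = 1 - S ^ 2 := by linarith
          have : (1:ℝ) ^ 2 ≤ ((1 + 4 / 3 * S ^ 2) * C) ^ 2 := by
            rw [mul_pow, hC2]
            nlinarith [mul_nonneg hq0 (sub_nonneg.2 hq), mul_nonneg (mul_nonneg hq0 hq0)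
              (sub_nonneg.2 hq)]
          have hpos : 0 ≤ (1 + 4 / 3 * S ^ 2) * C := by positivity
          exact (abs_le_of_sq_le_sq' this hpos).2
        have k2 : S ≤ (S + 4 / 3 * S ^ 3) * C := by
          have := mul_le_mul_of_nonneg_left k1 hS0
          nlinarith
        have k3 : S + 4 / 3 * S ^ 3 ≤ B * x + 4 / 3 * (B * x) ^ 3 := by
          have := pow_le_pow_left₀ hS0 hSle 3
          linarith
        have k4 : S ≤ (B * x + 4 / 3 * (B * x) ^ 3) * C :=
          k2.trans (mul_le_mul_of_nonneg_right k3 (by linarith))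
        have k5 := mul_le_mul_of_nonneg_left k4 (mul_nonneg hx0 hv.le)
        nlinarith)
    simp only [H.re_zero ht, H.mRe t ht] at this
    have h5 : FF (fun _ x => x) g 1 t = ∫ p in (0:ℝ)..1, (g 1 t p).re * (dp (g 1) t p).im := rfl
    rw [h5]
    refine this.trans (le_of_eq ?_)
    ring
  have hBB : B / 3 * xa g t ^ 3 + 4 / 15 * B ^ 3 * xa g t ^ 5 =
      √3 / 6 * xa g t ^ 3 / r + √3 / 10 * xa g t ^ 5 / r ^ 3 := by
    have h33 : √3 ^ 3 = 3 * √3 := by rw [pow_succ, sq, hs3]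
    rw [hB, div_pow, div_pow, h33]
    field_simp
    ring
  rw [Aq]
  linarith

/-! ### the first moment -/

lemma QF.Jq_deriv (H : QF T R h g) {t : ℝ} (ht : t ∈ Ioo 0 T) (hs : SecAt g t) :
    ∃ J', HasDerivAt (Jq g) J' t ∧ J' ≤ -(π / 3 * xa g t) + yM g t := by
  have hpos := SecAt.posAt H ht hs
  have h1 := func_deriv (H.edge 1) ht (hpos 1) (test_xx T)
  have h0 := func_deriv (H.edge 0) ht (hpos 0) (test_xx T)
  refine ⟨_, h1.sub h0, ?_⟩
  simp only [H.th_M ht hpos, H.th_b ht hpos, H.dt0_im ht, H.mRe t ht, H.re_zero ht 1,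
    H.re_zero ht 0, H.vel_junc ht 1 0, H.th_junc ht hpos 1 0, zero_mul, zero_add, mul_zero, one_mul]
  have b1 := int_le_primitive (f := fun p => th (cang 1) (g 1) t p * (dp (g 1) t p).re)
    (F := fun p => π / 3 * (g 1 t p).re + (g 1 t p).im)
    (F' := fun p => π / 3 * (dp (g 1) t p).re + (dp (g 1) t p).im) zero_le_one
    ((H.cth ht hs 1).mul (H.cZr ht 1).continuousOn)
    (((H.cZr ht 1).const_mul _).add (H.cZi ht 1)).continuousOn
    (fun p _ => ((H.dre ht 1 p).const_mul _).add (H.dim ht 1 p))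
    (fun p hp => by
      obtain ⟨p1, p2⟩ := polar1 (g := g) t p
      have hth := H.th_mem ht hs 1 hp
      have hφ0 : 0 ≤ π / 3 - th (cang 1) (g 1) t p := by linarith [hth.2]
      have hφ1 : π / 3 - th (cang 1) (g 1) t p ≤ π / 3 := by linarith [hth.1]
      have k := mul_cos_le_sin hφ0 (by linarith [Real.pi_pos])
      have hv := H.norm_pos ht 1 hp
      rw [p1, p2]
      have k5 := mul_le_mul_of_nonneg_left k hv.le
      nlinarith)
  have b0 := primitive_le_int (f := fun p => th (cang 0) (g 0) t p * (dp (g 0) t p).re)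
    (F := fun p => (g 0 t p).im)
    (F' := fun p => (dp (g 0) t p).im) zero_le_one
    ((H.cth ht hs 0).mul (H.cZr ht 0).continuousOn)
    (H.cZi ht 0).continuousOn
    (fun p _ => (H.dim ht 0 p))
    (fun p hp => by
      obtain ⟨p1, p2⟩ := polar0 (g := g) t p
      have hth := H.th_mem ht hs 0 hp
      have k := mul_cos_le_sin' hth.1 hth.2
      have hv := H.norm_pos ht 0 hp
      rw [p1, p2]
      have k5 := mul_le_mul_of_nonneg_left k hv.le
      nlinarith)
  simp only [H.re_zero ht, H.im_zero ht, H.mRe t ht, H.bIm t ht] at b1 b0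
  have hyM : (g 1 t 1).im = yM g t := rfl
  rw [hyM] at b1
  linarith

lemma QF.Jq_nonneg (H : QF T R h g) {t : ℝ} (ht : t ∈ Ioo 0 T) (hs : SecAt g t) :
    0 ≤ Jq g t := by
  have e1 : 0 ≤ FF (fun _ x => x ^ 2 / 2) g 1 t := by
    apply intervalIntegral.integral_nonneg zero_le_one
    intro p hp
    exact mul_nonneg (by positivity) (H.dp1_im_nonneg ht hs hp)
  have e0 : FF (fun _ x => x ^ 2 / 2) g 0 t ≤ 0 := by
    have := int_mono (f := fun p => (g 0 t p).re ^ 2 / 2 * (dp (g 0) t p).im) (f' := fun _ => 0)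
      zero_le_one
      (by have c1 := H.cx ht 0
          have c2 := H.cZi ht 0
          fun_prop)
      continuousOn_const
      (fun p hp => mul_nonpos_of_nonneg_of_nonpos (by positivity) (H.dp0_im_neg ht hs hp).le)
    rw [intervalIntegral.integral_zero] at this
    exact this
  rw [Jq]; linarith

lemma QF.Jq_le (H : QF T R h g) {t : ℝ} (ht : t ∈ Ioo 0 T) (hs : SecAt g t)
    (hyx : ya g t ≤ xa g t) :
    Jq g t ≤ 1 / 2 * (xa g t + √3 / 3 * ya g t) * Aq g t := by
  have hs30 : 0 < √3 := by positivity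
  have hs3le : √3 ≤ 3 := by rw [Real.sqrt_le_left (by norm_num)]; norm_num
  have hya := H.ya_pos ht hs
  set X := xa g t + √3 / 3 * ya g t with hX
  have c1 := H.cx ht 1
  have c2 := H.cZi ht 1
  have c3 := H.cx ht 0
  have c4 := H.cZi ht 0
  have e1 : FF (fun _ x => x ^ 2 / 2) g 1 t ≤ 1 / 2 * X * FF (fun _ x => x) g 1 t := by
    rw [FF, FF, ← intervalIntegral.integral_const_mul]
    apply int_mono zero_le_one (by fun_prop) (by fun_prop)
    intro p hp
    have h1 := H.x1_nonneg ht hs hp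
    have h2 : (g 1 t p).re ≤ X := by
      have := H.x1_le ht hs hp
      have : 0 ≤ √3 / 3 * ya g t := by positivity
      linarith
    have h3 := H.dp1_im_nonneg ht hs hp
    have h4 := mul_nonneg (mul_nonneg h1 (sub_nonneg.2 h2)) h3
    nlinarith
  have e0 : 1 / 2 * X * FF (fun _ x => x) g 0 t ≤ FF (fun _ x => x ^ 2 / 2) g 0 t := by
    rw [FF, FF, ← intervalIntegral.integral_const_mul]
    apply int_mono zero_le_one (by fun_prop) (by fun_prop)
    intro p hp
    have h1 : 0 ≤ (g 0 t p).re := by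
      have := (H.xbound ht hs hp).2
      nlinarith
    have h2 : (g 0 t p).re ≤ X := (H.xbound ht hs hp).1
    have h3 := (H.dp0_im_neg ht hs hp).le
    have h4 := mul_nonneg (mul_nonneg h1 (sub_nonneg.2 h2)) (neg_nonneg.2 h3)
    nlinarith
  rw [Jq, Aq]
  linarith

end

end Run7.h661
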