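import Pool.Agent.Run7.h661.Gauss

/-!
# The continuity argument
-/

open Set Filter Topology MeasureTheory
open scoped ContDiff Real

namespace Run7.h661

/-- the hypotheses: the flow of the quarter and its state at the time `t0` -/
structure Hyp (T t0 R h : ℝ) (g : Fin 3 → ℝ → ℝ → ℂ) : Prop where
  qf : QF T R h g
  t0mem : t0 ∈ Ioo 0 T
  t0T : 2 * (T - t0) = 1
  sec : SecAt g t0
  cap : ∀ p ∈ Icc (0:ℝ) 1, Real.sin (π / 3 - th (cang 1) (g 1) t0 p) ≤ √3 / 2 * (g 1 t0 p).re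
  xa1 : 1 ≤ xa g t0
  hR : 1000 ≤ R
  hh : h ≤ 1 / 10000
  lim : Tendsto (yM g) (𝓝[<] T) (𝓝 0)

/-- the statement propagated in time -/
def Good (T : ℝ) (g : Fin 3 → ℝ → ℝ → ℂ) (t : ℝ) : Prop :=
  rr T t ≤ xa g t ∧ ya g t ≤ xa g t ∧ Nq T g t ≤ 1 / 2500

/-- continuation -/
lemma continuation {a b : ℝ} {P : ℝ → Prop} (_hab : a ≤ b)
    (hclosed : IsClosed ({t | P t} ∩ Icc a b)) (ha : P a)
    (hstep : ∀ x ∈ Ico a b, (∀ τ ∈ Icc a x, P τ) → ∀ᶠ τ in 𝓝[>] x, P τ) :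
    ∀ t ∈ Icc a b, P t := by
  have key : Icc a b ⊆ {t | ∀ τ ∈ Icc a t, P τ} := by
    apply IsClosed.Icc_subset_of_forall_exists_gt
    · apply IsSeqClosed.isClosed
      intro u x hu hx
      have hxI : x ∈ Icc a b := isClosed_Icc.mem_of_tendsto hx (Eventually.of_forall
        (fun n => (hu n).2))
      refine ⟨?_, hxI⟩
      intro τ hτ
      rcases eq_or_lt_of_le hτ.2 with h | h
      · rw [h]
        have : x ∈ {t | P t} ∩ Icc a b := by
          apply hclosed.mem_of_tendsto hx (Eventually.of_forall (fun n => ?_))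
          exact ⟨(hu n).1 (u n) ⟨(hu n).2.1, le_refl _⟩, (hu n).2⟩
        exact this.1
      · have : ∀ᶠ n in atTop, τ < u n := hx.eventually (lt_mem_nhds h)
        obtain ⟨n, hn⟩ := this.exists
        exact (hu n).1 τ ⟨hτ.1, hn.le⟩
    · intro τ hτ
      have : τ = a := le_antisymm hτ.2 hτ.1
      rw [this]; exact ha
    · intro x hx y hy
      obtain ⟨e, he, hsub⟩ := (mem_nhdsGT_iff_exists_Ioo_subset).1 (hstep x hx.2 hx.1)
      set z := min ((x + e) / 2) y with hz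
      have hxe : x < e := he
      have hxz : x < z := lt_min (by linarith) hy
      have hze : z < e := (min_le_left _ _).trans_lt (by linarith)
      refine ⟨z, ?_, hxz, min_le_right _ _⟩
      intro τ hτ
      rcases le_or_gt τ x with h | h
      · exact hx.1 τ ⟨hτ.1, h⟩
      · exact hsub ⟨h, hτ.2.trans_lt hze⟩
  intro t ht
  exact key ht t ⟨ht.1, le_refl _⟩

/-! numerical facts -/

lemma sqrt3_bounds : (1.73205 : ℝ) < √3 ∧ √3 < 1.73206 := by
  constructor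
  · apply Real.lt_sqrt_of_sq_lt; norm_num
  · rw [Real.sqrt_lt' (by norm_num)]; norm_num

lemma pi_bounds : (3.1415 : ℝ) < π ∧ π < 3.1416 := ⟨Real.pi_gt_d4, Real.pi_lt_d4⟩

lemma num_prod {x y r : ℝ} (hx : 0 < x) (hy : 0 < y) (hyx : y ≤ x)
    (hlow : x * y - √3 / 6 * y ^ 2 ≤ π / 6 * r ^ 2) : x * y ≤ 7362 / 10000 * r ^ 2 := by
  have s2 := sqrt3_bounds.2
  have p2 := pi_bounds.2
  have e1 : y ^ 2 ≤ x * y := by nlinarith
  have e2 : √3 / 6 * y ^ 2 ≤ 0.28868 * (x * y) :=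
    mul_le_mul (by linarith) e1 (sq_nonneg y) (by norm_num)
  have e3 : π / 6 * r ^ 2 ≤ 0.5236 * r ^ 2 :=
    mul_le_mul_of_nonneg_right (by linarith) (sq_nonneg r)
  have e4 : 0 < x * y := mul_pos hx hy
  have e5 := sq_nonneg r
  linarith

lemma num_big {x y r : ℝ} (hr : 0 < r) (hx : 0 < x) (hy : 0 < y) (hcon : x ≤ 41 / 40 * r)
    (hy1 : y ≤ r / 100)
    (hup : π / 6 * r ^ 2 ≤ (x + √3 / 3 * y) * y + √3 / 6 * x ^ 3 / r + √3 / 10 * x ^ 5 / r ^ 3) :
    False := by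
  have s1 := sqrt3_bounds.1
  have s2 := sqrt3_bounds.2
  have p1 := pi_bounds.1
  have k1 : x ^ 3 ≤ (41 / 40 * r) ^ 3 := pow_le_pow_left₀ hx.le hcon 3
  have k2 : x ^ 5 ≤ (41 / 40 * r) ^ 5 := pow_le_pow_left₀ hx.le hcon 5
  have hr3 : 0 < r ^ 3 := by positivity
  have hr5 : 0 < r ^ 5 := by positivity
  have hr2 : 0 < r ^ 2 := by positivity
  have k3 : √3 / 6 * x ^ 3 / r ≤ 0.31088 * r ^ 2 := by
    rw [div_le_iff₀ hr]
    have h1 : √3 / 6 * x ^ 3 ≤ 1.73206 / 6 * (41 / 40 * r) ^ 3 :=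
      mul_le_mul (by linarith) k1 (by positivity) (by norm_num)
    have h2 : 1.73206 / 6 * (41 / 40 * r) ^ 3 = (1.73206 / 6 * (41 / 40) ^ 3) * r ^ 3 := by ring
    have h3 : (1.73206 / 6 * (41 / 40) ^ 3) * r ^ 3 ≤ 0.31088 * r ^ 3 :=
      mul_le_mul_of_nonneg_right (by norm_num) hr3.le
    have h4 : 0.31088 * r ^ 2 * r = 0.31088 * r ^ 3 := by ring
    linarith
  have k4 : √3 / 10 * x ^ 5 / r ^ 3 ≤ 0.19598 * r ^ 2 := by
    rw [div_le_iff₀ hr3]
    have h1 : √3 / 10 * x ^ 5 ≤ 1.73206 / 10 * (41 / 40 * r) ^ 5 :=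
      mul_le_mul (by linarith) k2 (by positivity) (by norm_num)
    have h2 : 1.73206 / 10 * (41 / 40 * r) ^ 5 = (1.73206 / 10 * (41 / 40) ^ 5) * r ^ 5 := by ring
    have h3 : (1.73206 / 10 * (41 / 40) ^ 5) * r ^ 5 ≤ 0.19598 * r ^ 5 :=
      mul_le_mul_of_nonneg_right (by norm_num) hr5.le
    have h4 : 0.19598 * r ^ 2 * r ^ 3 = 0.19598 * r ^ 5 := by ring
    linarith
  have k5 : (x + √3 / 3 * y) * y ≤ 0.0104 * r ^ 2 := by
    have a0 : √3 / 3 * y ≤ 0.6 * (r / 100) := mul_le_mul (by linarith) hy1 hy.le (by norm_num)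
    have a1 : x + √3 / 3 * y ≤ 1.031 * r := by linarith
    have a2 := mul_le_mul a1 hy1 hy.le (by positivity : (0:ℝ) ≤ 1.031 * r)
    have a3 : 1.031 * r * (r / 100) = 0.01031 * r ^ 2 := by ring
    linarith
  have k6 : 0.5235 * r ^ 2 ≤ π / 6 * r ^ 2 :=
    mul_le_mul_of_nonneg_right (by linarith) (sq_nonneg r)
  linarith

/-- the weight is not too small at the corner -/
lemma num_gauss {T t X : ℝ} (ht : t < T) (hr1 : rr T t ≤ 1) (hX0 : 0 ≤ X)
    (hX : X ≤ 2.43 * rr T t) :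
    (rr T t)⁻¹ * (1 / 25) ≤ Gs T (5001 / 10000) (49 / 50) t X := by
  have hr := rr_pos ht
  have hu : 2 * (T - t) = rr T t ^ 2 := (rr_sq ht.le).symm
  set r := rr T t with hrdef
  have e1 : Gs T (5001 / 10000) (49 / 50) t X =
      Real.exp (-(5001 / 10000 * Real.log (r ^ 2))) *
      Real.exp (-(49 / 50 * X ^ 2 / (2 * r ^ 2))) := by
    rw [Gs, ← Real.exp_add, ← hu]
    congr 1
    rw [show 2 * (2 * (T - t)) = 4 * (T - t) by ring]
    ring
  have e2 : r⁻¹ ≤ Real.exp (-(5001 / 10000 * Real.log (r ^ 2))) := by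
    have hlog : Real.log (r ^ 2) = 2 * Real.log r := by rw [Real.log_pow]; norm_num
    have hle : Real.log r ≤ 0 := Real.log_nonpos hr.le hr1
    calc r⁻¹ = Real.exp (-Real.log r) := by rw [Real.exp_neg, Real.exp_log hr]
      _ ≤ _ := by
        rw [Real.exp_le_exp, hlog]
        linarith
  have e3 : (1:ℝ) / 25 ≤ Real.exp (-(49 / 50 * X ^ 2 / (2 * r ^ 2))) := by
    have k2 : X ^ 2 ≤ (2.43 * r) ^ 2 := pow_le_pow_left₀ hX0 hX 2
    have k3 : 49 / 50 * X ^ 2 / (2 * r ^ 2) ≤ 3 := by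
      rw [div_le_iff₀ (by positivity)]
      nlinarith
    have k4 : Real.exp 3 ≤ 25 := by
      have h1 := Real.exp_one_lt_d9
      have h3 : Real.exp 3 = Real.exp 1 ^ 3 := by rw [← Real.exp_nat_mul]; norm_num
      rw [h3]
      calc Real.exp 1 ^ 3 ≤ (2.7182818286 : ℝ) ^ 3 :=
            pow_le_pow_left₀ (Real.exp_pos 1).le h1.le 3
        _ ≤ 25 := by norm_num
    calc (1:ℝ) / 25 ≤ (Real.exp 3)⁻¹ := by
          rw [one_div]; exact inv_anti₀ (Real.exp_pos _) k4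
      _ = Real.exp (-3) := (Real.exp_neg 3).symm
      _ ≤ _ := by rw [Real.exp_le_exp]; linarith
  rw [e1]
  exact mul_le_mul e2 e3 (by norm_num) (Real.exp_pos _).le

section
variable {T t0 R h : ℝ} {g : Fin 3 → ℝ → ℝ → ℂ}

lemma Hyp.mem (H : Hyp T t0 R h g) {t : ℝ} (ht : t ∈ Ico t0 T) : t ∈ Ioo 0 T :=
  ⟨H.t0mem.1.trans_le ht.1, ht.2⟩

lemma Hyp.secAt (H : Hyp T t0 R h g) {t : ℝ} (ht : t ∈ Ico t0 T) : SecAt g t :=
  H.qf.sec_all H.t0mem H.sec t ht

lemma Hyp.rr0 (H : Hyp T t0 R h g) : rr T t0 = 1 := by rw [rr, H.t0T, Real.sqrt_one]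

lemma Hyp.rr_le (H : Hyp T t0 R h g) {t : ℝ} (ht : t ∈ Ico t0 T) : rr T t ≤ 1 := by
  rw [← H.rr0]; exact rr_anti ht.1

lemma Hyp.area (H : Hyp T t0 R h g) {t : ℝ} (ht : t ∈ Ico t0 T) : Aq g t = π / 6 * rr T t ^ 2 := by
  rw [H.qf.Aq_eq H.t0mem H.sec H.lim t ht, rr_sq ht.2.le]; ring

/-- conclusions at one time -/
structure Concl (T t : ℝ) (g : Fin 3 → ℝ → ℝ → ℂ) : Prop where
  prod : xa g t * ya g t ≤ 7362 / 10000 * rr T t ^ 2
  big : 41 / 40 * rr T t < xa g t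
  yx : ya g t < xa g t
  x0 : ∀ p ∈ Icc (0:ℝ) 1, 1019 / 1000 * rr T t ≤ (g 0 t p).re
  x2 : ∀ p ∈ Icc (0:ℝ) 1, 1019 / 1000 * rr T t ≤ (g 2 t p).re

lemma Hyp.x0_abs (H : Hyp T t0 R h g) {t : ℝ} (ht : t ∈ Ico t0 T) (hyx : ya g t ≤ xa g t) :
    ∀ p ∈ Icc (0:ℝ) 1, |(g 0 t p).re| ≤ xa g t + √3 / 3 * ya g t := by
  intro p hp
  obtain ⟨h1, h2⟩ := H.qf.xbound (H.mem ht) (H.secAt ht) hp
  have hy := H.qf.ya_pos (H.mem ht) (H.secAt ht)
  have s1 := sqrt3_bounds.1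
  have s2 := sqrt3_bounds.2
  rw [abs_le]
  constructor
  · nlinarith
  · exact h1

lemma Hyp.concl (H : Hyp T t0 R h g) {t : ℝ} (ht : t ∈ Ico t0 T) (hg : Good T g t)
    (hD : ∀ p ∈ Icc (0:ℝ) 1, Real.sin (π / 3 - th (cang 1) (g 1) t p) ≤
      √3 / 2 / rr T t * (g 1 t p).re) : Concl T t g := by
  have htI := H.mem ht
  have hs := H.secAt ht
  obtain ⟨g1, g2, g3⟩ := hg
  have hr := rr_pos ht.2
  have hr1 := H.rr_le ht
  have hya := H.qf.ya_pos htI hs
  have hA := H.area ht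
  have hlow := H.qf.Aq_lower htI hs
  have hup := H.qf.Aq_upper htI hs hr hD
  have s1 := sqrt3_bounds.1
  have s2 := sqrt3_bounds.2
  rw [hA] at hlow hup
  have hxpos : 0 < xa g t := hr.trans_le g1
  have prod := num_prod hxpos hya g2 hlow
  have thin : xa g t ≤ 2 * rr T t → ya g t ≤ rr T t / 100 := by
    intro hx2
    have hy2 : ya g t ≤ 7362 / 10000 * rr T t := by
      have : rr T t * ya g t ≤ rr T t * (7362 / 10000 * rr T t) := by nlinarith
      exact le_of_mul_le_mul_left this hr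
    have hN := H.qf.Nq_lower htI hs (X := xa g t + √3 / 3 * ya g t) (q := 0) zero_mem_I
      (H.x0_abs ht g2) (fun p hp => by
        have : p = 0 := le_antisymm hp.2 hp.1
        rw [this, H.qf.re_zero htI, abs_of_pos hxpos]
        have : 0 ≤ √3 / 3 * ya g t := by positivity
        linarith)
    rw [H.qf.im_zero htI] at hN
    have a0 : √3 / 3 * ya g t ≤ 0.58 * (7362 / 10000 * rr T t) :=
      mul_le_mul (by linarith) hy2 hya.le (by norm_num)
    have hG := num_gauss ht.2 hr1 (X := xa g t + √3 / 3 * ya g t) (by positivity) (by linarith)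
    have h5 : (rr T t)⁻¹ * (1 / 25) * ya g t ≤ 1 / 2500 :=
      (mul_le_mul_of_nonneg_right hG hya.le).trans (hN.trans g3)
    have h6 : (rr T t)⁻¹ * (1 / 25) * ya g t = ya g t / (25 * rr T t) := by field_simp
    rw [h6, div_le_iff₀ (by positivity)] at h5
    linarith
  have big : 41 / 40 * rr T t < xa g t := by
    by_contra hcon
    push Not at hcon
    exact num_big hr hxpos hya hcon (thin (by linarith)) hup
  have hylt : ya g t ≤ 0.7183 * rr T t := by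
    have : (41 / 40 * rr T t) * ya g t ≤ (41 / 40 * rr T t) * (0.7183 * rr T t) := by nlinarith
    exact le_of_mul_le_mul_left this (by positivity)
  have yx : ya g t < xa g t := by linarith
  have x0 : ∀ p ∈ Icc (0:ℝ) 1, 1019 / 1000 * rr T t ≤ (g 0 t p).re := by
    intro p hp
    have h2 := (H.qf.xbound htI hs hp).2
    rcases le_or_gt (xa g t) (2 * rr T t) with hx2 | hx2
    · have h3 : √3 / 3 * ya g t ≤ 0.58 * (rr T t / 100) :=
        mul_le_mul (by linarith) (thin hx2) hya.le (by norm_num)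
      linarith
    · have h4 : ya g t ≤ 0.3682 * rr T t := by
        have : (2 * rr T t) * ya g t ≤ (2 * rr T t) * (0.3682 * rr T t) := by nlinarith
        exact le_of_mul_le_mul_left this (by positivity)
      have h3 : √3 / 3 * ya g t ≤ 0.58 * (0.3682 * rr T t) :=
        mul_le_mul (by linarith) h4 hya.le (by norm_num)
      linarith
  have x2 : ∀ p ∈ Icc (0:ℝ) 1, 1019 / 1000 * rr T t ≤ (g 2 t p).re := by
    intro p hp
    have := (H.qf.x2_strict htI hs).monotoneOn zero_mem_I hp hp.1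
    simp only [H.qf.re_zero htI] at this
    linarith
  exact ⟨prod, big, yx, x0, x2⟩

lemma Hyp.cont_xa (H : Hyp T t0 R h g) {t : ℝ} (ht : t ∈ Ico t0 T) :
    ContinuousAt (xa g) t ∧ ContinuousAt (ya g) t ∧ ContinuousAt (rr T) t := by
  have htI := H.mem ht
  exact ⟨(hasDerivAt_re ((H.qf.edge 0).sm.hasDerivAt_t htI 0)).continuousAt,
    (hasDerivAt_im ((H.qf.edge 0).sm.hasDerivAt_t htI 0)).continuousAt,
    (hasDerivAt_rr ht.2).continuousAt⟩

lemma Hyp.cont_N (H : Hyp T t0 R h g) {t : ℝ} (ht : t ∈ Ico t0 T) :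
    ContinuousAt (Nq T g) t := by
  have htI := H.mem ht
  have hpos := SecAt.posAt H.qf htI (H.secAt ht)
  have h2 := func_deriv (H.qf.edge 2) htI (hpos 2) (test_gauss T (5001 / 10000) (49 / 50))
  have h0 := func_deriv (H.qf.edge 0) htI (hpos 0) (test_gauss T (5001 / 10000) (49 / 50))
  exact (h2.sub h0).continuousAt

lemma Hyp.D (H : Hyp T t0 R h g) {t1 : ℝ} (ht1 : t1 ∈ Ico t0 T)
    (hg : ∀ τ ∈ Icc t0 t1, rr T τ ≤ xa g τ) :
    ∀ t ∈ Icc t0 t1, ∀ p ∈ Icc (0:ℝ) 1, Real.sin (π / 3 - th (cang 1) (g 1) t p) ≤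
      √3 / 2 / rr T t * (g 1 t p).re := by
  apply H.qf.D_bound H.t0mem ht1.2 H.sec _ hg
  intro p hp
  rw [H.rr0, div_one]
  exact H.cap p hp

/-- bound of the Gaussian height from the pointwise conclusions -/
lemma Hyp.N_le (H : Hyp T t0 R h g) {t1 : ℝ} (ht1 : t1 ∈ Ico t0 T)
    (hc : ∀ τ ∈ Icc t0 t1, Concl T τ g) : Nq T g t1 < 1 / 2500 := by
  have hmem : ∀ τ ∈ Icc t0 t1, τ ∈ Ico t0 T := fun τ hτ => ⟨hτ.1, hτ.2.trans_lt ht1.2⟩
  have hd : ∀ τ ∈ Icc t0 t1, ∃ N', HasDerivAt (Nq T g) N' τ ∧ N' ≤ 1 / 10000 := by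
    intro τ hτ
    refine H.qf.Nq_deriv (H.mem (hmem τ hτ)) (H.secAt (hmem τ hτ)) (hc τ hτ).x0 (hc τ hτ).x2 H.hR ?_
    have := H.t0T; linarith [hτ.1]
  choose! N' hN' hN'le using hd
  have hmono := mono_of_deriv (f := fun τ => -Nq T g τ + 1 / 10000 * τ)
    (f' := fun τ => -N' τ + 1 / 10000 * 1) (a := t0) (b := t1)
    (fun τ hτ => (hN' τ hτ).neg.add ((hasDerivAt_id' τ).const_mul _))
    (fun τ hτ => by have := hN'le τ hτ; linarith)
    (⟨le_refl _, ht1.1⟩ : t0 ∈ Icc t0 t1) ⟨ht1.1, le_refl _⟩ ht1.1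
  have hinit := H.qf.Nq_init H.t0mem H.sec H.t0T
  have := H.t0T
  have h2 := ht1.2
  have h3 := H.hh
  linarith

theorem Hyp.good_all (H : Hyp T t0 R h g) : ∀ t ∈ Ico t0 T, Good T g t := by
  intro t1 ht1
  have hmem : ∀ τ ∈ Icc t0 t1, τ ∈ Ico t0 T := fun τ hτ => ⟨hτ.1, hτ.2.trans_lt ht1.2⟩
  refine continuation (P := Good T g) ht1.1 ?_ ?_ ?_ t1 ⟨ht1.1, le_refl _⟩
  · have c1 : ContinuousOn (xa g) (Icc t0 t1) := fun τ hτ =>
      (H.cont_xa (hmem τ hτ)).1.continuousWithinAt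
    have c2 : ContinuousOn (ya g) (Icc t0 t1) := fun τ hτ =>
      (H.cont_xa (hmem τ hτ)).2.1.continuousWithinAt
    have c3 : ContinuousOn (rr T) (Icc t0 t1) := fun τ hτ =>
      (H.cont_xa (hmem τ hτ)).2.2.continuousWithinAt
    have c4 : ContinuousOn (Nq T g) (Icc t0 t1) := fun τ hτ =>
      (H.cont_N (hmem τ hτ)).continuousWithinAt
    have i1 := isClosed_Icc.isClosed_le c3 c1
    have i2 := isClosed_Icc.isClosed_le c2 c1
    have i3 := isClosed_Icc.isClosed_le c4 (continuousOn_const (c := (1 / 2500 : ℝ)))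
    convert (i1.inter i2).inter i3 using 1
    ext t
    simp only [mem_inter_iff, mem_ofPred_eq, Good]
    tauto
  · refine ⟨?_, ?_, ?_⟩
    · rw [H.rr0]; exact H.xa1
    · have := H.qf.ya_le_h H.t0mem H.sec
      have := H.hh
      have := H.xa1
      linarith
    · have := H.qf.Nq_init H.t0mem H.sec H.t0T
      have := H.hh
      linarith
  · intro x hx hP
    have hxI : x ∈ Ico t0 T := ⟨hx.1, hx.2.trans ht1.2⟩
    have hDall := H.D hxI (fun τ hτ => (hP τ hτ).1)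
    have hc : ∀ τ ∈ Icc t0 x, Concl T τ g := fun τ hτ =>
      H.concl ⟨hτ.1, hτ.2.trans_lt hxI.2⟩ (hP τ hτ) (hDall τ hτ)
    have hN := H.N_le hxI hc
    have hcx := hc x ⟨hx.1, le_refl _⟩
    obtain ⟨k1, k2, k3⟩ := H.cont_xa hxI
    have k4 := H.cont_N hxI
    have hr := rr_pos hxI.2
    have f1 : ∀ᶠ τ in 𝓝 x, rr T τ < xa g τ :=
      k3.eventually_lt k1 (by have := hcx.big; linarith)
    have f2 : ∀ᶠ τ in 𝓝 x, ya g τ < xa g τ := k2.eventually_lt k1 hcx.yx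
    have f3 : ∀ᶠ τ in 𝓝 x, Nq T g τ < 1 / 2500 := k4.eventually_lt continuousAt_const hN
    have f4 : ∀ᶠ τ in 𝓝 x, Good T g τ := by
      filter_upwards [f1, f2, f3] with τ a1 a2 a3
      exact ⟨a1.le, a2.le, a3.le⟩
    exact f4.filter_mono nhdsWithin_le_nhds

theorem Hyp.D_all (H : Hyp T t0 R h g) {t : ℝ} (ht : t ∈ Ico t0 T) :
    ∀ p ∈ Icc (0:ℝ) 1, Real.sin (π / 3 - th (cang 1) (g 1) t p) ≤
      √3 / 2 / rr T t * (g 1 t p).re :=
  H.D ht (fun τ hτ => (H.good_all τ ⟨hτ.1, hτ.2.trans_lt ht.2⟩).1) t ⟨ht.1, le_refl _⟩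

theorem Hyp.concl_all (H : Hyp T t0 R h g) {t : ℝ} (ht : t ∈ Ico t0 T) : Concl T t g :=
  H.concl ht (H.good_all t ht) (H.D_all ht)

/-- speed bound at the mid-point of the cap -/
lemma Hyp.yM_speed (H : Hyp T t0 R h g) {t : ℝ} (ht : t ∈ Ico t0 T) :
    -(√3 / 2 / rr T t) ≤ (dt (g 1) t 1).im := by
  have htI := H.mem ht
  have hs := H.secAt ht
  have hpos := SecAt.posAt H.qf htI hs
  have hD := H.D_all ht
  have hth := hasDerivAt_th_p (H.qf.edge 1).sm htI (hpos 1 1 one_mem_I)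
  have hd : HasDerivAt (fun p => Real.sin (π / 3 - th (cang 1) (g 1) t p) -
      √3 / 2 / rr T t * (g 1 t p).re) (Real.cos (π / 3 - th (cang 1) (g 1) t 1) *
      (-thp (g 1) t 1) - √3 / 2 / rr T t * (dp (g 1) t 1).re) 1 :=
    ((hth.const_sub (π / 3)).sin).sub ((H.qf.dre htI 1 1).const_mul _)
  have h1 := deriv_nonneg_of_left_max hd zero_lt_one (fun z hz => by
    have := hD z ⟨hz.1.le, hz.2.le⟩
    rw [H.qf.th_M htI hpos, H.qf.mRe t htI, sub_self, Real.sin_zero]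
    linarith)
  rw [H.qf.th_M htI hpos, sub_self, Real.cos_zero, (H.qf.thp_M htI hs).1, (polar1 t 1).1,
    H.qf.th_M htI hpos, sub_self, Real.cos_zero] at h1
  have hv := H.qf.norm_pos htI 1 one_mem_I
  have h2 : 0 ≤ ‖dp (g 1) t 1‖ * ((dt (g 1) t 1).im + √3 / 2 / rr T t) := by linarith
  have := nonneg_of_mul_nonneg_right h2 hv
  linarith

lemma Hyp.yM_le (H : Hyp T t0 R h g) {t : ℝ} (ht : t ∈ Ico t0 T) :
    yM g t ≤ √3 / 2 * rr T t := by
  -- yM - (√3/2) r is nondecreasing and tends to 0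
  have hmono : ∀ s ∈ Ico t T, yM g t - √3 / 2 * rr T t ≤ yM g s - √3 / 2 * rr T s := by
    intro s hs
    refine mono_of_deriv (f := fun s => yM g s - √3 / 2 * rr T s)
      (f' := fun s => (dt (g 1) s 1).im - √3 / 2 * (-1 / rr T s)) (a := t) (b := s)
      (fun x hx => ?_) (fun x hx => ?_) ⟨le_refl _, hs.1⟩ ⟨hs.1, le_refl _⟩ hs.1
    · have hxI : x ∈ Ico t0 T := ⟨ht.1.trans hx.1, hx.2.trans_lt hs.2⟩
      exact (H.qf.yM_deriv (H.mem hxI)).sub ((hasDerivAt_rr hxI.2).const_mul _)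
    · have hxI : x ∈ Ico t0 T := ⟨ht.1.trans hx.1, hx.2.trans_lt hs.2⟩
      have := H.yM_speed hxI
      have e : √3 / 2 * (-1 / rr T x) = -(√3 / 2 / rr T x) := by ring
      rw [e]; linarith
  have hr0 : Tendsto (rr T) (𝓝[<] T) (𝓝 0) := by
    have : ContinuousAt (rr T) T := by
      have : Continuous (rr T) := by unfold rr; fun_prop
      exact this.continuousAt
    have h2 := this.tendsto.mono_left (nhdsWithin_le_nhds (s := Iio T))
    have h3 : rr T T = 0 := by rw [rr, sub_self, mul_zero, Real.sqrt_zero]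
    rwa [h3] at h2
  have hlim : Tendsto (fun s => yM g s - √3 / 2 * rr T s) (𝓝[<] T) (𝓝 (0 - √3 / 2 * 0)) :=
    H.lim.sub (hr0.const_mul _)
  have := ge_of_tendsto hlim (b := yM g t - √3 / 2 * rr T t) (by
    filter_upwards [Ico_mem_nhdsLT ht.2] with s hs
    exact hmono s hs)
  linarith

end

end Run7.h661
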