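import Mathlib

/-!
# Calculus lemmas: smooth functions of `(t,p)`, the maximum principle on a star
-/

open Set Filter Topology
open scoped ContDiff

namespace Run7.h661

/-! ## One-sided extrema -/

lemma deriv_nonpos_of_right_max {f : ℝ → ℝ} {f' x y : ℝ} (h : HasDerivAt f f' x) (hxy : x < y)
    (hmax : ∀ z ∈ Ioo x y, f z ≤ f x) : f' ≤ 0 := by
  have h1 : Tendsto (slope f x) (𝓝[>] x) (𝓝 f') :=
    (hasDerivAt_iff_tendsto_slope.1 h).mono_left (nhdsWithin_mono _ (fun z hz => ne_of_gt hz))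
  refine le_of_tendsto h1 ?_
  filter_upwards [Ioo_mem_nhdsGT hxy] with z hz
  rw [slope_def_field]
  have := hmax z hz
  have h2 : 0 < z - x := by linarith [hz.1]
  exact div_nonpos_of_nonpos_of_nonneg (by linarith) h2.le

lemma deriv_nonneg_of_left_max {f : ℝ → ℝ} {f' x y : ℝ} (h : HasDerivAt f f' x) (hxy : y < x)
    (hmax : ∀ z ∈ Ioo y x, f z ≤ f x) : 0 ≤ f' := by
  have h1 : Tendsto (slope f x) (𝓝[<] x) (𝓝 f') :=
    (hasDerivAt_iff_tendsto_slope.1 h).mono_left (nhdsWithin_mono _ (fun z hz => ne_of_lt hz))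
  refine ge_of_tendsto h1 ?_
  filter_upwards [Ioo_mem_nhdsLT hxy] with z hz
  rw [slope_def_field]
  have := hmax z hz
  have h2 : z - x < 0 := by linarith [hz.2]
  exact div_nonneg_of_nonpos (by linarith) h2.le

lemma second_deriv_nonpos {f f' : ℝ → ℝ} {f'' p c d : ℝ} (hc : c < p) (hd : p < d)
    (h : ∀ q ∈ Ioo c d, HasDerivAt f (f' q) q) (h2 : HasDerivAt f' f'' p)
    (hmax : ∀ q ∈ Ioo c d, f q ≤ f p) : f' p = 0 ∧ f'' ≤ 0 := by
  have hp : p ∈ Ioo c d := ⟨hc, hd⟩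
  have h0 : f' p = 0 := by
    apply le_antisymm
    · exact deriv_nonpos_of_right_max (h p hp) hd (fun z hz => hmax z ⟨hc.trans hz.1, hz.2⟩)
    · exact deriv_nonneg_of_left_max (h p hp) hc (fun z hz => hmax z ⟨hz.1, hz.2.trans hd⟩)
  refine ⟨h0, ?_⟩
  by_contra hcon
  push Not at hcon
  have h1 : Tendsto (slope f' p) (𝓝[>] p) (𝓝 f'') :=
    (hasDerivAt_iff_tendsto_slope.1 h2).mono_left (nhdsWithin_mono _ (fun z hz => ne_of_gt hz))
  have h3 : ∀ᶠ z in 𝓝[>] p, 0 < slope f' p z := h1.eventually (lt_mem_nhds hcon)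
  obtain ⟨e, he, hsub⟩ := (mem_nhdsGT_iff_exists_Ioo_subset).1 h3
  set m := min e d with hm
  have hpm : p < m := lt_min he hd
  set q := (p + m) / 2 with hq
  have hpq : p < q := by linarith
  have hqm : q < m := by linarith
  have hqe : q < e := hqm.trans_le (min_le_left _ _)
  have hqd : q < d := hqm.trans_le (min_le_right _ _)
  obtain ⟨z, hz, hz2⟩ := exists_hasDerivAt_eq_slope f f' hpq
    (fun z hz => (h z ⟨hc.trans_le hz.1, hz.2.trans_lt hqd⟩).continuousAt.continuousWithinAt)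
    (fun z hz => h z ⟨hc.trans hz.1, hz.2.trans hqd⟩)
  have h4 : 0 < slope f' p z := hsub ⟨hz.1, hz.2.trans hqe⟩
  rw [slope_def_field, h0, sub_zero] at h4
  have h5 : 0 < f' z := by
    have : 0 < z - p := by linarith [hz.1]
    by_contra hneg
    push Not at hneg
    exact absurd h4 (not_lt.2 (div_nonpos_of_nonpos_of_nonneg hneg this.le))
  have h6 := hmax q ⟨hc.trans hpq, hqd⟩
  rw [hz2] at h5
  have : (f q - f p) / (q - p) ≤ 0 := div_nonpos_of_nonpos_of_nonneg (by linarith) (by linarith)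
  linarith

/-! ## The maximum principle on a star of edges, parametrised by `[0,1]` -/

theorem star_max {ι : Type*} [Fintype ι] [Nonempty ι] {t0 t1 : ℝ}
    {u up upp ut a b : ι → ℝ → ℝ → ℝ} {K A : ℝ}
    (hc : ∀ i, ContinuousOn (fun q : ℝ × ℝ => u i q.1 q.2) (Icc t0 t1 ×ˢ Icc 0 1))
    (hp : ∀ i, ∀ t ∈ Ioc t0 t1, ∀ p ∈ Icc (0:ℝ) 1, HasDerivAt (u i t) (up i t p) p)
    (hpp : ∀ i, ∀ t ∈ Ioc t0 t1, ∀ p ∈ Ioo (0:ℝ) 1, HasDerivAt (up i t) (upp i t p) p)
    (ht : ∀ i, ∀ t ∈ Ioc t0 t1, ∀ p ∈ Ioo (0:ℝ) 1, HasDerivAt (fun s => u i s p) (ut i t p) t)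
    (ha : ∀ i, ∀ t ∈ Ioc t0 t1, ∀ p ∈ Ioo (0:ℝ) 1, 0 ≤ a i t p ∧ a i t p ≤ A)
    (hb : ∀ i, ∀ t ∈ Ioc t0 t1, ∀ p ∈ Ioo (0:ℝ) 1, |b i t p| ≤ A)
    (hpde : ∀ i, ∀ t ∈ Ioc t0 t1, ∀ p ∈ Ioo (0:ℝ) 1, 0 < u i t p →
      ut i t p ≤ a i t p * upp i t p + b i t p * up i t p + K * u i t p)
    (hinit : ∀ i, ∀ p ∈ Icc (0:ℝ) 1, u i t0 p ≤ 0)
    (hjun : ∀ t ∈ Ioc t0 t1, (∀ i, u i t 0 ≤ 0) ∨ ((∀ i j, u i t 0 = u j t 0) ∧
      ∃ c : ι → ℝ, (∀ i, 0 < c i) ∧ 0 ≤ ∑ i, c i * up i t 0))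
    (hend : ∀ i, ∀ t ∈ Ioc t0 t1, u i t 1 ≤ 0 ∨ up i t 1 ≤ 0) :
    ∀ i, ∀ t ∈ Icc t0 t1, ∀ p ∈ Icc (0:ℝ) 1, u i t p ≤ 0 := by
  by_contra hcon
  push Not at hcon
  obtain ⟨i0, s0, hs0, p0, hp0, hpos⟩ := hcon
  have h01 : t0 ≤ t1 := hs0.1.trans hs0.2
  set g : ℝ → ℝ := fun t => Real.exp (-(K + 1) * t) with hg
  have gpos : ∀ t, 0 < g t := fun t => Real.exp_pos _
  set δ : ℝ := g s0 * u i0 s0 p0 with hδ
  have δpos : 0 < δ := mul_pos (gpos _) hpos
  have hA0 : 0 ≤ |A| := abs_nonneg A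
  set ε : ℝ := δ / (3 * |A| + 1) with hε
  have hden : 0 < 3 * |A| + 1 := by positivity
  have εpos : 0 < ε := div_pos δpos hden
  have hεδ : 3 * |A| * ε + ε = δ := by
    rw [hε]; field_simp
  set w : ι → ℝ → ℝ → ℝ := fun i t p => g t * u i t p + ε * (p * (1 - p)) with hw
  have hwc : ∀ i, ContinuousOn (fun q : ℝ × ℝ => w i q.1 q.2) (Icc t0 t1 ×ˢ Icc 0 1) := by
    intro i
    have h1 := hc i
    have h2 : ContinuousOn (fun q : ℝ × ℝ => g q.1) (Icc t0 t1 ×ˢ Icc 0 1) := by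
      apply Continuous.continuousOn; simp only [hg]; fun_prop
    have h3 : ContinuousOn (fun q : ℝ × ℝ => ε * (q.2 * (1 - q.2))) (Icc t0 t1 ×ˢ Icc 0 1) := by
      apply Continuous.continuousOn; fun_prop
    exact (h2.mul h1).add h3
  have hcomp : IsCompact (Icc t0 t1 ×ˢ Icc (0:ℝ) 1) := isCompact_Icc.prod isCompact_Icc
  have hne : (Icc t0 t1 ×ˢ Icc (0:ℝ) 1).Nonempty := ⟨(s0, p0), hs0, hp0⟩
  have hex : ∀ i, ∃ q ∈ Icc t0 t1 ×ˢ Icc (0:ℝ) 1, ∀ q' ∈ Icc t0 t1 ×ˢ Icc (0:ℝ) 1,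
      w i q'.1 q'.2 ≤ w i q.1 q.2 := fun i => hcomp.exists_isMaxOn hne (hwc i)
  choose Q hQ hQmax using hex
  obtain ⟨j, hj⟩ := Finite.exists_max (fun i => w i (Q i).1 (Q i).2)
  set t := (Q j).1 with htdef
  set p := (Q j).2 with hpdef
  have htm : t ∈ Icc t0 t1 := (hQ j).1
  have hpm : p ∈ Icc (0:ℝ) 1 := (hQ j).2
  have hmax : ∀ i, ∀ s ∈ Icc t0 t1, ∀ q ∈ Icc (0:ℝ) 1, w i s q ≤ w j t p := by
    intro i s hs q hq
    exact (hQmax i (s, q) ⟨hs, hq⟩).trans (hj i)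
  have hφ : ∀ q ∈ Icc (0:ℝ) 1, 0 ≤ q * (1 - q) ∧ q * (1 - q) ≤ 1 / 4 := by
    intro q hq
    constructor
    · exact mul_nonneg hq.1 (by linarith [hq.2])
    · nlinarith [sq_nonneg (q - 1 / 2)]
  have hwδ : δ ≤ w j t p := by
    have h1 := hmax i0 s0 hs0 p0 hp0
    have h2 := (hφ p0 hp0).1
    have h3 : δ ≤ w i0 s0 p0 := by
      simp only [hw]
      have := mul_nonneg εpos.le h2
      linarith
    linarith
  have hgu : δ - ε / 4 ≤ g t * u j t p := by
    have h2 := (hφ p hpm).2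
    have h3 : w j t p = g t * u j t p + ε * (p * (1 - p)) := rfl
    have := mul_le_mul_of_nonneg_left h2 εpos.le
    linarith
  have hεlt : ε / 4 < δ := by nlinarith
  have hguPos : 0 < g t * u j t p := by linarith
  have hupos : 0 < u j t p := by
    by_contra hn
    push Not at hn
    have := mul_nonpos_of_nonneg_of_nonpos (gpos t).le hn
    linarith
  have htgt : t0 < t := by
    rcases eq_or_lt_of_le htm.1 with h | h
    · exfalso
      have := hinit j p hpm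
      rw [h] at this
      linarith
    · exact h
  have htI : t ∈ Ioc t0 t1 := ⟨htgt, htm.2⟩
  have hwp : ∀ i, ∀ q ∈ Icc (0:ℝ) 1, HasDerivAt (w i t) (g t * up i t q + ε * (1 - 2 * q)) q := by
    intro i q hq
    have h1 := (hp i t htI q hq).const_mul (g t)
    have h2 : HasDerivAt (fun q : ℝ => ε * (q * (1 - q))) (ε * (1 - 2 * q)) q := by
      have h3 : HasDerivAt (fun q : ℝ => q * (1 - q)) (1 - 2 * q) q := by
        have h4 := (hasDerivAt_id' q).mul ((hasDerivAt_const q (1:ℝ)).sub (hasDerivAt_id' q))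
        exact h4.congr_deriv (by simp only [Pi.sub_apply]; ring)
      exact h3.const_mul ε
    exact h1.add h2
  rcases eq_or_lt_of_le hpm.1 with hp0' | hp0'
  · -- junction
    have hp00 : p = 0 := hp0'.symm
    rcases hjun t htI with h | ⟨heq, c, hcpos, hsum⟩
    · have := h j
      rw [hp00] at hupos
      linarith
    · have hwi : ∀ i, w i t 0 = w j t p := by
        intro i
        simp only [hw, hp00, heq i j]
      have hneg : ∀ i, up i t 0 < 0 := by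
        intro i
        have h1 := deriv_nonpos_of_right_max (hwp i 0 ⟨le_refl _, zero_le_one⟩) (zero_lt_one)
          (fun z hz => by
            rw [hwi i]
            exact hmax i t htm z ⟨hz.1.le, hz.2.le⟩)
        have h2 : g t * up i t 0 < 0 := by nlinarith
        by_contra hn
        push Not at hn
        have := mul_nonneg (gpos t).le hn
        linarith
      have : ∑ i, c i * up i t 0 < 0 := by
        apply Finset.sum_neg (fun i _ => mul_neg_of_pos_of_neg (hcpos i) (hneg i))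
        exact Finset.univ_nonempty
      linarith
  rcases eq_or_lt_of_le hpm.2 with hp1' | hp1'
  · -- far end
    rcases hend j t htI with h | h
    · rw [hp1'] at hupos
      linarith
    · have h1 := deriv_nonneg_of_left_max (hwp j p hpm) hp0'
          (fun z hz => hmax j t htm z ⟨hz.1.le, hz.2.le.trans hpm.2⟩)
      rw [hp1'] at h1
      have := mul_nonpos_of_nonneg_of_nonpos (gpos t).le h
      linarith
  · -- interior
    have hpI : p ∈ Ioo (0:ℝ) 1 := ⟨hp0', hp1'⟩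
    have hwpp : HasDerivAt (fun q => g t * up j t q + ε * (1 - 2 * q))
        (g t * upp j t p - 2 * ε) p := by
      have h1 := (hpp j t htI p hpI).const_mul (g t)
      have h2 : HasDerivAt (fun q : ℝ => ε * (1 - 2 * q)) (- 2 * ε) p := by
        have h4 := (((hasDerivAt_const p (1:ℝ)).sub ((hasDerivAt_id' p).const_mul 2))).const_mul ε
        exact h4.congr_deriv (by ring)
      exact (h1.add h2).congr_deriv (by ring)
    obtain ⟨e1, e2⟩ := second_deriv_nonpos (f := w j t) hp0' hp1'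
      (fun q hq => hwp j q ⟨hq.1.le, hq.2.le⟩) hwpp
      (fun q hq => hmax j t htm q ⟨hq.1.le, hq.2.le⟩)
    have hwt : HasDerivAt (fun s => w j s p) (g t * ut j t p - (K + 1) * (g t * u j t p)) t := by
      have h1 : HasDerivAt g (g t * (-(K + 1))) t := by
        have h2 : HasDerivAt (fun t : ℝ => -(K + 1) * t) (-(K + 1)) t := by
          simpa using (hasDerivAt_id t).const_mul (-(K + 1))
        exact h2.exp
      have h3 := (h1.mul (ht j t htI p hpI)).add_const (ε * (p * (1 - p)))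
      exact h3.congr_deriv (by ring)
    have e3 := deriv_nonneg_of_left_max hwt htgt
      (fun z hz => hmax j z ⟨hz.1.le, hz.2.le.trans htm.2⟩ p hpm)
    have e4 := hpde j t htI p hpI hupos
    obtain ⟨a0, aA⟩ := ha j t htI p hpI
    have bA := hb j t htI p hpI
    have hAA : A ≤ |A| := le_abs_self A
    have e5 : a j t p * (g t * upp j t p) ≤ 2 * ε * |A| := by
      have h1 : g t * upp j t p ≤ 2 * ε := by linarith
      have h2 : a j t p * (g t * upp j t p) ≤ a j t p * (2 * ε) :=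
        mul_le_mul_of_nonneg_left h1 a0
      have h3 : a j t p * (2 * ε) ≤ |A| * (2 * ε) :=
        mul_le_mul_of_nonneg_right (aA.trans hAA) (by linarith)
      linarith
    have e6 : b j t p * (g t * up j t p) ≤ ε * |A| := by
      have h1 : g t * up j t p = - (ε * (1 - 2 * p)) := by linarith
      rw [h1]
      have h2 : |ε * (1 - 2 * p)| ≤ ε := by
        rw [abs_mul, abs_of_pos εpos]
        have : |1 - 2 * p| ≤ 1 := by
          rw [abs_le]; constructor <;> linarith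
        nlinarith
      calc b j t p * -(ε * (1 - 2 * p)) ≤ |b j t p * -(ε * (1 - 2 * p))| := le_abs_self _
        _ = |b j t p| * |ε * (1 - 2 * p)| := by rw [abs_mul, abs_neg]
        _ ≤ |A| * ε := mul_le_mul (bA.trans hAA) h2 (abs_nonneg _) hA0
        _ = ε * |A| := by ring
    have e7 : g t * ut j t p ≤ a j t p * (g t * upp j t p) + b j t p * (g t * up j t p)
        + K * (g t * u j t p) := by
      have := mul_le_mul_of_nonneg_left e4 (gpos t).le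
      calc g t * ut j t p ≤ _ := this
        _ = _ := by ring
    have : g t * u j t p ≤ 3 * |A| * ε := by nlinarith
    nlinarith

/-! ## Smooth functions on `(0,T) × ℝ` -/

/-- `F` is smooth on `(0,T) × ℝ`. -/
def Sm {E : Type*} [NormedAddCommGroup E] [NormedSpace ℝ E] (T : ℝ) (F : ℝ → ℝ → E) : Prop :=
  ContDiffOn ℝ ∞ (fun q : ℝ × ℝ => F q.1 q.2) (Ioo 0 T ×ˢ univ)

/-- time derivative -/
noncomputable def dt {E : Type*} [NormedAddCommGroup E] [NormedSpace ℝ E] (F : ℝ → ℝ → E)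
    (t p : ℝ) : E := deriv (fun s => F s p) t

/-- parameter derivative -/
noncomputable def dp {E : Type*} [NormedAddCommGroup E] [NormedSpace ℝ E] (F : ℝ → ℝ → E)
    (t p : ℝ) : E := deriv (F t) p

section
variable {E : Type*} [NormedAddCommGroup E] [NormedSpace ℝ E] {T : ℝ} {F : ℝ → ℝ → E}

lemma isOpen_strip (T : ℝ) : IsOpen (Ioo 0 T ×ˢ (univ : Set ℝ)) := isOpen_Ioo.prod isOpen_univ

lemma Sm.contDiffAt (h : Sm T F) {t : ℝ} (ht : t ∈ Ioo 0 T) (p : ℝ) :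
    ContDiffAt ℝ ∞ (fun q : ℝ × ℝ => F q.1 q.2) (t, p) :=
  ContDiffOn.contDiffAt h ((isOpen_strip T).mem_nhds ⟨ht, mem_univ _⟩)

lemma Sm.hasFDerivAt (h : Sm T F) {t : ℝ} (ht : t ∈ Ioo 0 T) (p : ℝ) :
    HasFDerivAt (fun q : ℝ × ℝ => F q.1 q.2) (fderiv ℝ (fun q : ℝ × ℝ => F q.1 q.2) (t, p)) (t, p) :=
  ((h.contDiffAt ht p).differentiableAt (by simp)).hasFDerivAt

lemma Sm.hasDerivAt_t' (h : Sm T F) {t : ℝ} (ht : t ∈ Ioo 0 T) (p : ℝ) :
    HasDerivAt (fun s => F s p) (fderiv ℝ (fun q : ℝ × ℝ => F q.1 q.2) (t, p) (1, 0)) t := by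
  have h1 := h.hasFDerivAt ht p
  have h2 : HasDerivAt (fun s : ℝ => (s, p)) ((1, 0) : ℝ × ℝ) t :=
    (hasDerivAt_id t).prodMk (hasDerivAt_const t p)
  exact h1.comp_hasDerivAt t h2

lemma Sm.hasDerivAt_p' (h : Sm T F) {t : ℝ} (ht : t ∈ Ioo 0 T) (p : ℝ) :
    HasDerivAt (F t) (fderiv ℝ (fun q : ℝ × ℝ => F q.1 q.2) (t, p) (0, 1)) p := by
  have h1 := h.hasFDerivAt ht p
  have h2 : HasDerivAt (fun s : ℝ => (t, s)) ((0, 1) : ℝ × ℝ) p :=
    (hasDerivAt_const p t).prodMk (hasDerivAt_id p)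
  exact h1.comp_hasDerivAt p h2

lemma Sm.dt_eq (h : Sm T F) {t : ℝ} (ht : t ∈ Ioo 0 T) (p : ℝ) :
    dt F t p = fderiv ℝ (fun q : ℝ × ℝ => F q.1 q.2) (t, p) (1, 0) := (h.hasDerivAt_t' ht p).deriv

lemma Sm.dp_eq (h : Sm T F) {t : ℝ} (ht : t ∈ Ioo 0 T) (p : ℝ) :
    dp F t p = fderiv ℝ (fun q : ℝ × ℝ => F q.1 q.2) (t, p) (0, 1) := (h.hasDerivAt_p' ht p).deriv

lemma Sm.hasDerivAt_t (h : Sm T F) {t : ℝ} (ht : t ∈ Ioo 0 T) (p : ℝ) :
    HasDerivAt (fun s => F s p) (dt F t p) t := by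
  rw [h.dt_eq ht p]; exact h.hasDerivAt_t' ht p

lemma Sm.hasDerivAt_p (h : Sm T F) {t : ℝ} (ht : t ∈ Ioo 0 T) (p : ℝ) :
    HasDerivAt (F t) (dp F t p) p := by
  rw [h.dp_eq ht p]; exact h.hasDerivAt_p' ht p

lemma Sm.contDiffOn_fderiv (h : Sm T F) :
    ContDiffOn ℝ ∞ (fderiv ℝ (fun q : ℝ × ℝ => F q.1 q.2)) (Ioo 0 T ×ˢ univ) :=
  ContDiffOn.fderiv_of_isOpen h (isOpen_strip T) (by simp)

lemma Sm.dt (h : Sm T F) : Sm T (dt F) := by
  have h1 := h.contDiffOn_fderiv.clm_apply (contDiffOn_const (c := ((1, 0) : ℝ × ℝ)))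
  refine ContDiffOn.congr h1 ?_
  rintro ⟨t, p⟩ ⟨ht, -⟩
  exact h.dt_eq ht p

lemma Sm.dp (h : Sm T F) : Sm T (dp F) := by
  have h1 := h.contDiffOn_fderiv.clm_apply (contDiffOn_const (c := ((0, 1) : ℝ × ℝ)))
  refine ContDiffOn.congr h1 ?_
  rintro ⟨t, p⟩ ⟨ht, -⟩
  exact h.dp_eq ht p

lemma Sm.comm (h : Sm T F) {t : ℝ} (ht : t ∈ Ioo 0 T) (p : ℝ) :
    Run7.h661.dt (Run7.h661.dp F) t p = Run7.h661.dp (Run7.h661.dt F) t p := by
  set f := (fun q : ℝ × ℝ => F q.1 q.2) with hf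
  have hmem : (t, p) ∈ Ioo 0 T ×ˢ (univ : Set ℝ) := ⟨ht, mem_univ _⟩
  have hnh : Ioo 0 T ×ˢ (univ : Set ℝ) ∈ 𝓝 (t, p) := (isOpen_strip T).mem_nhds hmem
  have hd : DifferentiableAt ℝ (fderiv ℝ f) (t, p) :=
    (h.contDiffOn_fderiv.contDiffAt hnh).differentiableAt (by simp)
  have hsymm : IsSymmSndFDerivAt ℝ f (t, p) :=
    (h.contDiffAt ht p).isSymmSndFDerivAt (by
      simp only [minSmoothness_of_isRCLikeNormedField]
      exact ENat.LEInfty.out)
  have e1 : Run7.h661.dt (Run7.h661.dp F) t p = fderiv ℝ (fderiv ℝ f) (t, p) (1, 0) (0, 1) := by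
    rw [h.dp.dt_eq ht p]
    have : (fun q : ℝ × ℝ => Run7.h661.dp F q.1 q.2) =ᶠ[𝓝 (t, p)]
        (fun q => fderiv ℝ f q (0, 1)) := by
      filter_upwards [hnh] with q hq
      exact h.dp_eq hq.1 q.2
    rw [this.fderiv_eq]
    rw [fderiv_clm_apply hd (differentiableAt_const _)]
    simp
  have e2 : Run7.h661.dp (Run7.h661.dt F) t p = fderiv ℝ (fderiv ℝ f) (t, p) (0, 1) (1, 0) := by
    rw [h.dt.dp_eq ht p]
    have : (fun q : ℝ × ℝ => Run7.h661.dt F q.1 q.2) =ᶠ[𝓝 (t, p)]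
        (fun q => fderiv ℝ f q (1, 0)) := by
      filter_upwards [hnh] with q hq
      exact h.dt_eq hq.1 q.2
    rw [this.fderiv_eq]
    rw [fderiv_clm_apply hd (differentiableAt_const _)]
    simp
  rw [e1, e2]
  exact hsymm _ _

lemma Sm.continuousOn (h : Sm T F) : ContinuousOn (fun q : ℝ × ℝ => F q.1 q.2) (Ioo 0 T ×ˢ univ) :=
  ContDiffOn.continuousOn h

lemma Sm.continuous_p (h : Sm T F) {t : ℝ} (ht : t ∈ Ioo 0 T) : Continuous (F t) :=
  continuous_iff_continuousAt.2 (fun p => (h.hasDerivAt_p ht p).continuousAt)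

lemma Sm.continuousAt_t (h : Sm T F) {t : ℝ} (ht : t ∈ Ioo 0 T) (p : ℝ) :
    ContinuousAt (fun s => F s p) t := (h.hasDerivAt_t ht p).continuousAt

lemma Sm.continuousAt (h : Sm T F) {t : ℝ} (ht : t ∈ Ioo 0 T) (p : ℝ) :
    ContinuousAt (fun q : ℝ × ℝ => F q.1 q.2) (t, p) := (h.contDiffAt ht p).continuousAt

end

/-! ## Differentiation under the integral sign -/

lemma hasDerivAt_integral_param {T : ℝ} {f f' : ℝ → ℝ → ℝ} {t : ℝ} (ht : t ∈ Ioo 0 T)
    (hf : ContinuousOn (fun q : ℝ × ℝ => f q.1 q.2) (Ioo 0 T ×ˢ univ))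
    (hf' : ContinuousOn (fun q : ℝ × ℝ => f' q.1 q.2) (Ioo 0 T ×ˢ univ))
    (hd : ∀ s ∈ Ioo 0 T, ∀ p ∈ Icc (0:ℝ) 1, HasDerivAt (fun s => f s p) (f' s p) s) :
    HasDerivAt (fun s => ∫ p in (0:ℝ)..1, f s p) (∫ p in (0:ℝ)..1, f' t p) t := by
  have hslice : ∀ (g : ℝ → ℝ → ℝ), ContinuousOn (fun q : ℝ × ℝ => g q.1 q.2) (Ioo 0 T ×ˢ univ) →
      ∀ s ∈ Ioo 0 T, Continuous (g s) := by
    intro g hg s hs
    have : g s = (fun q : ℝ × ℝ => g q.1 q.2) ∘ (fun x => (s, x)) := rfl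
    rw [this, ← continuousOn_univ]
    exact hg.comp (by fun_prop) (fun x _ => ⟨hs, mem_univ _⟩)
  obtain ⟨r, hr, hsub⟩ : ∃ r > 0, Icc (t - r) (t + r) ⊆ Ioo 0 T := by
    refine ⟨min (t / 2) ((T - t) / 2), ?_, ?_⟩
    · have := ht.1; have := ht.2
      exact lt_min (by linarith) (by linarith)
    · intro s hs
      have h1 := min_le_left (t / 2) ((T - t) / 2)
      have h2 := min_le_right (t / 2) ((T - t) / 2)
      have := ht.1; have := ht.2
      constructor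
      · have := hs.1; linarith
      · have := hs.2; linarith
  have hcomp : IsCompact (Icc (t - r) (t + r) ×ˢ Icc (0:ℝ) 1) := isCompact_Icc.prod isCompact_Icc
  obtain ⟨C, hC⟩ := hcomp.exists_bound_of_continuousOn
    (hf'.mono (prod_mono hsub (subset_univ _)))
  have hIoc : uIoc (0:ℝ) 1 ⊆ Icc 0 1 := by
    rw [uIoc_of_le zero_le_one]; exact Ioc_subset_Icc_self
  have hnear : Ioo (t - r) (t + r) ∈ 𝓝 t := Ioo_mem_nhds (by linarith) (by linarith)
  refine (intervalIntegral.hasDerivAt_integral_of_dominated_loc_of_deriv_le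
    (bound := fun _ => C) hnear ?_ ?_ ?_ ?_ ?_ ?_).2
  · filter_upwards [hnear] with s hs
    exact (hslice f hf s (hsub ⟨hs.1.le, hs.2.le⟩)).aestronglyMeasurable
  · exact (hslice f hf t ht).intervalIntegrable _ _
  · exact (hslice f' hf' t ht).aestronglyMeasurable
  · refine Eventually.of_forall (fun x hx s hs => ?_)
    exact hC (s, x) ⟨⟨hs.1.le, hs.2.le⟩, hIoc hx⟩
  · simp
  · refine Eventually.of_forall (fun x hx s hs => ?_)
    exact hd s (hsub ⟨hs.1.le, hs.2.le⟩) x (hIoc hx)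

end Run7.h661
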