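import Pool.Agent.Run7.h661.Calc

/-!
# One curve moving by its curvature: the tangent angle and its equation
-/

open Set Filter Topology
open scoped ContDiff

namespace Run7.h661

/-- A smooth curve `p ↦ γ t p`, `p ∈ [0,1]`, moving by curvature for `t ∈ (0,T)`. -/
structure EdgeFlow (T : ℝ) (γ : ℝ → ℝ → ℂ) : Prop where
  sm : Sm T γ
  reg : ∀ t ∈ Ioo 0 T, ∀ p ∈ Icc (0:ℝ) 1, dp γ t p ≠ 0
  flow : ∀ t ∈ Ioo 0 T, ∀ p ∈ Icc (0:ℝ) 1,
    (dt γ t p / dp γ t p).im = (dp (dp γ) t p / dp γ t p).im / Complex.normSq (dp γ t p)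

/-- `1/|γ_p|²` -/
noncomputable def ac (γ : ℝ → ℝ → ℂ) (t p : ℝ) : ℝ := 1 / Complex.normSq (dp γ t p)

/-- drift coefficient -/
noncomputable def bc (γ : ℝ → ℝ → ℂ) (t p : ℝ) : ℝ :=
  (dt γ t p / dp γ t p).re - ac γ t p * (dp (dp γ) t p / dp γ t p).re

/-- `γ_p` rotated by `-c` -/
noncomputable def wv (c : ℝ) (γ : ℝ → ℝ → ℂ) (t p : ℝ) : ℂ :=
  Complex.exp (-(c * Complex.I)) * dp γ t p

/-- tangent angle minus `c` -/
noncomputable def th (c : ℝ) (γ : ℝ → ℝ → ℂ) (t p : ℝ) : ℝ := (wv c γ t p).arg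

/-- `p`-derivative of the angle -/
noncomputable def thp (γ : ℝ → ℝ → ℂ) (t p : ℝ) : ℝ := (dp (dp γ) t p / dp γ t p).im

/-- `t`-derivative of the angle -/
noncomputable def tht (γ : ℝ → ℝ → ℂ) (t p : ℝ) : ℝ := (dt (dp γ) t p / dp γ t p).im

/-- second `p`-derivative of the angle -/
noncomputable def thpp (γ : ℝ → ℝ → ℂ) (t p : ℝ) : ℝ :=
  ((dp (dp (dp γ)) t p * dp γ t p - dp (dp γ) t p * dp (dp γ) t p) / (dp γ t p) ^ 2).im

section
variable {T c : ℝ} {γ : ℝ → ℝ → ℂ}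

lemma sm_smul_exp (h : Sm T γ) : Sm T (wv c γ) := by
  have h1 : ContDiffOn ℝ ∞ (fun _ : ℝ × ℝ => Complex.exp (-(c * Complex.I)))
    (Ioo 0 T ×ˢ (univ : Set ℝ)) := contDiffOn_const
  exact h1.mul h.dp

lemma dp_wv (h : Sm T γ) {t : ℝ} (ht : t ∈ Ioo 0 T) (p : ℝ) :
    HasDerivAt (wv c γ t) (Complex.exp (-(c * Complex.I)) * dp (dp γ) t p) p :=
  (h.dp.hasDerivAt_p ht p).const_mul _

lemma dt_wv (h : Sm T γ) {t : ℝ} (ht : t ∈ Ioo 0 T) (p : ℝ) :
    HasDerivAt (fun s => wv c γ s p) (Complex.exp (-(c * Complex.I)) * dt (dp γ) t p) t :=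
  (h.dp.hasDerivAt_t ht p).const_mul _

lemma slit_of_re {z : ℂ} (h : 0 < z.re) : z ∈ Complex.slitPlane := Or.inl h

lemma dp_ne_of_re {t p : ℝ} (hw : 0 < (wv c γ t p).re) : dp γ t p ≠ 0 := by
  intro h
  simp [wv, h] at hw

lemma hasDerivAt_th_p (h : Sm T γ) {t : ℝ} (ht : t ∈ Ioo 0 T) {p : ℝ}
    (hw : 0 < (wv c γ t p).re) : HasDerivAt (th c γ t) (thp γ t p) p := by
  have h1 := (dp_wv (c := c) h ht p).clog_real (slit_of_re hw)
  have h2 := (Complex.imCLM.hasFDerivAt.comp_hasDerivAt p h1)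
  have h3 : (fun q => Complex.imCLM (Complex.log (wv c γ t q))) = th c γ t := by
    funext q; simp [th, Complex.log_im]
  have h4 : HasDerivAt (fun q => Complex.imCLM (Complex.log (wv c γ t q)))
    (Complex.imCLM (Complex.exp (-(c * Complex.I)) * dp (dp γ) t p / wv c γ t p)) p := h2
  rw [h3] at h4
  convert h4 using 1
  simp only [thp, wv, Complex.imCLM_apply]
  rw [mul_div_mul_left _ _ (Complex.exp_ne_zero _)]

lemma hasDerivAt_th_t (h : Sm T γ) {t : ℝ} (ht : t ∈ Ioo 0 T) {p : ℝ}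
    (hw : 0 < (wv c γ t p).re) : HasDerivAt (fun s => th c γ s p) (tht γ t p) t := by
  have h1 := (dt_wv (c := c) h ht p).clog_real (slit_of_re hw)
  have h2 := (Complex.imCLM.hasFDerivAt.comp_hasDerivAt t h1)
  have h3 : (fun s => Complex.imCLM (Complex.log (wv c γ s p))) = (fun s => th c γ s p) := by
    funext q; simp [th, Complex.log_im]
  have h4 : HasDerivAt (fun s => Complex.imCLM (Complex.log (wv c γ s p)))
    (Complex.imCLM (Complex.exp (-(c * Complex.I)) * dt (dp γ) t p / wv c γ t p)) t := h2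
  rw [h3] at h4
  convert h4 using 1
  simp only [tht, wv, Complex.imCLM_apply]
  rw [mul_div_mul_left _ _ (Complex.exp_ne_zero _)]

lemma continuousAt_th (h : Sm T γ) {t : ℝ} (ht : t ∈ Ioo 0 T) {p : ℝ}
    (hw : 0 < (wv c γ t p).re) : ContinuousAt (fun q : ℝ × ℝ => th c γ q.1 q.2) (t, p) := by
  have h1 : ContinuousAt (fun q : ℝ × ℝ => wv c γ q.1 q.2) (t, p) :=
    (sm_smul_exp (c := c) h).continuousAt ht p
  have h2 := Complex.continuousAt_arg (slit_of_re hw)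
  exact ContinuousAt.comp (f := fun q : ℝ × ℝ => wv c γ q.1 q.2) (g := Complex.arg) h2 h1

lemma hasDerivAt_thp (h : Sm T γ) {t : ℝ} (ht : t ∈ Ioo 0 T) {p : ℝ}
    (hz : dp γ t p ≠ 0) : HasDerivAt (thp γ t) (thpp γ t p) p := by
  have h1 := h.dp.hasDerivAt_p ht p
  have h2 := h.dp.dp.hasDerivAt_p ht p
  have h3 := h2.div h1 hz
  have h4 := (Complex.imCLM.hasFDerivAt.comp_hasDerivAt p h3)
  exact h4

/-- cross product form of the flow equation -/
lemma EdgeFlow.cross (h : EdgeFlow T γ) {t : ℝ} (ht : t ∈ Ioo 0 T) {p : ℝ}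
    (hp : p ∈ Icc (0:ℝ) 1) :
    (dt γ t p).im * (dp γ t p).re - (dt γ t p).re * (dp γ t p).im = thp γ t p := by
  have h1 := h.flow t ht p hp
  have hz := h.reg t ht p hp
  have hn : Complex.normSq (dp γ t p) ≠ 0 := by
    rw [ne_eq, Complex.normSq_eq_zero]; exact hz
  rw [eq_div_iff hn] at h1
  rw [thp, ← h1, Complex.div_im]
  field_simp

/-- the flow equation `γ_t = a γ_pp + b γ_p` -/
lemma EdgeFlow.eqn (h : EdgeFlow T γ) {t : ℝ} (ht : t ∈ Ioo 0 T) {p : ℝ}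
    (hp : p ∈ Icc (0:ℝ) 1) :
    dt γ t p = (ac γ t p : ℂ) * dp (dp γ) t p + (bc γ t p : ℂ) * dp γ t p := by
  have h1 := h.flow t ht p hp
  have hz := h.reg t ht p hp
  have key : dt γ t p / dp γ t p = (ac γ t p : ℂ) * (dp (dp γ) t p / dp γ t p) + (bc γ t p : ℂ) := by
    apply Complex.ext
    · simp [bc]
    · simp only [Complex.add_im, Complex.mul_im, Complex.ofReal_re, Complex.ofReal_im, zero_mul,
        add_zero]
      rw [h1, ac]; ring
  have := congrArg (fun z => z * dp γ t p) key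
  rw [div_mul_cancel₀ _ hz] at this
  rw [this, add_mul, mul_assoc, div_mul_cancel₀ _ hz]

lemma EdgeFlow.pde (h : EdgeFlow T γ) {t : ℝ} (ht : t ∈ Ioo 0 T) {p : ℝ}
    (hp : p ∈ Ioo (0:ℝ) 1) :
    tht γ t p = ac γ t p * thpp γ t p + bc γ t p * thp γ t p := by
  have hpI : p ∈ Icc (0:ℝ) 1 := ⟨hp.1.le, hp.2.le⟩
  have hz := h.reg t ht p hpI
  have hn : Complex.normSq (dp γ t p) ≠ 0 := by
    rw [ne_eq, Complex.normSq_eq_zero]; exact hz
  -- derivative of the left side of the flow equation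
  have hV : HasDerivAt (dt γ t) (dt (dp γ) t p) p := by
    rw [h.sm.comm ht p]; exact h.sm.dt.hasDerivAt_p ht p
  have hZ := h.sm.dp.hasDerivAt_p ht p
  have hL : HasDerivAt (fun q => (dt γ t q / dp γ t q).im)
      (((dt (dp γ) t p * dp γ t p - dt γ t p * dp (dp γ) t p) / (dp γ t p) ^ 2).im) p :=
    Complex.imCLM.hasFDerivAt.comp_hasDerivAt p (hV.div hZ hz)
  have hZre : HasDerivAt (fun q => (dp γ t q).re) (dp (dp γ) t p).re p :=
    Complex.reCLM.hasFDerivAt.comp_hasDerivAt p hZ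
  have hZim : HasDerivAt (fun q => (dp γ t q).im) (dp (dp γ) t p).im p :=
    Complex.imCLM.hasFDerivAt.comp_hasDerivAt p hZ
  have hN : HasDerivAt (fun q => Complex.normSq (dp γ t q))
      (2 * ((dp γ t p).re * (dp (dp γ) t p).re + (dp γ t p).im * (dp (dp γ) t p).im)) p := by
    have h1 := (hZre.mul hZre).add (hZim.mul hZim)
    have h2 : (fun q => Complex.normSq (dp γ t q)) =
      (fun q => (dp γ t q).re) * (fun q => (dp γ t q).re) +
      (fun q => (dp γ t q).im) * (fun q => (dp γ t q).im) := by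
      funext q; simp [Complex.normSq_apply]
    rw [h2]
    exact h1.congr_deriv (by ring)
  have hR : HasDerivAt (fun q => thp γ t q / Complex.normSq (dp γ t q))
      ((thpp γ t p * Complex.normSq (dp γ t p) - thp γ t p *
        (2 * ((dp γ t p).re * (dp (dp γ) t p).re + (dp γ t p).im * (dp (dp γ) t p).im)))
        / (Complex.normSq (dp γ t p)) ^ 2) p :=
    (hasDerivAt_thp h.sm ht hz).div hN hn
  have hEq : (fun q => (dt γ t q / dp γ t q).im) =ᶠ[𝓝 p]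
      (fun q => thp γ t q / Complex.normSq (dp γ t q)) := by
    filter_upwards [Ioo_mem_nhds hp.1 hp.2] with q hq
    exact h.flow t ht q ⟨hq.1.le, hq.2.le⟩
  have hU := (hL.congr_of_eventuallyEq hEq.symm).unique hR
  -- algebra
  have hflow := h.flow t ht p hpI
  set Z := dp γ t p with hZd
  set V := dt γ t p with hVd
  set Zp := dp (dp γ) t p with hZp
  set Zt := dt (dp γ) t p with hZt
  set N := Complex.normSq Z with hNd
  obtain ⟨q, hq⟩ : ∃ q, q = Zp / Z := ⟨_, rfl⟩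
  obtain ⟨G, hG⟩ : ∃ G, G = V / Z := ⟨_, rfl⟩
  obtain ⟨n, hn'⟩ : ∃ n, n = Zt / Z := ⟨_, rfl⟩
  have e1 : Zp = q * Z := by rw [hq, div_mul_cancel₀ _ hz]
  have e2 : V = G * Z := by rw [hG, div_mul_cancel₀ _ hz]
  have e3 : Zt = n * Z := by rw [hn', div_mul_cancel₀ _ hz]
  have f1 : (Zt * Z - V * Zp) / Z ^ 2 = n - G * q := by
    rw [e1, e2, e3]; field_simp
  have f2 : (2 * (Z.re * Zp.re + Z.im * Zp.im)) = 2 * q.re * N := by
    rw [e1, hNd, Complex.normSq_apply]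
    simp only [Complex.mul_re, Complex.mul_im]
    ring
  have f3 : thp γ t p = q.im := by rw [thp, hq]
  have f4 : tht γ t p = n.im := by rw [tht, hn']
  have f5 : ac γ t p = 1 / N := rfl
  have f6 : bc γ t p = G.re - 1 / N * q.re := by rw [bc, f5, ← hq, ← hG]
  rw [f1, f2, f3] at hU
  rw [← hG, ← hq] at hflow
  rw [f3, f4, f5, f6]
  simp only [Complex.sub_im, Complex.mul_im] at hU
  rw [hflow] at hU
  field_simp at hU ⊢
  linear_combination hU

/-! polar form -/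

lemma polar (c : ℝ) (γ : ℝ → ℝ → ℂ) (t p : ℝ) :
    (dp γ t p).re = ‖dp γ t p‖ * Real.cos (c + th c γ t p) ∧
    (dp γ t p).im = ‖dp γ t p‖ * Real.sin (c + th c γ t p) := by
  have h1 : dp γ t p = Complex.exp (c * Complex.I) * wv c γ t p := by
    rw [wv, ← mul_assoc, ← Complex.exp_add]; simp
  have h2 : ‖wv c γ t p‖ = ‖dp γ t p‖ := by
    rw [wv, norm_mul]
    have : ‖Complex.exp (-(c * Complex.I))‖ = 1 := by
      rw [← neg_mul, ← Complex.ofReal_neg]; exact Complex.norm_exp_ofReal_mul_I _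
    rw [this, one_mul]
  have h3 : dp γ t p = ‖dp γ t p‖ * Complex.exp ((c + th c γ t p : ℝ) * Complex.I) := by
    conv_lhs => rw [h1, ← Complex.norm_mul_exp_arg_mul_I (wv c γ t p), h2]
    rw [th]
    push_cast
    rw [add_mul, Complex.exp_add]
    ring
  constructor
  · conv_lhs => rw [h3]
    rw [Complex.re_ofReal_mul, Complex.exp_ofReal_mul_I_re]
  · conv_lhs => rw [h3]
    rw [Complex.im_ofReal_mul, Complex.exp_ofReal_mul_I_im]

lemma wv_polar (c : ℝ) (γ : ℝ → ℝ → ℂ) (t p : ℝ) :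
    (wv c γ t p).re = ‖dp γ t p‖ * Real.cos (th c γ t p) ∧
    (wv c γ t p).im = ‖dp γ t p‖ * Real.sin (th c γ t p) := by
  have h2 : ‖wv c γ t p‖ = ‖dp γ t p‖ := by
    rw [wv, norm_mul]
    have : ‖Complex.exp (-(c * Complex.I))‖ = 1 := by
      rw [← neg_mul, ← Complex.ofReal_neg]; exact Complex.norm_exp_ofReal_mul_I _
    rw [this, one_mul]
  have h3 : wv c γ t p = ‖dp γ t p‖ * Complex.exp ((th c γ t p : ℝ) * Complex.I) := by
    conv_lhs => rw [← Complex.norm_mul_exp_arg_mul_I (wv c γ t p), h2]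
    rw [th]
  constructor
  · conv_lhs => rw [h3]
    rw [Complex.re_ofReal_mul, Complex.exp_ofReal_mul_I_re]
  · conv_lhs => rw [h3]
    rw [Complex.im_ofReal_mul, Complex.exp_ofReal_mul_I_im]

/-! sector condition -/

/-- the direction of the curve lies between `c` and `c + π/3` -/
def Sec (c : ℝ) (γ : ℝ → ℝ → ℂ) (t p : ℝ) : Prop :=
  0 ≤ (wv c γ t p).im ∧ (wv c γ t p).im ≤ √3 * (wv c γ t p).re

lemma Sec.re_pos {t p : ℝ} (h : Sec c γ t p) (hz : dp γ t p ≠ 0) : 0 < (wv c γ t p).re := by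
  obtain ⟨h1, h2⟩ := h
  have h3 : 0 < √3 := by positivity
  rcases lt_trichotomy (wv c γ t p).re 0 with h | h | h
  · exfalso
    have := mul_neg_of_pos_of_neg h3 h
    linarith
  · exfalso
    rw [h, mul_zero] at h2
    have h4 : (wv c γ t p).im = 0 := le_antisymm h2 h1
    have h5 : wv c γ t p = 0 := Complex.ext h h4
    rw [wv] at h5
    rcases mul_eq_zero.1 h5 with h6 | h6
    · exact Complex.exp_ne_zero _ h6
    · exact hz h6
  · exact h

lemma abs_th_lt {t p : ℝ} (hw : 0 < (wv c γ t p).re) : |th c γ t p| < Real.pi / 2 :=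
  Complex.abs_arg_lt_pi_div_two_iff.2 (Or.inl hw)

lemma sec_iff {t p : ℝ} (hw : 0 < (wv c γ t p).re) :
    Sec c γ t p ↔ 0 ≤ th c γ t p ∧ th c γ t p ≤ Real.pi / 3 := by
  have habs := abs_lt.1 (abs_th_lt hw)
  obtain ⟨e1, e2⟩ := wv_polar c γ t p
  have hn : 0 < ‖dp γ t p‖ := norm_pos_iff.2 (dp_ne_of_re hw)
  have hpi := Real.pi_pos
  have key : (wv c γ t p).im - √3 * (wv c γ t p).re
      = 2 * ‖dp γ t p‖ * Real.sin (th c γ t p - Real.pi / 3) := by
    rw [e1, e2, Real.sin_sub, Real.cos_pi_div_three, Real.sin_pi_div_three]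
    ring
  constructor
  · rintro ⟨h1, h2⟩
    refine ⟨Complex.arg_nonneg_iff.2 h1, ?_⟩
    by_contra hcon
    push Not at hcon
    have h3 : 0 < Real.sin (th c γ t p - Real.pi / 3) :=
      Real.sin_pos_of_pos_of_lt_pi (by linarith) (by linarith)
    have : 0 < 2 * ‖dp γ t p‖ * Real.sin (th c γ t p - Real.pi / 3) := by positivity
    linarith
  · rintro ⟨h1, h2⟩
    refine ⟨Complex.arg_nonneg_iff.1 h1, ?_⟩
    have h3 : Real.sin (th c γ t p - Real.pi / 3) ≤ 0 :=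
      Real.sin_nonpos_of_nonpos_of_neg_pi_le (by linarith) (by linarith)
    have : 2 * ‖dp γ t p‖ * Real.sin (th c γ t p - Real.pi / 3) ≤ 0 :=
      mul_nonpos_of_nonneg_of_nonpos (by positivity) h3
    linarith

/-! continuity of the coefficients -/

lemma EdgeFlow.cont_coef (h : EdgeFlow T γ) :
    ContinuousOn (fun q : ℝ × ℝ => ac γ q.1 q.2) (Ioo 0 T ×ˢ Icc 0 1) ∧
    ContinuousOn (fun q : ℝ × ℝ => bc γ q.1 q.2) (Ioo 0 T ×ˢ Icc 0 1) ∧
    ContinuousOn (fun q : ℝ × ℝ => thp γ q.1 q.2) (Ioo 0 T ×ˢ Icc 0 1) := by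
  have hsub : Ioo 0 T ×ˢ Icc (0:ℝ) 1 ⊆ Ioo 0 T ×ˢ univ := prod_mono (Subset.refl _) (subset_univ _)
  have hZ := h.sm.dp.continuousOn.mono hsub
  have hV := h.sm.dt.continuousOn.mono hsub
  have hZp := h.sm.dp.dp.continuousOn.mono hsub
  have hz : ∀ q ∈ Ioo 0 T ×ˢ Icc (0:ℝ) 1, dp γ q.1 q.2 ≠ 0 := fun q hq => h.reg q.1 hq.1 q.2 hq.2
  have hN : ContinuousOn (fun q : ℝ × ℝ => Complex.normSq (dp γ q.1 q.2))
      (Ioo 0 T ×ˢ Icc 0 1) := Complex.continuous_normSq.comp_continuousOn hZ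
  have ha : ContinuousOn (fun q : ℝ × ℝ => ac γ q.1 q.2) (Ioo 0 T ×ˢ Icc 0 1) := by
    refine continuousOn_const.div hN (fun q hq => ?_)
    rw [ne_eq, Complex.normSq_eq_zero]; exact hz q hq
  refine ⟨ha, ?_, ?_⟩
  · have h1 := Complex.continuous_re.comp_continuousOn (hV.div hZ hz)
    have h2 := Complex.continuous_re.comp_continuousOn (hZp.div hZ hz)
    exact h1.sub (ha.mul h2)
  · exact Complex.continuous_im.comp_continuousOn (hZp.div hZ hz)

lemma EdgeFlow.coef_bound (h : EdgeFlow T γ) {t0 t1 : ℝ} (h0 : 0 < t0) (h1 : t1 < T) :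
    ∃ A, ∀ t ∈ Icc t0 t1, ∀ p ∈ Icc (0:ℝ) 1, 0 ≤ ac γ t p ∧ ac γ t p ≤ A ∧ |bc γ t p| ≤ A ∧
      |thp γ t p| ≤ A := by
  have hsub : Icc t0 t1 ×ˢ Icc (0:ℝ) 1 ⊆ Ioo 0 T ×ˢ Icc 0 1 :=
    prod_mono (fun t ht => ⟨h0.trans_le ht.1, ht.2.trans_lt h1⟩) (Subset.refl _)
  have hcomp : IsCompact (Icc t0 t1 ×ˢ Icc (0:ℝ) 1) := isCompact_Icc.prod isCompact_Icc
  obtain ⟨ha, hb, hth⟩ := h.cont_coef
  obtain ⟨A1, hA1⟩ := hcomp.exists_bound_of_continuousOn (ha.mono hsub)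
  obtain ⟨A2, hA2⟩ := hcomp.exists_bound_of_continuousOn (hb.mono hsub)
  obtain ⟨A3, hA3⟩ := hcomp.exists_bound_of_continuousOn (hth.mono hsub)
  refine ⟨max A1 (max A2 A3), fun t ht p hp => ⟨?_, ?_, ?_, ?_⟩⟩
  · rw [ac]; exact div_nonneg zero_le_one (Complex.normSq_nonneg _)
  · exact ((le_abs_self _).trans (hA1 (t, p) ⟨ht, hp⟩)).trans (le_max_left _ _)
  · exact ((hA2 (t, p) ⟨ht, hp⟩).trans (le_max_left _ _)).trans (le_max_right _ _)
  · exact ((hA3 (t, p) ⟨ht, hp⟩).trans (le_max_right _ _)).trans (le_max_right _ _)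

end

end Run7.h661
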