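import Pool.Agent.Run7.h661.Wlem

/-!
# Integral functionals along the edges
-/

open Set Filter Topology MeasureTheory
open scoped ContDiff Real

namespace Run7.h661

/-- A function of `(t,x)` with the derivatives which are needed. -/
structure Test (T : ℝ) (Φ Φt Φx Φxx : ℝ → ℝ → ℝ) : Prop where
  c : ContinuousOn (fun q : ℝ × ℝ => Φ q.1 q.2) (Ioo 0 T ×ˢ univ)
  ct : ContinuousOn (fun q : ℝ × ℝ => Φt q.1 q.2) (Ioo 0 T ×ˢ univ)
  cx : ContinuousOn (fun q : ℝ × ℝ => Φx q.1 q.2) (Ioo 0 T ×ˢ univ)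
  cxx : ContinuousOn (fun q : ℝ × ℝ => Φxx q.1 q.2) (Ioo 0 T ×ˢ univ)
  chain : ∀ t ∈ Ioo 0 T, ∀ (x : ℝ → ℝ) (x' : ℝ), HasDerivAt x x' t →
    HasDerivAt (fun s => Φ s (x s)) (Φt t (x t) + Φx t (x t) * x') t
  dx : ∀ t ∈ Ioo 0 T, ∀ x, HasDerivAt (Φ t) (Φx t x) x
  dxx : ∀ t ∈ Ioo 0 T, ∀ x, HasDerivAt (Φx t) (Φxx t x) x

lemma slice_cont {T : ℝ} {Φ : ℝ → ℝ → ℝ}
    (h : ContinuousOn (fun q : ℝ × ℝ => Φ q.1 q.2) (Ioo 0 T ×ˢ univ)) {t : ℝ} (ht : t ∈ Ioo 0 T) :
    Continuous (Φ t) := by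
  have : Φ t = (fun q : ℝ × ℝ => Φ q.1 q.2) ∘ (fun x => (t, x)) := rfl
  rw [this, ← continuousOn_univ]
  exact h.comp (by fun_prop) (fun x _ => ⟨ht, mem_univ _⟩)

theorem func_deriv {T c : ℝ} {γ : ℝ → ℝ → ℂ} (H : EdgeFlow T γ) {t : ℝ} (ht : t ∈ Ioo 0 T)
    (hpos : ∀ p ∈ Icc (0:ℝ) 1, 0 < (wv c γ t p).re) {Φ Φt Φx Φxx : ℝ → ℝ → ℝ}
    (hΦ : Test T Φ Φt Φx Φxx) :
    HasDerivAt (fun s => ∫ p in (0:ℝ)..1, Φ s (γ s p).re * (dp γ s p).im)
      ((Φ t (γ t 1).re * (dt γ t 1).im - Φx t (γ t 1).re * th c γ t 1)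
        - (Φ t (γ t 0).re * (dt γ t 0).im - Φx t (γ t 0).re * th c γ t 0)
        + ∫ p in (0:ℝ)..1, (Φt t (γ t p).re * (dp γ t p).im +
            Φxx t (γ t p).re * (th c γ t p * (dp γ t p).re))) t := by
  have hre : ContinuousOn (fun q : ℝ × ℝ => (γ q.1 q.2).re) (Ioo 0 T ×ˢ univ) :=
    Complex.continuous_re.comp_continuousOn H.sm.continuousOn
  have hcomp : ∀ {Ψ : ℝ → ℝ → ℝ}, ContinuousOn (fun q : ℝ × ℝ => Ψ q.1 q.2) (Ioo 0 T ×ˢ univ) →
      ContinuousOn (fun q : ℝ × ℝ => Ψ q.1 (γ q.1 q.2).re) (Ioo 0 T ×ˢ univ) := by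
    intro Ψ hΨ
    have h1 : ContinuousOn (fun q : ℝ × ℝ => (q.1, (γ q.1 q.2).re)) (Ioo 0 T ×ˢ univ) :=
      continuousOn_fst.prodMk hre
    exact hΨ.comp h1 (fun q hq => ⟨hq.1, mem_univ _⟩)
  have hZi : ContinuousOn (fun q : ℝ × ℝ => (dp γ q.1 q.2).im) (Ioo 0 T ×ˢ univ) :=
    Complex.continuous_im.comp_continuousOn H.sm.dp.continuousOn
  have hVr : ContinuousOn (fun q : ℝ × ℝ => (dt γ q.1 q.2).re) (Ioo 0 T ×ˢ univ) :=
    Complex.continuous_re.comp_continuousOn H.sm.dt.continuousOn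
  have hZti : ContinuousOn (fun q : ℝ × ℝ => (dt (dp γ) q.1 q.2).im) (Ioo 0 T ×ˢ univ) :=
    Complex.continuous_im.comp_continuousOn H.sm.dp.dt.continuousOn
  have hmain := hasDerivAt_integral_param (T := T) (t := t)
    (f := fun s p => Φ s (γ s p).re * (dp γ s p).im)
    (f' := fun s p => (Φt s (γ s p).re + Φx s (γ s p).re * (dt γ s p).re) * (dp γ s p).im
      + Φ s (γ s p).re * (dt (dp γ) s p).im) ht
    ((hcomp hΦ.c).mul hZi)
    ((((hcomp hΦ.ct).add ((hcomp hΦ.cx).mul hVr)).mul hZi).add ((hcomp hΦ.c).mul hZti))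
    (fun s hs p _ => (hΦ.chain s hs _ _ (hasDerivAt_re (H.sm.hasDerivAt_t hs p))).mul
      (hasDerivAt_im (H.sm.dp.hasDerivAt_t hs p)))
  refine hmain.congr_deriv ?_
  -- integration by parts
  set G : ℝ → ℝ := fun p => Φ t (γ t p).re * (dt γ t p).im - Φx t (γ t p).re * th c γ t p with hG
  set G' : ℝ → ℝ := fun p => (Φx t (γ t p).re * (dp γ t p).re * (dt γ t p).im
      + Φ t (γ t p).re * (dp (dt γ) t p).im)
      - (Φxx t (γ t p).re * (dp γ t p).re * th c γ t p + Φx t (γ t p).re * thp γ t p) with hG'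
  have hGd : ∀ p ∈ Icc (0:ℝ) 1, HasDerivAt G (G' p) p := by
    intro p hp
    have dx := hasDerivAt_re (H.sm.hasDerivAt_p ht p)
    have d1 := (hΦ.dx t ht (γ t p).re).comp p dx
    have d2 := (hΦ.dxx t ht (γ t p).re).comp p dx
    have d3 := hasDerivAt_im (H.sm.dt.hasDerivAt_p ht p)
    have d4 := hasDerivAt_th_p (c := c) H.sm ht (hpos p hp)
    exact (d1.mul d3).sub (d2.mul d4)
  have hu : uIcc (0:ℝ) 1 = Icc 0 1 := uIcc_of_le zero_le_one
  have hthc : ContinuousOn (th c γ t) (Icc 0 1) := fun p hp =>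
    (hasDerivAt_th_p H.sm ht (hpos p hp)).continuousAt.continuousWithinAt
  have hthpc : ContinuousOn (thp γ t) (Icc 0 1) := fun p hp =>
    (hasDerivAt_thp H.sm ht (H.reg t ht p hp)).continuousAt.continuousWithinAt
  have cre : Continuous (fun p => (γ t p).re) := Complex.continuous_re.comp (H.sm.continuous_p ht)
  have cZr : Continuous (fun p => (dp γ t p).re) :=
    Complex.continuous_re.comp (H.sm.dp.continuous_p ht)
  have cZi : Continuous (fun p => (dp γ t p).im) :=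
    Complex.continuous_im.comp (H.sm.dp.continuous_p ht)
  have cVi : Continuous (fun p => (dt γ t p).im) :=
    Complex.continuous_im.comp (H.sm.dt.continuous_p ht)
  have cVpi : Continuous (fun p => (dp (dt γ) t p).im) :=
    Complex.continuous_im.comp (H.sm.dt.dp.continuous_p ht)
  have cΦ : Continuous (fun p => Φ t (γ t p).re) := (slice_cont hΦ.c ht).comp cre
  have cΦt : Continuous (fun p => Φt t (γ t p).re) := (slice_cont hΦ.ct ht).comp cre
  have cΦx : Continuous (fun p => Φx t (γ t p).re) := (slice_cont hΦ.cx ht).comp cre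
  have cΦxx : Continuous (fun p => Φxx t (γ t p).re) := (slice_cont hΦ.cxx ht).comp cre
  have hGc : ContinuousOn G' (Icc 0 1) :=
    ((cΦx.mul cZr).mul cVi |>.add (cΦ.mul cVpi)).continuousOn.sub
      (((cΦxx.mul cZr).continuousOn.mul hthc).add (cΦx.continuousOn.mul hthpc))
  have hGint : ∫ p in (0:ℝ)..1, G' p = G 1 - G 0 := by
    apply intervalIntegral.integral_eq_sub_of_hasDerivAt
    · rw [hu]; exact hGd
    · exact (hu ▸ hGc : ContinuousOn G' (uIcc 0 1)).intervalIntegrable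
  have hRc : ContinuousOn (fun p => Φt t (γ t p).re * (dp γ t p).im +
            Φxx t (γ t p).re * (th c γ t p * (dp γ t p).re)) (Icc 0 1) :=
    (cΦt.mul cZi).continuousOn.add (cΦxx.continuousOn.mul (hthc.mul cZr.continuousOn))
  have hGc' : ContinuousOn G' (uIcc 0 1) := by rw [hu]; exact hGc
  have hRc' : ContinuousOn (fun p => Φt t (γ t p).re * (dp γ t p).im +
            Φxx t (γ t p).re * (th c γ t p * (dp γ t p).re)) (uIcc 0 1) := by rw [hu]; exact hRc
  rw [← hGint, ← intervalIntegral.integral_add hGc'.intervalIntegrable hRc'.intervalIntegrable]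
  apply intervalIntegral.integral_congr
  rw [hu]
  intro p hp
  have hx := H.cross ht hp
  simp only [hG']
  rw [H.sm.comm ht p, ← hx]
  ring

/-! ## The three test functions -/

lemma test_x (T : ℝ) : Test T (fun _ x => x) (fun _ _ => 0) (fun _ _ => 1) (fun _ _ => 0) where
  c := continuousOn_snd
  ct := continuousOn_const
  cx := continuousOn_const
  cxx := continuousOn_const
  chain := fun t _ x x' hx => hx.congr_deriv (by ring)
  dx := fun t _ x => hasDerivAt_id' x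
  dxx := fun t _ x => hasDerivAt_const x 1

lemma test_xx (T : ℝ) : Test T (fun _ x => x ^ 2 / 2) (fun _ _ => 0) (fun _ x => x)
    (fun _ _ => 1) where
  c := by fun_prop
  ct := continuousOn_const
  cx := continuousOn_snd
  cxx := continuousOn_const
  chain := fun t _ x x' hx => ((hx.pow 2).div_const 2).congr_deriv (by simp; ring)
  dx := fun t _ x => (((hasDerivAt_id' x).pow 2).div_const 2).congr_deriv (by simp)
  dxx := fun t _ x => hasDerivAt_id' x

/-- the Gaussian weight `r^{-1-δ} exp(-βx²/(2r²))`, `r² = 2(T-t)` -/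
noncomputable def Gs (T κ β t x : ℝ) : ℝ :=
  Real.exp (-(κ * Real.log (2 * (T - t))) - β * x ^ 2 / (4 * (T - t)))

noncomputable def Gst (T κ β t x : ℝ) : ℝ :=
  Gs T κ β t x * (κ / (T - t) - β * x ^ 2 / (4 * (T - t) ^ 2))

noncomputable def Gsx (T κ β t x : ℝ) : ℝ := Gs T κ β t x * (-(β * x / (2 * (T - t))))

noncomputable def Gsxx (T κ β t x : ℝ) : ℝ :=
  Gs T κ β t x * ((β * x / (2 * (T - t))) ^ 2 - β / (2 * (T - t)))

lemma test_gauss (T κ β : ℝ) : Test T (Gs T κ β) (Gst T κ β) (Gsx T κ β) (Gsxx T κ β) := by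
  have hne : ∀ q ∈ Ioo 0 T ×ˢ (univ : Set ℝ), T - q.1 ≠ 0 := by
    rintro q ⟨hq, -⟩
    have := hq.2
    exact (by linarith : 0 < T - q.1).ne'
  have hne2 : ∀ q ∈ Ioo 0 T ×ˢ (univ : Set ℝ), 2 * (T - q.1) ≠ 0 := fun q hq =>
    mul_ne_zero two_ne_zero (hne q hq)
  have hne4 : ∀ q ∈ Ioo 0 T ×ˢ (univ : Set ℝ), 4 * (T - q.1) ≠ 0 := fun q hq =>
    mul_ne_zero four_ne_zero (hne q hq)
  have hne5 : ∀ q ∈ Ioo 0 T ×ˢ (univ : Set ℝ), 4 * (T - q.1) ^ 2 ≠ 0 := fun q hq =>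
    mul_ne_zero four_ne_zero (pow_ne_zero 2 (hne q hq))
  have c0 : ContinuousOn (fun q : ℝ × ℝ => T - q.1) (Ioo 0 T ×ˢ univ) := by fun_prop
  have c2 : ContinuousOn (fun q : ℝ × ℝ => 2 * (T - q.1)) (Ioo 0 T ×ˢ univ) := by fun_prop
  have c4 : ContinuousOn (fun q : ℝ × ℝ => 4 * (T - q.1)) (Ioo 0 T ×ˢ univ) := by fun_prop
  have c5 : ContinuousOn (fun q : ℝ × ℝ => 4 * (T - q.1) ^ 2) (Ioo 0 T ×ˢ univ) := by fun_prop
  have cx : ContinuousOn (fun q : ℝ × ℝ => β * q.2) (Ioo 0 T ×ˢ univ) := by fun_prop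
  have cx2 : ContinuousOn (fun q : ℝ × ℝ => β * q.2 ^ 2) (Ioo 0 T ×ˢ univ) := by fun_prop
  have cG : ContinuousOn (fun q : ℝ × ℝ => Gs T κ β q.1 q.2) (Ioo 0 T ×ˢ univ) :=
    Real.continuous_exp.comp_continuousOn
      (((continuousOn_const.mul (c2.log hne2)).neg).sub (cx2.div c4 hne4))
  refine ⟨cG, ?_, ?_, ?_, ?_, ?_, ?_⟩
  · exact cG.mul ((continuousOn_const.div c0 hne).sub (cx2.div c5 hne5))
  · exact cG.mul (cx.div c2 hne2).neg
  · exact cG.mul (((cx.div c2 hne2).pow 2).sub (continuousOn_const.div c2 hne2))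
  · intro t ht x x' hx
    have hT : 0 < T - t := by have := ht.2; linarith
    have d0 : HasDerivAt (fun s : ℝ => T - s) (-1) t :=
      ((hasDerivAt_const t T).sub (hasDerivAt_id' t)).congr_deriv (by ring)
    have d1 : HasDerivAt (fun s : ℝ => 2 * (T - s)) (2 * (-1)) t := d0.const_mul 2
    have d2 : HasDerivAt (fun s : ℝ => 4 * (T - s)) (4 * (-1)) t := d0.const_mul 4
    have d3 : HasDerivAt (fun s : ℝ => -(κ * Real.log (2 * (T - s))))
      (-(κ * ((2 * (-1)) / (2 * (T - t))))) t := ((d1.log (by positivity)).const_mul κ).neg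
    have dx2 : HasDerivAt (fun s => x s ^ 2) (2 * x t * x') t :=
      (hx.pow 2).congr_deriv (by simp)
    have d4 : HasDerivAt (fun s => β * x s ^ 2 / (4 * (T - s)))
      ((β * (2 * x t * x') * (4 * (T - t)) - β * x t ^ 2 * (4 * (-1))) / (4 * (T - t)) ^ 2) t :=
      (dx2.const_mul β).div d2 (by positivity)
    have d5 : HasDerivAt (fun s => Real.exp (-(κ * Real.log (2 * (T - s))) -
        β * x s ^ 2 / (4 * (T - s)))) (Real.exp (-(κ * Real.log (2 * (T - t))) -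
        β * x t ^ 2 / (4 * (T - t))) * (-(κ * ((2 * (-1)) / (2 * (T - t)))) -
        (β * (2 * x t * x') * (4 * (T - t)) - β * x t ^ 2 * (4 * (-1))) / (4 * (T - t)) ^ 2)) t :=
      (d3.sub d4).exp
    refine HasDerivAt.congr_deriv (f := fun s => Gs T κ β s (x s)) d5 ?_
    simp only [Gst, Gsx, Gs]
    field_simp
    ring
  · intro t ht x
    have hT : 0 < T - t := by have := ht.2; linarith
    have dx2 : HasDerivAt (fun s : ℝ => s ^ 2) (2 * x) x :=
      ((hasDerivAt_id' x).pow 2).congr_deriv (by simp)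
    have d4 : HasDerivAt (fun s : ℝ => β * s ^ 2 / (4 * (T - t))) (β * (2 * x) / (4 * (T - t))) x :=
      (dx2.const_mul β).div_const (4 * (T - t))
    have d5 : HasDerivAt (fun s => Real.exp (-(κ * Real.log (2 * (T - t))) -
        β * s ^ 2 / (4 * (T - t)))) (Real.exp (-(κ * Real.log (2 * (T - t))) -
        β * x ^ 2 / (4 * (T - t))) * (-(β * (2 * x) / (4 * (T - t))))) x :=
      (d4.const_sub (-(κ * Real.log (2 * (T - t))))).exp
    refine HasDerivAt.congr_deriv (f := Gs T κ β t) d5 ?_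
    simp only [Gsx, Gs]
    field_simp
    ring
  · intro t ht x
    have hT : 0 < T - t := by have := ht.2; linarith
    have dx2 : HasDerivAt (fun s : ℝ => s ^ 2) (2 * x) x :=
      ((hasDerivAt_id' x).pow 2).congr_deriv (by simp)
    have d4 : HasDerivAt (fun s : ℝ => β * s ^ 2 / (4 * (T - t))) (β * (2 * x) / (4 * (T - t))) x :=
      (dx2.const_mul β).div_const (4 * (T - t))
    have d5 : HasDerivAt (fun s => Real.exp (-(κ * Real.log (2 * (T - t))) -
        β * s ^ 2 / (4 * (T - t)))) (Real.exp (-(κ * Real.log (2 * (T - t))) -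
        β * x ^ 2 / (4 * (T - t))) * (-(β * (2 * x) / (4 * (T - t))))) x :=
      (d4.const_sub (-(κ * Real.log (2 * (T - t))))).exp
    have d6 : HasDerivAt (fun s : ℝ => -(β * s / (2 * (T - t)))) (-(β * 1 / (2 * (T - t)))) x :=
      (((hasDerivAt_id' x).const_mul β).div_const (2 * (T - t))).neg
    have d7 : HasDerivAt (Gsx T κ β t) (Real.exp (-(κ * Real.log (2 * (T - t))) -
        β * x ^ 2 / (4 * (T - t))) * (-(β * (2 * x) / (4 * (T - t)))) * (-(β * x / (2 * (T - t))))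
        + Real.exp (-(κ * Real.log (2 * (T - t))) -
        β * x ^ 2 / (4 * (T - t))) * (-(β * 1 / (2 * (T - t))))) x := d5.mul d6
    refine d7.congr_deriv ?_
    simp only [Gsxx, Gs]
    field_simp
    ring

end Run7.h661
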