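import Pool.Agent.Run7.h661.NetDefs

/-!
# The combinatorial type of the lens with two fingers

Eleven curves: the `bar` (from the junction `-b` to the junction `b` on the real axis), four `short`
curves, two `cap`s and four `arm`s. The first sign is that of the real part (`true` = right), the
second one that of the imaginary part (`true` = upper).
-/

open Set Filter Topology
open scoped ContDiff Real

namespace Run7.h661

/-- the eleven curves -/
inductive Arc : Type
  | bar : Arc
  | short : Bool → Bool → Arc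
  | cap : Bool → Arc
  | arm : Bool → Bool → Arc

/-- an enumeration of the arcs -/
def Arc.enum : Bool × Bool × Bool × Bool → Arc
  | (false, false, σ, τ) => .short σ τ
  | (false, true, σ, τ) => .arm σ τ
  | (true, false, _, τ) => .cap τ
  | (true, true, _, _) => .bar

instance Arc.instFinite : Finite Arc := by
  refine Finite.of_surjective Arc.enum ?_
  rintro (_ | ⟨σ, τ⟩ | τ | ⟨σ, τ⟩)
  · exact ⟨(true, true, true, true), rfl⟩
  · exact ⟨(false, false, σ, τ), rfl⟩
  · exact ⟨(true, false, true, τ), rfl⟩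
  · exact ⟨(false, true, σ, τ), rfl⟩

noncomputable instance Arc.instFintype : Fintype Arc := Fintype.ofFinite Arc

/-- The incidence relations: at the junction `a(σ,τ)` the curves `arm σ τ`, `short σ τ` and `cap τ`
meet, at the junction `b(σ)` the curves `short σ true`, `short σ false` and `bar` meet. -/
structure LensType (γ : Arc → ℝ → ℂ) : Prop where
  arm_short : ∀ σ τ, γ (.arm σ τ) 0 = γ (.short σ τ) 0
  cap_right : ∀ τ, γ (.cap τ) 0 = γ (.short true τ) 0
  cap_left : ∀ τ, γ (.cap τ) 1 = γ (.short false τ) 0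
  bar_right : ∀ τ, γ .bar 1 = γ (.short true τ) 1
  bar_left : ∀ τ, γ .bar 0 = γ (.short false τ) 1

/-- The network is symmetric with respect to both coordinate axes. -/
structure LensSymm (γ : Arc → ℝ → ℂ) : Prop where
  arm_x : ∀ τ, ∀ p ∈ Icc (0:ℝ) 1, γ (.arm false τ) p = -starRingEnd ℂ (γ (.arm true τ) p)
  arm_y : ∀ σ, ∀ p ∈ Icc (0:ℝ) 1, γ (.arm σ false) p = starRingEnd ℂ (γ (.arm σ true) p)
  short_x : ∀ τ, ∀ p ∈ Icc (0:ℝ) 1, γ (.short false τ) p = -starRingEnd ℂ (γ (.short true τ) p)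
  short_y : ∀ σ, ∀ p ∈ Icc (0:ℝ) 1, γ (.short σ false) p = starRingEnd ℂ (γ (.short σ true) p)
  cap_x : ∀ τ, ∀ p ∈ Icc (0:ℝ) 1, γ (.cap τ) (1 - p) = -starRingEnd ℂ (γ (.cap τ) p)
  cap_y : ∀ p ∈ Icc (0:ℝ) 1, γ (.cap false) p = starRingEnd ℂ (γ (.cap true) p)
  bar_x : ∀ p ∈ Icc (0:ℝ) 1, γ .bar (1 - p) = -starRingEnd ℂ (γ .bar p)
  bar_y : ∀ p ∈ Icc (0:ℝ) 1, γ .bar p = starRingEnd ℂ (γ .bar p)

/-- Conditions on the network at one time: on the right upper quarter the tangent directions lie in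
the sectors `[0,π/3]` (arm, from `a` to the end-point), `[2π/3,π]` (cap, from `a` to its mid-point)
and `[-2π/3,-π/3]` (short curve, from `a` to `b`); the cap satisfies `sin φ ≤ (√3/2) x`, where `φ` is
its angle with the horizontal; the junction `a` has real part at least `1`. -/
structure FingerState (γ : Arc → ℝ → ℂ) : Prop where
  b_pos : 0 < (γ .bar 1).re
  arm_dir : ∀ p ∈ Icc (0:ℝ) 1, (deriv (γ (.arm true true)) p).arg ∈ Icc 0 (π / 3)
  cap_dir : ∀ p ∈ Icc (0:ℝ) (1 / 2), (deriv (γ (.cap true)) p).arg ∈ Icc (2 * π / 3) π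
  short_dir : ∀ p ∈ Icc (0:ℝ) 1,
    (deriv (γ (.short true true)) p).arg ∈ Icc (-(2 * π / 3)) (-(π / 3))
  cap_flat : ∀ p ∈ Icc (0:ℝ) (1 / 2), (deriv (γ (.cap true)) p).im / ‖deriv (γ (.cap true)) p‖ ≤
    √3 / 2 * (γ (.cap true) p).re
  corner : 1 ≤ (γ (.cap true) 0).re

end Run7.h661
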