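import Pool.Agent.Run7.h661.Pack

/-!
# Multiplicity two for the symmetric network flow
-/

open Set Filter Topology MeasureTheory
open scoped ContDiff Real

namespace Run7.h661

lemma sec_of_arg {c : ℝ} {γ : ℝ → ℝ → ℂ} {t p : ℝ}
    (h : (dp γ t p).arg - c ∈ Icc 0 (π / 3)) : Sec c γ t p := by
  have hpi := Real.pi_pos
  set α := (dp γ t p).arg with hα
  have h3 : wv c γ t p = ‖dp γ t p‖ * Complex.exp ((α - c : ℝ) * Complex.I) := by
    rw [wv]
    conv_lhs => rw [← Complex.norm_mul_exp_arg_mul_I (dp γ t p), ← hα]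
    push_cast
    rw [sub_mul, sub_eq_add_neg, Complex.exp_add]
    ring
  have e1 : (wv c γ t p).re = ‖dp γ t p‖ * Real.cos (α - c) := by
    rw [h3, Complex.re_ofReal_mul, Complex.exp_ofReal_mul_I_re]
  have e2 : (wv c γ t p).im = ‖dp γ t p‖ * Real.sin (α - c) := by
    rw [h3, Complex.im_ofReal_mul, Complex.exp_ofReal_mul_I_im]
  have hn := norm_nonneg (dp γ t p)
  constructor
  · rw [e2]; exact mul_nonneg hn (sin_nonneg3 h.1 h.2)
  · have h4 : Real.sin (α - c - π / 3) ≤ 0 :=
      Real.sin_nonpos_of_nonpos_of_neg_pi_le (by linarith [h.2]) (by linarith [h.1])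
    rw [Real.sin_sub, Real.cos_pi_div_three, Real.sin_pi_div_three] at h4
    rw [e1, e2]
    have h5 : Real.sin (α - c) ≤ √3 * Real.cos (α - c) := by linarith
    have := mul_le_mul_of_nonneg_left h5 hn
    linarith

theorem multiplicity_two {Ω : Set ℂ} {T t0 R h : ℝ} {γ : Arc → ℝ → ℝ → ℂ}
    (F : IsNetworkFlow Ω T γ) (hL : ∀ t ∈ Ioo 0 T, LensType (fun i => γ i t))
    (hS : ∀ t ∈ Ioo 0 T, LensSymm (fun i => γ i t)) (ht0 : t0 ∈ Ioo 0 T) (hT : T - t0 = 1 / 2)
    (hR : 1000 ≤ R) (hh : h ≤ 1 / 10000)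
    (hP : ∀ t ∈ Ioo 0 T, γ (.arm true true) t 1 = (R : ℂ) + h * Complex.I)
    (hst : FingerState (fun i => γ i t0))
    (hlim : Tendsto (fun t => γ (.cap true) t (1 / 2)) (𝓝[<] T) (𝓝 0)) :
    ∃ (t : ℕ → ℝ) (S : ℝ), (∀ n, t n ∈ Ioo 0 T) ∧ Tendsto t atTop (𝓝 T) ∧
      ∀ s1 s2 : ℝ, S < s1 → s1 < s2 → ∀ τ : Bool,
        SubarcsConverge (fun n p => γ (.arm true τ) (t n) p / (√(2 * (T - t n)) : ℂ))
          (seg s1 s2) := by
  have hQ : QF T R h (quarter γ) := quarter_QF F hL hS ht0 hst.b_pos hP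
  have hsmc : Sm T (γ (.cap true)) := F.smooth _
  have hdp1 : ∀ p, dp (quarter γ 1) t0 p = (1 / 2 : ℝ) • deriv (γ (.cap true) t0) (p / 2) := by
    intro p
    have h2 : HasDerivAt (fun p : ℝ => p / 2) (1 / 2) p := (hasDerivAt_id' p).div_const 2
    exact (HasDerivAt.scomp p (hsmc.hasDerivAt_p ht0 (p / 2)) h2).deriv
  have hH : ∀ p ∈ Icc (0:ℝ) 1, p / 2 ∈ Icc (0:ℝ) (1 / 2) := fun p hp =>
    ⟨by linarith [hp.1], by linarith [hp.2]⟩
  have H : Hyp T t0 R h (quarter γ) := by
    refine ⟨hQ, ht0, by linarith, ?_, ?_, ?_, hR, hh, ?_⟩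
    · intro i p hp
      apply sec_of_arg
      fin_cases i
      · have := hst.short_dir p hp
        simp only [Fin.zero_eta, cang0, quarter0]
        have e : dp (γ (.short true true)) t0 p = deriv (γ (.short true true) t0) p := rfl
        rw [e]
        constructor <;> linarith [this.1, this.2]
      · have := hst.cap_dir (p / 2) (hH p hp)
        simp only [Fin.mk_one, cang1]
        rw [hdp1, Complex.real_smul, Complex.arg_real_mul _ (by norm_num)]
        constructor <;> linarith [this.1, this.2]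
      · have := hst.arm_dir p hp
        simp only [Fin.reduceFinMk, cang2, quarter2, sub_zero]
        exact this
    · intro p hp
      have h1 := hst.cap_flat (p / 2) (hH p hp)
      have h2 := (polar1 (g := quarter γ) t0 p).2
      have hn := hQ.norm_pos ht0 1 hp
      have h3 : Real.sin (π / 3 - th (cang 1) (quarter γ 1) t0 p) =
          (dp (quarter γ 1) t0 p).im / ‖dp (quarter γ 1) t0 p‖ := by
        rw [h2, mul_div_cancel_left₀ _ hn.ne']
      have h4 : (dp (quarter γ 1) t0 p).im / ‖dp (quarter γ 1) t0 p‖ =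
          (deriv (γ (.cap true) t0) (p / 2)).im / ‖deriv (γ (.cap true) t0) (p / 2)‖ := by
        rw [hdp1, norm_smul, Complex.real_smul, Complex.im_ofReal_mul, Real.norm_of_nonneg
          (by norm_num : (0:ℝ) ≤ 1 / 2), mul_div_mul_left _ _ (by norm_num)]
      rw [h3, h4]
      exact h1
    · have h1 := hst.corner
      have h2 := (hL t0 ht0).cap_right true
      have h3 : xa (quarter γ) t0 = (γ (.cap true) t0 0).re := by
        rw [xa, quarter0]
        exact congrArg Complex.re h2.symm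
      rw [h3]; exact h1
    · have h1 := (Complex.continuous_im.tendsto 0).comp hlim
      have h2 : yM (quarter γ) = Complex.im ∘ fun t => γ (.cap true) t (1 / 2) := by
        funext t; simp [yM, quarter1]
      rw [h2]
      simpa using h1
  obtain ⟨S, t, ht, htT, hconv⟩ := H.main
  have htI : ∀ n, t n ∈ Ioo 0 T := fun n => H.mem (ht n)
  refine ⟨t, S, htI, htT, fun s1 s2 h1 h2 τ => ?_⟩
  have hc := hconv s1 s2 h1 h2
  rw [quarter2] at hc
  have hd : ∀ i n p, DifferentiableAt ℝ (fun p => γ i (t n) p / (√(2 * (T - t n)) : ℂ)) p := by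
    intro i n p
    have : Sm T (γ i) := F.smooth _
    exact ((this.hasDerivAt_p (htI n) p).div_const _).differentiableAt
  cases τ
  · refine SubarcsConverge.conj (c := fun n p => γ (.arm true true) (t n) p / (rr T (t n) : ℂ))
      (fun n p _ => hd _ n p) (fun n p _ => hd _ n p) hc (fun n p hp => ?_)
    have := (hS (t n) (htI n)).arm_y true p hp
    have e : γ (.arm true false) (t n) p = starRingEnd ℂ (γ (.arm true true) (t n) p) := this
    simp only [rr]
    rw [e, map_div₀, Complex.conj_ofReal]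
  · exact hc

end Run7.h661
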