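import Mathlib

/-!
# Networks of plane curves moving by curvature, blow-ups

The plane is `ℂ`. A network consists of curves `σ i`, `i ∈ ι`, `ι` finite, parametrised by `[0,1]`.
The two ends of the curve `i` are `(i, false)` (parameter `0`) and `(i, true)` (parameter `1`).
-/

open Set Filter Topology
open scoped ContDiff

namespace Run7.h661

variable {ι : Type*} [Fintype ι]

/-- Unit tangent `c' / |c'|`. -/
noncomputable def utan (c : ℝ → ℂ) (p : ℝ) : ℂ := deriv c p / (‖deriv c p‖ : ℂ)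

/-- Signed curvature `⟨c'', i c'⟩ / |c'|³`. -/
noncomputable def curv (c : ℝ → ℂ) (p : ℝ) : ℝ :=
  (starRingEnd ℂ (deriv c p) * deriv (deriv c) p).im / ‖deriv c p‖ ^ 3

/-- The component of the vector `v` along the unit normal `i c' / |c'|` of the curve `c` at `p`. -/
noncomputable def normalPart (c : ℝ → ℂ) (p : ℝ) (v : ℂ) : ℝ :=
  (starRingEnd ℂ (deriv c p) * v).im / ‖deriv c p‖

/-- The point at which the curve end `e` sits. -/
def endpt (σ : ι → ℝ → ℂ) (e : ι × Bool) : ℂ := σ e.1 (cond e.2 1 0)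

/-- The unit tangent at the end `e`, pointing from the end into the curve. -/
noncomputable def endTan (σ : ι → ℝ → ℂ) (e : ι × Bool) : ℂ :=
  cond e.2 (-utan (σ e.1) 1) (utan (σ e.1) 0)

/-- All curve ends which sit at the same point as the end `e`. -/
noncomputable def endsAt (σ : ι → ℝ → ℂ) (e : ι × Bool) : Finset (ι × Bool) :=
  open Classical in Finset.univ.filter (fun e' => endpt σ e' = endpt σ e)

/-- The curves `σ i`, `i ∈ ι`, form a regular network in the closure of the open set `Ω`. -/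
structure IsRegularNetwork (Ω : Set ℂ) (σ : ι → ℝ → ℂ) : Prop where
  contDiff : ∀ i, ContDiffOn ℝ 2 (σ i) (Icc 0 1)
  regular : ∀ i, ∀ p ∈ Icc (0:ℝ) 1, deriv (σ i) p ≠ 0
  embedded : ∀ i, InjOn (σ i) (Icc 0 1)
  mem_closure : ∀ i, ∀ p ∈ Icc (0:ℝ) 1, σ i p ∈ closure Ω
  connected : IsConnected (⋃ i, σ i '' Icc 0 1)
  /-- distinct curves meet only at their ends -/
  meet : ∀ i j, i ≠ j → ∀ p ∈ Icc (0:ℝ) 1, ∀ q ∈ Icc (0:ℝ) 1, σ i p = σ j q →
    (p = 0 ∨ p = 1) ∧ (q = 0 ∨ q = 1)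
  /-- every curve end is a triple junction in `Ω`, or is the only curve end at a point of `∂Ω` -/
  ends : ∀ e : ι × Bool, (endpt σ e ∈ Ω ∧ (endsAt σ e).card = 3) ∨
    (endpt σ e ∈ frontier Ω ∧ (endsAt σ e).card = 1)
  /-- the three unit tangents at a triple junction sum to zero (angles of 120 degrees) -/
  angles : ∀ e : ι × Bool, endpt σ e ∈ Ω → ∑ e' ∈ endsAt σ e, endTan σ e' = 0

/-- `γ i t p`, `t ∈ (0,T)`, `p ∈ [0,1]`, is a smooth curvature flow of regular networks with fixed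
end-points. (The curves are given with smooth extensions to all real parameters `p`; only
`p ∈ [0,1]` matters.) -/
structure IsNetworkFlow (Ω : Set ℂ) (T : ℝ) (γ : ι → ℝ → ℝ → ℂ) : Prop where
  smooth : ∀ i, ContDiffOn ℝ ∞ (fun q : ℝ × ℝ => γ i q.1 q.2) (Ioo 0 T ×ˢ univ)
  network : ∀ t ∈ Ioo 0 T, IsRegularNetwork Ω (fun i => γ i t)
  /-- the end-points on `∂Ω` are fixed -/
  fixed : ∀ e : ι × Bool, ∀ s ∈ Ioo 0 T, ∀ t ∈ Ioo 0 T,
    endpt (fun i => γ i s) e ∈ frontier Ω → endpt (fun i => γ i t) e = endpt (fun i => γ i s) e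
  /-- the normal velocity is the curvature -/
  motion : ∀ i, ∀ t ∈ Ioo 0 T, ∀ p ∈ Icc (0:ℝ) 1,
    normalPart (γ i t) p (deriv (fun s => γ i s p) t) = curv (γ i t) p

end Run7.h661
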