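import Pool.Agent.Run7.h661.Concl
import Pool.Agent.Run7.h661.Lens

/-!
# From the symmetric network flow to its quarter
-/

open Set Filter Topology MeasureTheory
open scoped ContDiff Real

namespace Run7.h661

deriving instance DecidableEq for Arc

/-- the three edges of the quarter -/
noncomputable def quarter (γ : Arc → ℝ → ℝ → ℂ) : Fin 3 → ℝ → ℝ → ℂ :=
  ![γ (.short true true), fun t p => γ (.cap true) t (p / 2), γ (.arm true true)]

lemma quarter0 (γ : Arc → ℝ → ℝ → ℂ) : quarter γ 0 = γ (.short true true) := rfl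
lemma quarter1 (γ : Arc → ℝ → ℝ → ℂ) : quarter γ 1 = fun t p => γ (.cap true) t (p / 2) := rfl
lemma quarter2 (γ : Arc → ℝ → ℝ → ℂ) : quarter γ 2 = γ (.arm true true) := rfl

lemma edgeFlow_of_motion {T : ℝ} {γ : ℝ → ℝ → ℂ} (hsm : Sm T γ)
    (hreg : ∀ t ∈ Ioo 0 T, ∀ p ∈ Icc (0:ℝ) 1, deriv (γ t) p ≠ 0)
    (hmot : ∀ t ∈ Ioo 0 T, ∀ p ∈ Icc (0:ℝ) 1,
      normalPart (γ t) p (deriv (fun s => γ s p) t) = curv (γ t) p) : EdgeFlow T γ := by
  refine ⟨hsm, hreg, fun t ht p hp => ?_⟩
  have h1 := hmot t ht p hp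
  have hz := hreg t ht p hp
  have hn : 0 < ‖deriv (γ t) p‖ := norm_pos_iff.2 hz
  have hdd : deriv (deriv (γ t)) p = dp (dp γ) t p := rfl
  have hdt : deriv (fun s => γ s p) t = dt γ t p := rfl
  have hdp : deriv (γ t) p = dp γ t p := rfl
  rw [normalPart, curv, hdd, hdt, hdp] at h1
  rw [hdp] at hn hz
  have e1 : ∀ w : ℂ, (w / dp γ t p).im = (starRingEnd ℂ (dp γ t p) * w).im / ‖dp γ t p‖ ^ 2 := by
    intro w
    rw [Complex.div_im, Complex.normSq_eq_norm_sq]
    simp only [Complex.mul_im, Complex.conj_re, Complex.conj_im]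
    field_simp
    ring
  rw [e1, e1, Complex.normSq_eq_norm_sq]
  rw [div_eq_div_iff hn.ne' (by positivity)] at h1
  field_simp
  have h2 : (starRingEnd ℂ (dp γ t p) * dt γ t p).im * ‖dp γ t p‖ ^ 2 =
      (starRingEnd ℂ (dp γ t p) * dp (dp γ) t p).im := by
    have : (‖dp γ t p‖) * ((starRingEnd ℂ (dp γ t p) * dt γ t p).im * ‖dp γ t p‖ ^ 2) =
      ‖dp γ t p‖ * (starRingEnd ℂ (dp γ t p) * dp (dp γ) t p).im := by linarith
    exact mul_left_cancel₀ hn.ne' this
  linarith

/-- reparametrisation by a factor -/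
lemma edgeFlow_half {T : ℝ} {γ : ℝ → ℝ → ℂ} (H : EdgeFlow T γ) :
    EdgeFlow T (fun t p => γ t (p / 2)) := by
  have hsm : Sm T (fun t p => γ t (p / 2)) := by
    have h1 : ContDiffOn ℝ ∞ (fun q : ℝ × ℝ => (q.1, q.2 / 2)) (Ioo 0 T ×ˢ univ) := by
      apply ContDiff.contDiffOn; fun_prop
    exact ContDiffOn.comp (g := fun q : ℝ × ℝ => γ q.1 q.2) (t := Ioo 0 T ×ˢ univ) H.sm h1
      (fun q hq => ⟨hq.1, mem_univ _⟩)
  have hI : ∀ p ∈ Icc (0:ℝ) 1, p / 2 ∈ Icc (0:ℝ) 1 := fun p hp =>
    ⟨by linarith [hp.1], by linarith [hp.2]⟩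
  have e1 : ∀ t ∈ Ioo 0 T, ∀ p, dp (fun t p => γ t (p / 2)) t p = dp γ t (p / 2) * (1 / 2) := by
    intro t ht p
    have h1 : HasDerivAt (fun p : ℝ => p / 2) (1 / 2) p := (hasDerivAt_id' p).div_const 2
    have h2 := HasDerivAt.scomp p (H.sm.hasDerivAt_p ht (p / 2)) h1
    have h3 : dp (fun t p => γ t (p / 2)) t p = (1 / 2 : ℝ) • dp γ t (p / 2) := h2.deriv
    rw [h3, Complex.real_smul]; push_cast; ring
  have e2 : ∀ t ∈ Ioo 0 T, ∀ p, dp (dp (fun t p => γ t (p / 2))) t p =
      dp (dp γ) t (p / 2) * (1 / 4) := by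
    intro t ht p
    have h0 : dp (fun t p => γ t (p / 2)) t = fun p => dp γ t (p / 2) * (1 / 2) := by
      funext q; exact e1 t ht q
    have h1 : HasDerivAt (fun p : ℝ => p / 2) (1 / 2) p := (hasDerivAt_id' p).div_const 2
    have h2 := (HasDerivAt.scomp p (H.sm.dp.hasDerivAt_p ht (p / 2)) h1).mul_const (1 / 2 : ℂ)
    have h3 : dp (dp (fun t p => γ t (p / 2))) t p =
        ((1 / 2 : ℝ) • dp (dp γ) t (p / 2)) * (1 / 2) := by
      have h4 : dp (dp (fun t p => γ t (p / 2))) t p =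
        deriv (dp (fun t p => γ t (p / 2)) t) p := rfl
      rw [h4, h0]
      exact h2.deriv
    rw [h3, Complex.real_smul]; push_cast; ring
  refine ⟨hsm, fun t ht p hp => ?_, fun t ht p hp => ?_⟩
  · rw [e1 t ht]
    exact mul_ne_zero (H.reg t ht _ (hI p hp)) (by norm_num)
  · have h1 := H.flow t ht _ (hI p hp)
    have h2 : dt (fun t p => γ t (p / 2)) t p = dt γ t (p / 2) := rfl
    have hz := H.reg t ht _ (hI p hp)
    rw [e1 t ht, e2 t ht, h2]
    have a1 : dt γ t (p / 2) / (dp γ t (p / 2) * (1 / 2)) =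
      ((2 : ℝ) : ℂ) * (dt γ t (p / 2) / dp γ t (p / 2)) := by
      push_cast; field_simp
    have a2 : dp (dp γ) t (p / 2) * (1 / 4) / (dp γ t (p / 2) * (1 / 2)) =
      ((1 / 2 : ℝ) : ℂ) * (dp (dp γ) t (p / 2) / dp γ t (p / 2)) := by
      push_cast; field_simp; norm_num
    have a3 : Complex.normSq (dp γ t (p / 2) * (1 / 2)) =
        Complex.normSq (dp γ t (p / 2)) * (1 / 4) := by
      rw [Complex.normSq_mul]
      congr 1
      simp
      norm_num
    rw [a1, a2, a3, Complex.im_ofReal_mul, Complex.im_ofReal_mul, h1]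
    have hn : Complex.normSq (dp γ t (p / 2)) ≠ 0 := by
      rw [ne_eq, Complex.normSq_eq_zero]; exact hz
    field_simp
    norm_num
    ring

section
variable {Ω : Set ℂ} {T : ℝ} {γ : Arc → ℝ → ℝ → ℂ}

/-- the tangent condition at a triple junction with known incidence -/
lemma triple_sum {σ : Arc → ℝ → ℂ} (hN : IsRegularNetwork Ω σ) {e1 e2 e3 : Arc × Bool}
    (h12 : e1 ≠ e2) (h13 : e1 ≠ e3) (h23 : e2 ≠ e3) (h2 : endpt σ e2 = endpt σ e1)
    (h3 : endpt σ e3 = endpt σ e1) : endTan σ e1 + endTan σ e2 + endTan σ e3 = 0 := by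
  classical
  have hsub : ({e1, e2, e3} : Finset (Arc × Bool)) ⊆ endsAt σ e1 := by
    intro e he
    simp only [Finset.mem_insert, Finset.mem_singleton] at he
    simp only [endsAt, Finset.mem_filter, Finset.mem_univ, true_and]
    rcases he with rfl | rfl | rfl
    · rfl
    · exact h2
    · exact h3
  have hcard : ({e1, e2, e3} : Finset (Arc × Bool)).card = 3 :=
    Finset.card_eq_three.2 ⟨e1, e2, e3, h12, h13, h23, rfl⟩
  rcases hN.ends e1 with ⟨hΩ, hc⟩ | ⟨-, hc⟩
  · have heq : ({e1, e2, e3} : Finset (Arc × Bool)) = endsAt σ e1 :=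
      Finset.eq_of_subset_of_card_le hsub (by rw [hc, hcard])
    have := hN.angles e1 hΩ
    rw [← heq, Finset.sum_insert (by simp [h12, h13]), Finset.sum_insert (by simp [h23]),
      Finset.sum_singleton] at this
    rw [add_assoc]; exact this
  · exfalso
    have := Finset.card_le_card hsub
    rw [hc, hcard] at this
    omega

lemma deriv_eq_of_eqOn {f g : ℝ → ℂ} {p : ℝ} (hp : p ∈ Icc (0:ℝ) 1)
    (hf : DifferentiableAt ℝ f p) (hg : DifferentiableAt ℝ g p)
    (h : ∀ q ∈ Icc (0:ℝ) 1, f q = g q) : deriv f p = deriv g p := by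
  have hu := uniqueDiffOn_Icc (zero_lt_one' ℝ) p hp
  rw [← hf.derivWithin hu, ← hg.derivWithin hu]
  exact derivWithin_congr h (h p hp)

lemma utan_conj_eq {f g : ℝ → ℂ} {p : ℝ} (h : deriv f p = starRingEnd ℂ (deriv g p)) :
    utan f p = starRingEnd ℂ (utan g p) := by
  rw [utan, utan, h, map_div₀, RCLike.norm_conj, Complex.conj_ofReal]

theorem quarter_QF (F : IsNetworkFlow Ω T γ) (hL : ∀ t ∈ Ioo 0 T, LensType (fun i => γ i t))
    (hS : ∀ t ∈ Ioo 0 T, LensSymm (fun i => γ i t)) {t0 R h : ℝ} (ht0 : t0 ∈ Ioo 0 T)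
    (hb : 0 < (γ .bar t0 1).re)
    (hP : ∀ t ∈ Ioo 0 T, γ (.arm true true) t 1 = (R : ℂ) + h * Complex.I) :
    QF T R h (quarter γ) := by
  have hsm : ∀ i, Sm T (γ i) := F.smooth
  have hE : ∀ i, EdgeFlow T (γ i) := fun i =>
    edgeFlow_of_motion (hsm i) (fun t ht p hp => (F.network t ht).regular i p hp) (F.motion i)
  have hd : ∀ i, ∀ t ∈ Ioo 0 T, ∀ p, HasDerivAt (γ i t) (deriv (γ i t) p) p := fun i t ht p =>
    (hsm i).hasDerivAt_p ht p
  have hconjd : ∀ i, ∀ t ∈ Ioo 0 T, ∀ p,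
      HasDerivAt (fun q => starRingEnd ℂ (γ i t q)) (starRingEnd ℂ (deriv (γ i t) p)) p :=
    fun i t ht p => (Complex.conjCLE.toContinuousLinearMap.hasFDerivAt.comp_hasDerivAt p
      (hd i t ht p))
  have half_mem : (1 / 2 : ℝ) ∈ Icc (0:ℝ) 1 := by constructor <;> norm_num
  -- b is real
  have hbreal : ∀ t ∈ Ioo 0 T, ∀ p ∈ Icc (0:ℝ) 1, (γ .bar t p).im = 0 := by
    intro t ht p hp
    have := congrArg Complex.im ((hS t ht).bar_y p hp)
    simp only [Complex.conj_im] at this
    linarith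
  have hb0 : ∀ t ∈ Ioo 0 T, (γ .bar t 0).re = -(γ .bar t 1).re := by
    intro t ht
    have := congrArg Complex.re ((hS t ht).bar_x 1 one_mem_I)
    simpa using this
  have hbne : ∀ t ∈ Ioo 0 T, (γ .bar t 1).re ≠ 0 := by
    intro t ht h0
    have h1 : γ .bar t 0 = γ .bar t 1 := by
      apply Complex.ext
      · rw [hb0 t ht, h0, neg_zero]
      · rw [hbreal t ht 0 zero_mem_I, hbreal t ht 1 one_mem_I]
    have := (F.network t ht).embedded .bar zero_mem_I one_mem_I h1
    exact zero_ne_one this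
  have hbpos : ∀ t ∈ Ioo 0 T, 0 < (γ .bar t 1).re := by
    intro t ht
    by_contra hcon
    push Not at hcon
    have hc : ContinuousOn (fun s => (γ .bar s 1).re) (Ioo 0 T) := fun s hs =>
      (Complex.continuous_re.continuousAt.comp
        ((hsm .bar).continuousAt_t hs 1)).continuousWithinAt
    have := isPreconnected_Ioo.intermediate_value ht ht0 hc
    obtain ⟨s, hs, hs0⟩ := this ⟨hcon, hb.le⟩
    exact hbne s hs hs0
  have hbar' : ∀ t ∈ Ioo 0 T, deriv (γ .bar t) 1 = ((deriv (γ .bar t) 1).re : ℂ) ∧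
      0 < (deriv (γ .bar t) 1).re := by
    intro t ht
    have him : ∀ p ∈ Icc (0:ℝ) 1, (deriv (γ .bar t) p).im = 0 := by
      intro p hp
      have h1 := deriv_eq_of_eqOn hp (hd .bar t ht p).differentiableAt
        (hconjd .bar t ht p).differentiableAt (fun q hq => (hS t ht).bar_y q hq)
      rw [(hconjd .bar t ht p).deriv] at h1
      have := congrArg Complex.im h1
      simp only [Complex.conj_im] at this
      linarith
    refine ⟨Complex.ext (by simp) (by simpa using him 1 one_mem_I), ?_⟩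
    have hne : ∀ p ∈ Icc (0:ℝ) 1, (deriv (γ .bar t) p).re ≠ 0 := by
      intro p hp h0
      exact (F.network t ht).regular .bar p hp (Complex.ext h0 (him p hp))
    have hre : ∀ p, HasDerivAt (fun q => (γ .bar t q).re) (deriv (γ .bar t) p).re p :=
      fun p => hasDerivAt_re (hd .bar t ht p)
    obtain ⟨ξ, hξ, hξ2⟩ := exists_hasDerivAt_eq_slope (fun q => (γ .bar t q).re)
      (fun q => (deriv (γ .bar t) q).re) (zero_lt_one' ℝ)
      (fun q _ => (hre q).continuousAt.continuousWithinAt) (fun q _ => hre q)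
    have hξpos : 0 < (deriv (γ .bar t) ξ).re := by
      rw [hξ2, hb0 t ht]
      have := hbpos t ht
      simp only [sub_zero, div_one]
      linarith
    by_contra hcon
    push Not at hcon
    have hξI : ξ ∈ Icc (0:ℝ) 1 := ⟨hξ.1.le, hξ.2.le⟩
    have hc : ContinuousOn (fun q => (deriv (γ .bar t) q).re) (Icc 0 1) :=
      (Complex.continuous_re.comp ((hsm .bar).dp.continuous_p ht)).continuousOn
    obtain ⟨q, hq, hq0⟩ := isPreconnected_Icc.intermediate_value one_mem_I hξI hc ⟨hcon, hξpos.le⟩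
    exact hne q hq hq0
  refine ⟨?_, ?_, ?_, ?_, ?_, ?_, ?_, ?_⟩
  · intro i
    fin_cases i
    · exact hE _
    · exact edgeFlow_half (hE _)
    · exact hE _
  · intro t ht
    have e0 : quarter γ 0 t 0 = γ (.short true true) t 0 := rfl
    have e1 : quarter γ 1 t 0 = γ (.short true true) t 0 := by
      rw [quarter1]; simp only [zero_div]; exact (hL t ht).cap_right true
    have e2 : quarter γ 2 t 0 = γ (.short true true) t 0 := (hL t ht).arm_short true true
    intro i j
    fin_cases i <;> fin_cases j <;> simp only [Fin.zero_eta, Fin.mk_one, Fin.reduceFinMk,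
      e0, e1, e2]
  · intro t ht
    have h1 := triple_sum (F.network t ht) (e1 := (.short true true, false))
      (e2 := (.cap true, false)) (e3 := (.arm true true, false)) (by decide) (by decide)
      (by decide) ((hL t ht).cap_right true) ((hL t ht).arm_short true true)
    simp only [endTan, cond_false] at h1
    rw [Fin.sum_univ_three]
    have e1 : dp (quarter γ 1) t 0 / (‖dp (quarter γ 1) t 0‖ : ℂ) = utan (γ (.cap true) t) 0 := by
      have h2 : HasDerivAt (fun p : ℝ => p / 2) (1 / 2) 0 := (hasDerivAt_id' (0:ℝ)).div_const 2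
      have h0 : HasDerivAt (γ (.cap true) t) (deriv (γ (.cap true) t) 0) (0 / 2) := by
        rw [zero_div]; exact hd (.cap true) t ht 0
      have h3 : dp (quarter γ 1) t 0 = (1 / 2 : ℝ) • deriv (γ (.cap true) t) 0 :=
        (HasDerivAt.scomp (0:ℝ) h0 h2).deriv
      rw [h3, utan, norm_smul, Complex.real_smul]
      have hn : (‖deriv (γ (.cap true) t) 0‖ : ℂ) ≠ 0 := by
        rw [ne_eq, Complex.ofReal_eq_zero, norm_eq_zero]
        exact (F.network t ht).regular _ 0 zero_mem_I
      rw [Real.norm_of_nonneg (by norm_num : (0:ℝ) ≤ 1 / 2)]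
      push_cast
      field_simp
    rw [e1]
    exact h1
  · intro t ht
    have h1 := (hL t ht).bar_right true
    have h2 := hbreal t ht 1 one_mem_I
    have h3 : γ .bar t 1 = γ (.short true true) t 1 := h1
    rw [quarter0, ← h3]
    exact h2
  · intro t ht
    have h1 := triple_sum (F.network t ht) (e1 := (.bar, true))
      (e2 := (.short true true, true)) (e3 := (.short true false, true)) (by decide) (by decide)
      (by decide) ((hL t ht).bar_right true).symm ((hL t ht).bar_right false).symm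
    simp only [endTan, cond_true] at h1
    have hu1 : utan (γ .bar t) 1 = 1 := by
      obtain ⟨k1, k2⟩ := hbar' t ht
      rw [utan, k1, Complex.norm_real, Real.norm_of_nonneg k2.le]
      exact div_self (by exact_mod_cast k2.ne')
    have hu2 : utan (γ (.short true false) t) 1 = starRingEnd ℂ (utan (γ (.short true true) t) 1) := by
      apply utan_conj_eq
      rw [deriv_eq_of_eqOn one_mem_I (hd _ t ht 1).differentiableAt
        (hconjd (.short true true) t ht 1).differentiableAt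
        (fun q hq => (hS t ht).short_y true q hq), (hconjd (.short true true) t ht 1).deriv]
    rw [hu1, hu2] at h1
    have h2 := congrArg Complex.re h1
    simp only [Complex.add_re, Complex.neg_re, Complex.one_re, Complex.conj_re, Complex.zero_re]
      at h2
    have h3 : (utan (γ (.short true true) t) 1).re = -(1 / 2) := by linarith
    rw [utan, Complex.div_ofReal_re] at h3
    have hn : 0 < ‖deriv (γ (.short true true) t) 1‖ :=
      norm_pos_iff.2 ((F.network t ht).regular _ 1 one_mem_I)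
    rw [div_eq_iff hn.ne'] at h3
    rw [quarter0]
    have h4 : dp (γ (.short true true)) t 1 = deriv (γ (.short true true) t) 1 := rfl
    rw [h4, h3]; ring
  · intro t ht
    have h1 := (hS t ht).cap_x true (1 / 2) half_mem
    have h2 := congrArg Complex.re h1
    have e : (1 - 1 / 2 : ℝ) = 1 / 2 := by norm_num
    rw [e] at h2
    simp only [Complex.neg_re, Complex.conj_re] at h2
    rw [quarter1]
    linarith
  · intro t ht
    have h2 : HasDerivAt (fun p : ℝ => p / 2) (1 / 2) 1 := (hasDerivAt_id' (1:ℝ)).div_const 2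
    have h3 : dp (quarter γ 1) t 1 = (1 / 2 : ℝ) • deriv (γ (.cap true) t) (1 / 2) :=
      (HasDerivAt.scomp (1:ℝ) (hd (.cap true) t ht (1 / 2)) h2).deriv
    -- differentiate the symmetry relation at the mid-point
    have h4 : HasDerivAt (fun p : ℝ => 1 - p) (-1) (1 / 2) := by
      have := (hasDerivAt_const (1 / 2 : ℝ) (1:ℝ)).sub (hasDerivAt_id' (1 / 2 : ℝ))
      exact this.congr_deriv (by norm_num)
    have h0 : HasDerivAt (γ (.cap true) t) (deriv (γ (.cap true) t) (1 / 2)) (1 - 1 / 2) := by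
      have e : (1 - 1 / 2 : ℝ) = 1 / 2 := by norm_num
      rw [e]; exact hd (.cap true) t ht (1 / 2)
    have h5 := HasDerivAt.scomp (1 / 2 : ℝ) h0 h4
    have h6 := (hconjd (.cap true) t ht (1 / 2)).neg
    have h7 := deriv_eq_of_eqOn (f := (γ (.cap true) t) ∘ fun p : ℝ => 1 - p)
      (g := -fun q => starRingEnd ℂ (γ (.cap true) t q)) half_mem
      h5.differentiableAt h6.differentiableAt (fun q hq => (hS t ht).cap_x true q hq)
    rw [h5.deriv, h6.deriv] at h7
    have h8 := congrArg Complex.im h7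
    simp only [neg_smul, one_smul, Complex.neg_im, Complex.conj_im, neg_neg] at h8
    rw [h3, Complex.real_smul, Complex.im_ofReal_mul]
    linarith
  · intro t ht
    exact hP t ht

/-- passing to the complex conjugate arm -/
lemma SubarcsConverge.conj {c : ℕ → ℝ → ℂ} {c' : ℕ → ℝ → ℂ} {s1 s2 : ℝ}
    (hdiff : ∀ n, ∀ p ∈ Icc (0:ℝ) 1, DifferentiableAt ℝ (c n) p)
    (hdiff' : ∀ n, ∀ p ∈ Icc (0:ℝ) 1, DifferentiableAt ℝ (c' n) p)
    (h : SubarcsConverge c (seg s1 s2))
    (hc : ∀ n, ∀ p ∈ Icc (0:ℝ) 1, c' n p = starRingEnd ℂ (c n p)) :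
    SubarcsConverge c' (seg s1 s2) := by
  obtain ⟨θ, h1, h2⟩ := h
  refine ⟨θ, h1, fun ε hε => ?_⟩
  filter_upwards [h1, h2 ε hε] with n hn1 hn2 p hp
  obtain ⟨k1, k2⟩ := hn2 p hp
  have hθI := (hn1 p hp).1
  have hθd : HasDerivAt (θ n) (deriv (θ n) p) p :=
    (differentiableAt_of_deriv_ne_zero (hn1 p hp).2.ne').hasDerivAt
  have hsegre : starRingEnd ℂ (seg s1 s2 p) = seg s1 s2 p := by
    simp [seg]
  constructor
  · rw [hc n _ hθI, ← hsegre, ← map_sub, RCLike.norm_conj]
    exact k1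
  · have d1 := HasDerivAt.scomp p (hdiff n _ hθI).hasDerivAt hθd
    have d2 := HasDerivAt.scomp p (hdiff' n _ hθI).hasDerivAt hθd
    have e1 : deriv (c' n) (θ n p) = starRingEnd ℂ (deriv (c n) (θ n p)) := by
      have h3 : HasDerivAt (fun q => starRingEnd ℂ (c n q)) (starRingEnd ℂ (deriv (c n) (θ n p)))
          (θ n p) := Complex.conjCLE.toContinuousLinearMap.hasFDerivAt.comp_hasDerivAt _
            (hdiff n _ hθI).hasDerivAt
      rw [deriv_eq_of_eqOn hθI (hdiff' n _ hθI) h3.differentiableAt (hc n), h3.deriv]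
    have d3 : deriv (fun q => c n (θ n q)) p = deriv (θ n) p • deriv (c n) (θ n p) := d1.deriv
    have d4 : deriv (fun q => c' n (θ n q)) p = deriv (θ n) p • deriv (c' n) (θ n p) := d2.deriv
    rw [deriv_seg] at k2 ⊢
    rw [d3] at k2
    rw [d4, e1]
    have e2 : deriv (θ n) p • starRingEnd ℂ (deriv (c n) (θ n p)) - ((s2 : ℂ) - s1) =
        starRingEnd ℂ (deriv (θ n) p • deriv (c n) (θ n p) - ((s2 : ℂ) - s1)) := by
      simp [Complex.real_smul]
    rw [e2, RCLike.norm_conj]
    exact k2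

end

end Run7.h661
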