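import Pool.Agent.Run7.h661.Edge

/-!
# The quarter of the symmetric network: boundary conditions and preservation of the sector
-/

open Set Filter Topology
open scoped ContDiff Real

namespace Run7.h661

/-- reference angles of the three edges: short edge `a → b`, half cap `a → M`, arm `a → P` -/
noncomputable def cang : Fin 3 → ℝ := ![-(2 * π / 3), 2 * π / 3, 0]

lemma cang0 : cang 0 = -(2 * π / 3) := rfl
lemma cang1 : cang 1 = 2 * π / 3 := rfl
lemma cang2 : cang 2 = 0 := rfl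

/-- The three edges of the quarter of a symmetric network flow. -/
structure QF (T R h : ℝ) (g : Fin 3 → ℝ → ℝ → ℂ) : Prop where
  edge : ∀ i, EdgeFlow T (g i)
  junc : ∀ t ∈ Ioo 0 T, ∀ i j, g i t 0 = g j t 0
  angle : ∀ t ∈ Ioo 0 T, ∑ i, dp (g i) t 0 / (‖dp (g i) t 0‖ : ℂ) = 0
  bIm : ∀ t ∈ Ioo 0 T, (g 0 t 1).im = 0
  bAng : ∀ t ∈ Ioo 0 T, (dp (g 0) t 1).re = -(‖dp (g 0) t 1‖ / 2)
  mRe : ∀ t ∈ Ioo 0 T, (g 1 t 1).re = 0
  mAng : ∀ t ∈ Ioo 0 T, (dp (g 1) t 1).im = 0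
  pEnd : ∀ t ∈ Ioo 0 T, g 2 t 1 = (R : ℂ) + h * Complex.I

/-- all `w_i` have positive real part at time `t` -/
def PosAt (g : Fin 3 → ℝ → ℝ → ℂ) (t : ℝ) : Prop :=
  ∀ i, ∀ p ∈ Icc (0:ℝ) 1, 0 < (wv (cang i) (g i) t p).re

/-- the sector condition at time `t` -/
def SecAt (g : Fin 3 → ℝ → ℝ → ℂ) (t : ℝ) : Prop :=
  ∀ i, ∀ p ∈ Icc (0:ℝ) 1, Sec (cang i) (g i) t p

lemma nonneg_of_cos {d : ℝ} (h1 : -π < d) (h2 : Real.cos (2 * π / 3 + d) = -1 / 2) : 0 ≤ d := by
  by_contra hcon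
  push Not at hcon
  have hpi := Real.pi_pos
  have h3 : Real.cos (2 * π / 3) = -1 / 2 := by
    rw [show 2 * π / 3 = π - π / 3 by ring, Real.cos_pi_sub, Real.cos_pi_div_three]; norm_num
  have h4 : |2 * π / 3 + d| < 2 * π / 3 := by
    rw [abs_lt]; constructor <;> linarith
  have h5 : Real.cos (2 * π / 3) < Real.cos |2 * π / 3 + d| :=
    Real.cos_lt_cos_of_nonneg_of_le_pi (abs_nonneg _) (by linarith) h4
  rw [Real.cos_abs, h2, h3] at h5
  exact lt_irrefl _ h5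

lemma trig23 (x : ℝ) : Real.cos (2 * π / 3 + x) = -(1 / 2) * Real.cos x - √3 / 2 * Real.sin x ∧
    Real.sin (2 * π / 3 + x) = √3 / 2 * Real.cos x - 1 / 2 * Real.sin x := by
  have h3 : Real.cos (2 * π / 3) = -1 / 2 := by
    rw [show 2 * π / 3 = π - π / 3 by ring, Real.cos_pi_sub, Real.cos_pi_div_three]; norm_num
  have h4 : Real.sin (2 * π / 3) = √3 / 2 := by
    rw [show 2 * π / 3 = π - π / 3 by ring, Real.sin_pi_sub, Real.sin_pi_div_three]
  constructor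
  · rw [Real.cos_add, h3, h4]; ring
  · rw [Real.sin_add, h3, h4]; ring

lemma trigm23 (x : ℝ) : Real.cos (-(2 * π / 3) + x) = -(1 / 2) * Real.cos x + √3 / 2 * Real.sin x ∧
    Real.sin (-(2 * π / 3) + x) = -(√3 / 2 * Real.cos x) - 1 / 2 * Real.sin x := by
  have h3 : Real.cos (2 * π / 3) = -1 / 2 := by
    rw [show 2 * π / 3 = π - π / 3 by ring, Real.cos_pi_sub, Real.cos_pi_div_three]; norm_num
  have h4 : Real.sin (2 * π / 3) = √3 / 2 := by
    rw [show 2 * π / 3 = π - π / 3 by ring, Real.sin_pi_sub, Real.sin_pi_div_three]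
  constructor
  · rw [Real.cos_add, Real.cos_neg, Real.sin_neg, h3, h4]; ring
  · rw [Real.sin_add, Real.cos_neg, Real.sin_neg, h3, h4]; ring

lemma cos_diff_of_sum {a b c : ℝ} (h1 : Real.cos a + Real.cos b + Real.cos c = 0)
    (h2 : Real.sin a + Real.sin b + Real.sin c = 0) : Real.cos (a - b) = -1 / 2 := by
  have e1 := Real.sin_sq_add_cos_sq a
  have e2 := Real.sin_sq_add_cos_sq b
  have e3 := Real.sin_sq_add_cos_sq c
  have e4 : Real.cos c = -(Real.cos a + Real.cos b) := by linarith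
  have e5 : Real.sin c = -(Real.sin a + Real.sin b) := by linarith
  rw [Real.cos_sub]
  rw [e4, e5] at e3
  nlinarith

section
variable {T R h : ℝ} {g : Fin 3 → ℝ → ℝ → ℂ}

lemma QF.unit_sum (H : QF T R h g) {t : ℝ} (ht : t ∈ Ioo 0 T) :
    ∑ i, (dp (g i) t 0).re / ‖dp (g i) t 0‖ = 0 ∧ ∑ i, (dp (g i) t 0).im / ‖dp (g i) t 0‖ = 0 := by
  have h1 := H.angle t ht
  have h2 := congrArg Complex.re h1
  have h3 := congrArg Complex.im h1
  simp only [Complex.re_sum, Complex.im_sum, Complex.div_ofReal_re, Complex.div_ofReal_im,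
    Complex.zero_re, Complex.zero_im] at h2 h3
  exact ⟨h2, h3⟩

lemma zero_mem_I : (0:ℝ) ∈ Icc (0:ℝ) 1 := ⟨le_refl _, zero_le_one⟩
lemma one_mem_I : (1:ℝ) ∈ Icc (0:ℝ) 1 := ⟨zero_le_one, le_refl _⟩

lemma QF.norm_pos (H : QF T R h g) {t : ℝ} (ht : t ∈ Ioo 0 T) (i : Fin 3) {p : ℝ}
    (hp : p ∈ Icc (0:ℝ) 1) : 0 < ‖dp (g i) t p‖ := norm_pos_iff.2 ((H.edge i).reg t ht p hp)

lemma QF.th_junc (H : QF T R h g) {t : ℝ} (ht : t ∈ Ioo 0 T) (hpos : PosAt g t) (i j : Fin 3) :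
    th (cang i) (g i) t 0 = th (cang j) (g j) t 0 := by
  obtain ⟨h1, h2⟩ := H.unit_sum ht
  rw [Fin.sum_univ_three] at h1 h2
  have hn := fun i => (H.norm_pos ht i zero_mem_I).ne'
  have hc : ∀ i, (dp (g i) t 0).re / ‖dp (g i) t 0‖ = Real.cos (cang i + th (cang i) (g i) t 0) := by
    intro i
    rw [(polar (cang i) (g i) t 0).1, mul_div_cancel_left₀ _ (hn i)]
  have hs : ∀ i, (dp (g i) t 0).im / ‖dp (g i) t 0‖ = Real.sin (cang i + th (cang i) (g i) t 0) := by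
    intro i
    rw [(polar (cang i) (g i) t 0).2, mul_div_cancel_left₀ _ (hn i)]
  rw [hc, hc, hc] at h1
  rw [hs, hs, hs] at h2
  have ha : ∀ i, |th (cang i) (g i) t 0| < π / 2 := fun i => abs_th_lt (hpos i 0 zero_mem_I)
  set a0 := th (cang 0) (g 0) t 0 with ha0
  set a1 := th (cang 1) (g 1) t 0 with ha1
  set a2 := th (cang 2) (g 2) t 0 with ha2
  have b0 := abs_lt.1 (ha 0)
  have b1 := abs_lt.1 (ha 1)
  have b2 := abs_lt.1 (ha 2)
  rw [← ha0] at b0
  rw [← ha1] at b1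
  rw [← ha2] at b2
  rw [cang0, cang1, cang2, zero_add] at h1 h2
  have c12 : Real.cos (2 * π / 3 + a1 - a2) = -1 / 2 :=
    cos_diff_of_sum (c := -(2 * π / 3) + a0) (by linarith) (by linarith)
  have c20 : Real.cos (a2 - (-(2 * π / 3) + a0)) = -1 / 2 :=
    cos_diff_of_sum (c := 2 * π / 3 + a1) (by linarith) (by linarith)
  have c01 : Real.cos (-(2 * π / 3) + a0 - (2 * π / 3 + a1)) = -1 / 2 :=
    cos_diff_of_sum (c := a2) (by linarith) (by linarith)
  have d1 : 0 ≤ a1 - a2 := nonneg_of_cos (by linarith) (by rw [← c12]; ring_nf)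
  have d2 : 0 ≤ a2 - a0 := nonneg_of_cos (by linarith) (by rw [← c20]; ring_nf)
  have d3 : 0 ≤ a0 - a1 := nonneg_of_cos (by linarith) (by
    rw [← c01, ← Real.cos_add_two_pi (-(2 * π / 3) + a0 - (2 * π / 3 + a1))]
    ring_nf)
  have e1 : a0 = a1 := by linarith
  have e2 : a0 = a2 := by linarith
  fin_cases i <;> fin_cases j <;> simp only [Fin.zero_eta, Fin.mk_one, Fin.reduceFinMk,
    ← ha0, ← ha1, ← ha2] <;> linarith

lemma QF.vel_junc (H : QF T R h g) {t : ℝ} (ht : t ∈ Ioo 0 T) (i j : Fin 3) :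
    dt (g i) t 0 = dt (g j) t 0 := by
  have : (fun s => g i s 0) =ᶠ[𝓝 t] (fun s => g j s 0) := by
    filter_upwards [Ioo_mem_nhds ht.1 ht.2] with s hs
    exact H.junc s hs i j
  exact this.deriv_eq

lemma QF.kirchhoff (H : QF T R h g) {t : ℝ} (ht : t ∈ Ioo 0 T) :
    ∑ i, thp (g i) t 0 / ‖dp (g i) t 0‖ = 0 := by
  obtain ⟨h1, h2⟩ := H.unit_sum ht
  rw [Fin.sum_univ_three] at h1 h2 ⊢
  rw [← (H.edge 0).cross ht zero_mem_I, ← (H.edge 1).cross ht zero_mem_I,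
    ← (H.edge 2).cross ht zero_mem_I, H.vel_junc ht 1 0, H.vel_junc ht 2 0]
  set V := dt (g 0) t 0
  simp only [sub_div, mul_div_assoc]
  linear_combination V.im * h1 - V.re * h2

lemma QF.th_b (H : QF T R h g) {t : ℝ} (ht : t ∈ Ioo 0 T) (hpos : PosAt g t) :
    th (cang 0) (g 0) t 1 = 0 := by
  have hn := (H.norm_pos ht 0 one_mem_I)
  have h1 := H.bAng t ht
  rw [(polar (cang 0) (g 0) t 1).1, cang0, (trigm23 _).1] at h1
  have ha := abs_lt.1 (abs_th_lt (hpos 0 1 one_mem_I))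
  rw [cang0] at ha ⊢
  set x := th (-(2 * π / 3)) (g 0) t 1 with hx
  have hcos : 0 < Real.cos x := Real.cos_pos_of_mem_Ioo ⟨by linarith [ha.1], ha.2⟩
  have h2 : -(1 / 2) * Real.cos x + √3 / 2 * Real.sin x = -(1 / 2) := by
    have : ‖dp (g 0) t 1‖ * (-(1 / 2) * Real.cos x + √3 / 2 * Real.sin x)
      = ‖dp (g 0) t 1‖ * (-(1 / 2)) := by rw [h1]; ring
    exact mul_left_cancel₀ hn.ne' this
  have h3 : √3 * √3 = 3 := Real.mul_self_sqrt (by norm_num)
  have h4 := Real.sin_sq_add_cos_sq x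
  have h5 : Real.cos x = 1 + √3 * Real.sin x := by linarith
  have h6 : Real.sin x * (2 * √3 + 4 * Real.sin x) = 0 := by
    rw [h5] at h4
    nlinarith
  rcases mul_eq_zero.1 h6 with h7 | h7
  · have hpi := Real.pi_pos
    exact (Real.sin_eq_zero_iff_of_lt_of_lt (by linarith [ha.1]) (by linarith [ha.2])).1 h7
  · exfalso
    have h8 : Real.sin x = -(√3 / 2) := by linarith
    rw [h8] at h5
    nlinarith

lemma QF.th_M (H : QF T R h g) {t : ℝ} (ht : t ∈ Ioo 0 T) (hpos : PosAt g t) :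
    th (cang 1) (g 1) t 1 = π / 3 := by
  have hn := (H.norm_pos ht 1 one_mem_I)
  have h1 := H.mAng t ht
  rw [(polar (cang 1) (g 1) t 1).2, cang1, (trig23 _).2] at h1
  have ha := abs_lt.1 (abs_th_lt (hpos 1 1 one_mem_I))
  rw [cang1] at ha ⊢
  set x := th (2 * π / 3) (g 1) t 1 with hx
  have h2 : √3 / 2 * Real.cos x - 1 / 2 * Real.sin x = 0 := by
    rcases mul_eq_zero.1 h1 with h | h
    · exact absurd h hn.ne'
    · exact h
  have hpi := Real.pi_pos
  have h3 : Real.sin (x - π / 3) = 0 := by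
    rw [Real.sin_sub, Real.cos_pi_div_three, Real.sin_pi_div_three]; linarith
  have := (Real.sin_eq_zero_iff_of_lt_of_lt (by linarith [ha.1]) (by linarith [ha.2])).1 h3
  linarith

lemma QF.vel_P (H : QF T R h g) {t : ℝ} (ht : t ∈ Ioo 0 T) : dt (g 2) t 1 = 0 := by
  have : (fun s => g 2 s 1) =ᶠ[𝓝 t] (fun _ => (R : ℂ) + h * Complex.I) := by
    filter_upwards [Ioo_mem_nhds ht.1 ht.2] with s hs
    exact H.pEnd s hs
  rw [dt, this.deriv_eq]; simp

lemma QF.thp_P (H : QF T R h g) {t : ℝ} (ht : t ∈ Ioo 0 T) : thp (g 2) t 1 = 0 := by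
  rw [← (H.edge 2).cross ht one_mem_I, H.vel_P ht]; simp

/-! derivative facts for imaginary and real parts -/

lemma hasDerivAt_im {f : ℝ → ℂ} {f' : ℂ} {x : ℝ} (hf : HasDerivAt f f' x) :
    HasDerivAt (fun q => (f q).im) f'.im x := Complex.imCLM.hasFDerivAt.comp_hasDerivAt x hf

lemma hasDerivAt_re {f : ℝ → ℂ} {f' : ℂ} {x : ℝ} (hf : HasDerivAt f f' x) :
    HasDerivAt (fun q => (f q).re) f'.re x := Complex.reCLM.hasFDerivAt.comp_hasDerivAt x hf

lemma EdgeFlow.eqn_im {γ : ℝ → ℝ → ℂ} (H : EdgeFlow T γ) {t : ℝ} (ht : t ∈ Ioo 0 T) {p : ℝ}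
    (hp : p ∈ Icc (0:ℝ) 1) :
    (dt γ t p).im = ac γ t p * (dp (dp γ) t p).im + bc γ t p * (dp γ t p).im := by
  rw [H.eqn ht hp]; simp

lemma EdgeFlow.eqn_re {γ : ℝ → ℝ → ℂ} (H : EdgeFlow T γ) {t : ℝ} (ht : t ∈ Ioo 0 T) {p : ℝ}
    (hp : p ∈ Icc (0:ℝ) 1) :
    (dt γ t p).re = ac γ t p * (dp (dp γ) t p).re + bc γ t p * (dp γ t p).re := by
  rw [H.eqn ht hp]; simp

/-- Maximum principle for `α ϑ - f(t) y - κ`. -/
theorem QF.angle_max (H : QF T R h g) {t0 t1 α κ : ℝ} {f f' : ℝ → ℝ} (h0 : 0 < t0) (h1 : t1 < T)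
    (hpos : ∀ t ∈ Icc t0 t1, PosAt g t)
    (hfc : ContinuousOn f (Icc t0 t1))
    (hf : ∀ t ∈ Ioc t0 t1, HasDerivAt f (f' t) t)
    (hfy : ∀ t ∈ Ioc t0 t1, ∀ i, ∀ p ∈ Icc (0:ℝ) 1, 0 ≤ f' t * (g i t p).im)
    (hκ : 0 ≤ κ)
    (hM : ∀ t ∈ Ioc t0 t1, α * (π / 3) - f t * (g 1 t 1).im - κ ≤ 0)
    (hP : ∀ t ∈ Ioc t0 t1, 0 ≤ f t * (dp (g 2) t 1).im)
    (hinit : ∀ i, ∀ p ∈ Icc (0:ℝ) 1, α * th (cang i) (g i) t0 p - f t0 * (g i t0 p).im - κ ≤ 0) :
    ∀ i, ∀ t ∈ Icc t0 t1, ∀ p ∈ Icc (0:ℝ) 1,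
      α * th (cang i) (g i) t p - f t * (g i t p).im - κ ≤ 0 := by
  have hmem : ∀ t ∈ Icc t0 t1, t ∈ Ioo 0 T := fun t ht => ⟨h0.trans_le ht.1, ht.2.trans_lt h1⟩
  have hmem' : ∀ t ∈ Ioc t0 t1, t ∈ Ioo 0 T := fun t ht => ⟨h0.trans ht.1, ht.2.trans_lt h1⟩
  have hI : ∀ p ∈ Ioo (0:ℝ) 1, p ∈ Icc (0:ℝ) 1 := fun p hp => ⟨hp.1.le, hp.2.le⟩
  choose A hA using fun i => (H.edge i).coef_bound h0 h1
  have hAle : ∀ i, A i ≤ |A 0| + |A 1| + |A 2| := by
    intro i
    have h0 := le_abs_self (A 0)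
    have h1 := le_abs_self (A 1)
    have h2 := le_abs_self (A 2)
    have h0' := abs_nonneg (A 0)
    have h1' := abs_nonneg (A 1)
    have h2' := abs_nonneg (A 2)
    fin_cases i <;> simp only [Fin.zero_eta, Fin.mk_one, Fin.reduceFinMk] <;> linarith
  refine star_max (u := fun i t p => α * th (cang i) (g i) t p - f t * (g i t p).im - κ)
    (up := fun i t p => α * thp (g i) t p - f t * (dp (g i) t p).im)
    (upp := fun i t p => α * thpp (g i) t p - f t * (dp (dp (g i)) t p).im)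
    (ut := fun i t p => α * tht (g i) t p - (f' t * (g i t p).im + f t * (dt (g i) t p).im))
    (a := fun i t p => ac (g i) t p) (b := fun i t p => bc (g i) t p) (K := 0)
    (A := |A 0| + |A 1| + |A 2|)
    ?_ ?_ ?_ ?_ ?_ ?_ ?_ hinit ?_ ?_
  · intro i
    rintro ⟨t, p⟩ ⟨ht, hp⟩
    have c1 := (continuousAt_th (H.edge i).sm (hmem t ht) (hpos t ht i p hp)).continuousWithinAt
      (s := Icc t0 t1 ×ˢ Icc 0 1)
    have c2 : ContinuousWithinAt (fun q : ℝ × ℝ => f q.1) (Icc t0 t1 ×ˢ Icc 0 1) (t, p) :=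
      (hfc t ht).comp (t := Icc t0 t1) continuousWithinAt_fst (fun q hq => hq.1)
    have c3 : ContinuousWithinAt (fun q : ℝ × ℝ => (g i q.1 q.2).im) (Icc t0 t1 ×ˢ Icc 0 1) (t, p) :=
      (Complex.continuous_im.continuousAt.comp
        ((H.edge i).sm.continuousAt (hmem t ht) p)).continuousWithinAt
    exact ((c1.const_smul α).sub (c2.mul c3)).sub continuousWithinAt_const
  · intro i t ht p hp
    have d1 := (hasDerivAt_th_p (H.edge i).sm (hmem' t ht)
      (hpos t ⟨ht.1.le, ht.2⟩ i p hp)).const_mul α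
    have d2 := (hasDerivAt_im ((H.edge i).sm.hasDerivAt_p (hmem' t ht) p)).const_mul (f t)
    exact (d1.sub d2).sub_const κ
  · intro i t ht p hp
    have d1 := (hasDerivAt_thp (H.edge i).sm (hmem' t ht)
      ((H.edge i).reg t (hmem' t ht) p (hI p hp))).const_mul α
    have d2 := (hasDerivAt_im ((H.edge i).sm.dp.hasDerivAt_p (hmem' t ht) p)).const_mul (f t)
    exact (d1.sub d2)
  · intro i t ht p hp
    have d1 := (hasDerivAt_th_t (H.edge i).sm (hmem' t ht)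
      (hpos t ⟨ht.1.le, ht.2⟩ i p (hI p hp))).const_mul α
    have d2 := (hf t ht).mul (hasDerivAt_im ((H.edge i).sm.hasDerivAt_t (hmem' t ht) p))
    exact (d1.sub d2).sub_const κ
  · intro i t ht p hp
    obtain ⟨e1, e2, e3, e4⟩ := hA i t ⟨ht.1.le, ht.2⟩ p (hI p hp)
    exact ⟨e1, e2.trans (hAle i)⟩
  · intro i t ht p hp
    obtain ⟨e1, e2, e3, e4⟩ := hA i t ⟨ht.1.le, ht.2⟩ p (hI p hp)
    exact e3.trans (hAle i)
  · intro i t ht p hp _
    have e1 := (H.edge i).pde (hmem' t ht) hp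
    have e2 := (H.edge i).eqn_im (hmem' t ht) (hI p hp)
    have e3 := hfy t ht i p (hI p hp)
    rw [e1, e2]
    nlinarith
  · intro t ht
    right
    constructor
    · intro i j
      rw [H.th_junc (hmem' t ht) (hpos t ⟨ht.1.le, ht.2⟩) i j, H.junc t (hmem' t ht) i j]
    · refine ⟨fun i => 1 / ‖dp (g i) t 0‖, fun i => div_pos one_pos
        (H.norm_pos (hmem' t ht) i zero_mem_I), ?_⟩
      have k1 := H.kirchhoff (hmem' t ht)
      have k2 := (H.unit_sum (hmem' t ht)).2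
      rw [Fin.sum_univ_three] at k1 k2 ⊢
      apply le_of_eq
      linear_combination (-α) * k1 + f t * k2
  · intro i t ht
    fin_cases i
    · left
      simp only [Fin.zero_eta]
      rw [H.th_b (hmem' t ht) (hpos t ⟨ht.1.le, ht.2⟩), H.bIm t (hmem' t ht)]
      linarith
    · left
      simp only [Fin.mk_one]
      rw [H.th_M (hmem' t ht) (hpos t ⟨ht.1.le, ht.2⟩)]
      exact hM t ht
    · right
      simp only [Fin.reduceFinMk]
      rw [H.thp_P (hmem' t ht)]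
      have := hP t ht
      linarith

/-! ## Preservation of the sector -/

lemma SecAt.posAt (H : QF T R h g) {t : ℝ} (ht : t ∈ Ioo 0 T) (hs : SecAt g t) : PosAt g t :=
  fun i p hp => (hs i p hp).re_pos ((H.edge i).reg t ht p hp)

lemma QF.posAt_eventually (H : QF T R h g) {t : ℝ} (ht : t ∈ Ioo 0 T) (hpos : PosAt g t) :
    ∀ᶠ s in 𝓝 t, PosAt g s := by
  have : ∀ i, ∀ᶠ s in 𝓝 t, ∀ p ∈ Icc (0:ℝ) 1, 0 < (wv (cang i) (g i) s p).re := by
    intro i
    refine isCompact_Icc.eventually_forall_of_forall_eventually ?_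
    intro p hp
    have c1 : ContinuousAt (fun q : ℝ × ℝ => (wv (cang i) (g i) q.1 q.2).re) (t, p) :=
      Complex.continuous_re.continuousAt.comp
        ((sm_smul_exp (c := cang i) (H.edge i).sm).continuousAt ht p)
    exact c1.eventually (lt_mem_nhds (hpos i p hp))
  have h2 := Filter.eventually_all.2 this
  filter_upwards [h2] with s hs i p hp
  exact hs i p hp

lemma QF.sec_step (H : QF T R h g) {t0 t1 : ℝ} (h0 : 0 < t0) (h1 : t1 < T)
    (hpos : ∀ t ∈ Icc t0 t1, PosAt g t) (hs : SecAt g t0) : ∀ t ∈ Icc t0 t1, SecAt g t := by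
  intro t ht
  have h01 : t0 ≤ t1 := ht.1.trans ht.2
  have hmem : ∀ t ∈ Icc t0 t1, t ∈ Ioo 0 T := fun t ht => ⟨h0.trans_le ht.1, ht.2.trans_lt h1⟩
  have hpi := Real.pi_pos
  have hst : ∀ i, ∀ p ∈ Icc (0:ℝ) 1, 0 ≤ th (cang i) (g i) t0 p ∧ th (cang i) (g i) t0 p ≤ π / 3 :=
    fun i p hp => (sec_iff (hpos t0 ⟨le_refl _, h01⟩ i p hp)).1 (hs i p hp)
  have m1 := H.angle_max (α := 1) (κ := π / 3) (f := fun _ => 0) (f' := fun _ => 0) h0 h1 hpos
    continuousOn_const (fun t _ => hasDerivAt_const t 0) (fun t _ i p _ => by simp)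
    (by positivity) (fun t _ => by simp) (fun t _ => by simp)
    (fun i p hp => by have := (hst i p hp).2; linarith)
  have m2 := H.angle_max (α := -1) (κ := 0) (f := fun _ => 0) (f' := fun _ => 0) h0 h1 hpos
    continuousOn_const (fun t _ => hasDerivAt_const t 0) (fun t _ i p _ => by simp)
    (le_refl _) (fun t _ => by linarith) (fun t _ => by simp)
    (fun i p hp => by have := (hst i p hp).1; linarith)
  intro i p hp
  refine (sec_iff (hpos t ht i p hp)).2 ⟨?_, ?_⟩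
  · have := m2 i t ht p hp; linarith
  · have := m1 i t ht p hp; linarith

theorem QF.sec_all (H : QF T R h g) {t0 : ℝ} (h0 : t0 ∈ Ioo 0 T) (hs : SecAt g t0) :
    ∀ t ∈ Ico t0 T, SecAt g t := by
  intro t1 ht1
  have key : Icc t0 t1 ⊆ {t | SecAt g t} := by
    apply IsClosed.Icc_subset_of_forall_exists_gt
    · -- closedness
      have hset : {t | SecAt g t} ∩ Icc t0 t1 =
          ⋂ i, ⋂ p ∈ Icc (0:ℝ) 1, {t ∈ Icc t0 t1 | Sec (cang i) (g i) t p} ∩ Icc t0 t1 := by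
        ext t
        simp only [mem_inter_iff, mem_ofPred_eq, mem_iInter, SecAt]
        constructor
        · rintro ⟨h1, h2⟩ i p hp
          exact ⟨⟨h2, h1 i p hp⟩, h2⟩
        · intro h
          exact ⟨fun i p hp => (h i p hp).1.2, (h 0 0 zero_mem_I).2⟩
      rw [hset]
      refine isClosed_iInter (fun i => isClosed_iInter (fun p => isClosed_iInter (fun hp => ?_)))
      have hc : ContinuousOn (fun s => wv (cang i) (g i) s p) (Icc t0 t1) := by
        intro s hs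
        exact ((sm_smul_exp (c := cang i) (H.edge i).sm).continuousAt_t
          ⟨h0.1.trans_le hs.1, hs.2.trans_lt ht1.2⟩ p).continuousWithinAt
      have c1 : ContinuousOn (fun s => (wv (cang i) (g i) s p).im) (Icc t0 t1) :=
        Complex.continuous_im.comp_continuousOn hc
      have c2 : ContinuousOn (fun s => √3 * (wv (cang i) (g i) s p).re) (Icc t0 t1) :=
        continuousOn_const.mul (Complex.continuous_re.comp_continuousOn hc)
      have i1 : IsClosed {t ∈ Icc t0 t1 | 0 ≤ (wv (cang i) (g i) t p).im} :=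
        isClosed_Icc.isClosed_le continuousOn_const c1
      have i2 : IsClosed {t ∈ Icc t0 t1 | (wv (cang i) (g i) t p).im ≤
          √3 * (wv (cang i) (g i) t p).re} := isClosed_Icc.isClosed_le c1 c2
      convert (i1.inter i2) using 1
      ext t
      simp only [mem_inter_iff, mem_ofPred_eq, Sec]
      tauto
    · exact hs
    · intro x hx y hy
      have hxI : x ∈ Ioo 0 T := ⟨h0.1.trans_le hx.2.1, hx.2.2.trans ht1.2⟩
      have hpx : PosAt g x := SecAt.posAt H hxI hx.1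
      have hev := H.posAt_eventually hxI hpx
      obtain ⟨ε, hε, hball⟩ := Metric.eventually_nhds_iff.1 hev
      set z := min (x + ε / 2) (min y t1) with hz
      have hxz : x < z := lt_min (by linarith) (lt_min hy hx.2.2)
      have hzx : z ≤ x + ε / 2 := min_le_left _ _
      have hzy : z ≤ y := (min_le_right _ _).trans (min_le_left _ _)
      have hz1 : z ≤ t1 := (min_le_right _ _).trans (min_le_right _ _)
      refine ⟨z, ?_, hxz, hzy⟩
      refine H.sec_step hxI.1 (hz1.trans_lt ht1.2) ?_ hx.1 z ⟨hxz.le, le_refl _⟩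
      intro s hs
      apply hball
      rw [Real.dist_eq, abs_lt]
      constructor <;> linarith [hs.1, hs.2]
  exact key ⟨ht1.1, le_refl _⟩

end

end Run7.h661
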