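import Pool.Agent.Run7.h661.Boot

/-!
# The corner stays at bounded scale along a sequence of times
-/

open Set Filter Topology MeasureTheory
open scoped ContDiff Real

namespace Run7.h661

section
variable {T t0 R h : ℝ} {g : Fin 3 → ℝ → ℝ → ℂ}

lemma tendsto_rr (T : ℝ) : Tendsto (rr T) (𝓝[<] T) (𝓝 0) := by
  have : ContinuousAt (rr T) T := by
    have : Continuous (rr T) := by unfold rr; fun_prop
    exact this.continuousAt
  have h2 := this.tendsto.mono_left (nhdsWithin_le_nhds (s := Iio T))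
  have h3 : rr T T = 0 := by rw [rr, sub_self, mul_zero, Real.sqrt_zero]
  rwa [h3] at h2

/-- `J ≤ C r³` -/
lemma Hyp.J_le (H : Hyp T t0 R h g) : ∃ C, 0 < C ∧ ∀ t ∈ Ico t0 T, Jq g t ≤ C * rr T t ^ 3 := by
  have s1 := sqrt3_bounds.1
  have s2 := sqrt3_bounds.2
  have p1 := pi_bounds.1
  have p2 := pi_bounds.2
  have hd : ∀ τ ∈ Ico t0 T, ∃ J', HasDerivAt (Jq g) J' τ ∧ J' ≤ -(π / 3 * xa g τ) + yM g τ :=
    fun τ hτ => H.qf.Jq_deriv (H.mem hτ) (H.secAt hτ)
  choose! J' hJ' hJ'le using hd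
  -- the function Q = J/r⁴ - (7/5)/r is nonincreasing
  have hQ : ∀ t ∈ Ico t0 T, Jq g t / rr T t ^ 4 - 7 / 5 / rr T t ≤
      Jq g t0 / rr T t0 ^ 4 - 7 / 5 / rr T t0 := by
    intro t ht
    have hder : ∀ x ∈ Icc t0 t, HasDerivAt (fun x => -(Jq g x / rr T x ^ 4 - 7 / 5 / rr T x))
        (-((J' x * rr T x ^ 4 - Jq g x * (4 * rr T x ^ 3 * (-1 / rr T x))) / (rr T x ^ 4) ^ 2
          - 7 / 5 / rr T x ^ 3)) x := by
      intro x hx
      have hxI : x ∈ Ico t0 T := ⟨hx.1, hx.2.trans_lt ht.2⟩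
      have hr := rr_pos hxI.2
      have d1 : HasDerivAt (fun x => rr T x ^ 4) (4 * rr T x ^ 3 * (-1 / rr T x)) x :=
        ((hasDerivAt_rr hxI.2).pow 4).congr_deriv (by simp)
      have d2 : HasDerivAt (fun x => Jq g x / rr T x ^ 4)
        ((J' x * rr T x ^ 4 - Jq g x * (4 * rr T x ^ 3 * (-1 / rr T x))) / (rr T x ^ 4) ^ 2) x :=
        (hJ' x hxI).div d1 (by positivity)
      exact (d2.sub (hasDerivAt_div_rr hxI.2)).neg
    have := mono_of_deriv hder (fun x hx => ?_) (⟨le_refl _, ht.1⟩ : t0 ∈ Icc t0 t)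
      ⟨ht.1, le_refl _⟩ ht.1
    · linarith
    · have hxI : x ∈ Ico t0 T := ⟨hx.1, hx.2.trans_lt ht.2⟩
      have hr := rr_pos hxI.2
      have hc := H.concl_all hxI
      have hya := H.qf.ya_pos (H.mem hxI) (H.secAt hxI)
      have hJ := H.qf.Jq_le (H.mem hxI) (H.secAt hxI) hc.yx.le
      rw [H.area hxI] at hJ
      have hyM := H.yM_le hxI
      have hJx := hJ'le x hxI
      have hy : ya g x ≤ 0.7183 * rr T x := by
        have h1 := hc.big
        have h2 := hc.prod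
        have : (41 / 40 * rr T x) * ya g x ≤ (41 / 40 * rr T x) * (0.7183 * rr T x) := by nlinarith
        exact le_of_mul_le_mul_left this (by positivity)
      set r := rr T x with hrd
      have e1 : (J' x * r ^ 4 - Jq g x * (4 * r ^ 3 * (-1 / r))) / (r ^ 4) ^ 2 - 7 / 5 / r ^ 3 =
          (J' x * r ^ 2 + 4 * Jq g x - 7 / 5 * r ^ 3) / r ^ 6 := by
        field_simp
        ring
      rw [e1, ← neg_div]
      apply div_nonneg _ (by positivity)
      have k1 : J' x * r ^ 2 ≤ (-(π / 3 * xa g x) + √3 / 2 * r) * r ^ 2 :=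
        mul_le_mul_of_nonneg_right (by linarith) (sq_nonneg r)
      have k2 : √3 / 3 * ya g x ≤ 0.57736 * (0.7183 * r) :=
        mul_le_mul (by linarith) hy hya.le (by norm_num)
      have k3 : π / 3 * (√3 / 3 * ya g x) * r ^ 2 ≤ 1.0472 * (0.57736 * (0.7183 * r)) * r ^ 2 := by
        apply mul_le_mul_of_nonneg_right _ (sq_nonneg r)
        exact mul_le_mul (by linarith) k2 (by positivity) (by norm_num)
      have k4 : √3 / 2 * r * r ^ 2 ≤ 0.86603 * r * r ^ 2 := by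
        apply mul_le_mul_of_nonneg_right _ (sq_nonneg r)
        apply mul_le_mul_of_nonneg_right _ hr.le
        linarith
      have k5 : 0 < r ^ 3 := by positivity
      nlinarith
  refine ⟨|Jq g t0 / rr T t0 ^ 4 - 7 / 5 / rr T t0| + 7 / 5, by positivity, fun t ht => ?_⟩
  have h1 := hQ t ht
  have hr := rr_pos ht.2
  have hr1 := H.rr_le ht
  have h2 := le_abs_self (Jq g t0 / rr T t0 ^ 4 - 7 / 5 / rr T t0)
  set c := |Jq g t0 / rr T t0 ^ 4 - 7 / 5 / rr T t0|
  set r := rr T t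
  have h3 : Jq g t / r ^ 4 ≤ c + 7 / 5 / r := by linarith
  rw [div_le_iff₀ (by positivity)] at h3
  have h4 : (c + 7 / 5 / r) * r ^ 4 = c * r ^ 4 + 7 / 5 * r ^ 3 := by field_simp
  have hc : 0 ≤ c := abs_nonneg _
  have h5 : r ^ 4 ≤ r ^ 3 := by
    have : 0 < r ^ 3 := by positivity
    nlinarith
  nlinarith

/-- there is `M` such that `x_a < M r` at times arbitrarily close to `T` -/
theorem Hyp.bounded_seq (H : Hyp T t0 R h g) : ∃ M, 0 < M ∧ ∀ t1 ∈ Ico t0 T,
    ∃ t ∈ Ico t1 T, xa g t < M * rr T t := by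
  obtain ⟨C, hC, hJC⟩ := H.J_le
  have s2 := sqrt3_bounds.2
  have p1 := pi_bounds.1
  refine ⟨4 * C + 1, by positivity, fun t1 ht1 => ?_⟩
  by_contra hcon
  push Not at hcon
  have hd : ∀ τ ∈ Ico t0 T, ∃ J', HasDerivAt (Jq g) J' τ ∧ J' ≤ -(π / 3 * xa g τ) + yM g τ :=
    fun τ hτ => H.qf.Jq_deriv (H.mem hτ) (H.secAt hτ)
  choose! J' hJ' hJ'le using hd
  set κ := π / 3 * (4 * C + 1) - √3 / 2 with hκ
  have hκC : 3 * C < κ := by nlinarith
  have hmono : ∀ s ∈ Ico t1 T, Jq g s - κ / 3 * rr T s ^ 3 ≤ Jq g t1 - κ / 3 * rr T t1 ^ 3 := by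
    intro s hs
    have hder : ∀ x ∈ Icc t1 s, HasDerivAt (fun x => -(Jq g x - κ / 3 * rr T x ^ 3))
        (-(J' x - κ / 3 * (3 * rr T x ^ 2 * (-1 / rr T x)))) x := by
      intro x hx
      have hxI : x ∈ Ico t0 T := ⟨ht1.1.trans hx.1, hx.2.trans_lt hs.2⟩
      have d1 : HasDerivAt (fun x => rr T x ^ 3) (3 * rr T x ^ 2 * (-1 / rr T x)) x :=
        ((hasDerivAt_rr hxI.2).pow 3).congr_deriv (by simp)
      exact ((hJ' x hxI).sub (d1.const_mul _)).neg
    have := mono_of_deriv hder (fun x hx => ?_) (⟨le_refl _, hs.1⟩ : t1 ∈ Icc t1 s)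
      ⟨hs.1, le_refl _⟩ hs.1
    · linarith
    · have hxI : x ∈ Ico t0 T := ⟨ht1.1.trans hx.1, hx.2.trans_lt hs.2⟩
      have hr := rr_pos hxI.2
      have h1 := hcon x ⟨hx.1, hxI.2⟩
      have h2 := H.yM_le hxI
      have h3 := hJ'le x hxI
      have e1 : κ / 3 * (3 * rr T x ^ 2 * (-1 / rr T x)) = -(κ * rr T x) := by
        field_simp
      rw [e1, hκ]
      have h4 : π / 3 * ((4 * C + 1) * rr T x) ≤ π / 3 * xa g x :=
        mul_le_mul_of_nonneg_left h1 (by positivity)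
      nlinarith
  have hr0 := tendsto_rr T
  have hr3 : Tendsto (fun s => rr T s ^ 3) (𝓝[<] T) (𝓝 0) := by
    have := hr0.pow 3
    simpa using this
  have hJ0 : Tendsto (Jq g) (𝓝[<] T) (𝓝 0) := by
    have h1 : Tendsto (fun s => C * rr T s ^ 3) (𝓝[<] T) (𝓝 0) := by simpa using hr3.const_mul C
    refine tendsto_of_tendsto_of_tendsto_of_le_of_le' tendsto_const_nhds h1 ?_ ?_
    · filter_upwards [Ico_mem_nhdsLT (H.t0mem.2)] with s hs
      exact H.qf.Jq_nonneg (H.mem hs) (H.secAt hs)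
    · filter_upwards [Ico_mem_nhdsLT (H.t0mem.2)] with s hs
      exact hJC s hs
  have hlim : Tendsto (fun s => Jq g s - κ / 3 * rr T s ^ 3) (𝓝[<] T) (𝓝 (0 - κ / 3 * 0)) :=
    hJ0.sub (hr3.const_mul _)
  have h6 := le_of_tendsto hlim (b := Jq g t1 - κ / 3 * rr T t1 ^ 3) (by
    filter_upwards [Ico_mem_nhdsLT ht1.2] with s hs
    exact hmono s hs)
  have h7 := hJC t1 ht1
  have hr := rr_pos ht1.2
  have h8 : 0 < rr T t1 ^ 3 := by positivity
  nlinarith

/-- the cap is not too low when the corner is at bounded scale -/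
lemma Hyp.yM_lower (H : Hyp T t0 R h g) {t M : ℝ} (ht : t ∈ Ico t0 T)
    (hM : xa g t < M * rr T t) : π / 6 * rr T t ≤ (2 * M) * yM g t := by
  have hc := H.concl_all ht
  have hya := H.qf.ya_pos (H.mem ht) (H.secAt ht)
  have hr := rr_pos ht.2
  have s2 := sqrt3_bounds.2
  have s1 := sqrt3_bounds.1
  have h1 := H.qf.Aq_abs_le (H.mem ht) (H.secAt ht) (X := 2 * (M * rr T t))
    (by nlinarith [hc.yx]) (by nlinarith [hc.yx])
  rw [H.area ht, abs_of_pos (by positivity)] at h1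
  have h2 : rr T t * (π / 6 * rr T t) ≤ rr T t * ((2 * M) * yM g t) := by nlinarith
  exact le_of_mul_le_mul_left h2 hr

end

end Run7.h661
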