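import Pool.Agent.Run7.h661.Geom

/-!
# Two further maximum principles
-/

open Set Filter Topology
open scoped ContDiff Real

namespace Run7.h661

/-- the scale `√(2(T-t))` -/
noncomputable def rr (T t : ℝ) : ℝ := √(2 * (T - t))

lemma rr_pos {T t : ℝ} (ht : t < T) : 0 < rr T t := Real.sqrt_pos.2 (by linarith)

lemma rr_sq {T t : ℝ} (ht : t ≤ T) : rr T t ^ 2 = 2 * (T - t) := Real.sq_sqrt (by linarith)

lemma hasDerivAt_rr {T t : ℝ} (ht : t < T) : HasDerivAt (rr T) (-1 / rr T t) t := by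
  have h1 : HasDerivAt (fun s : ℝ => 2 * (T - s)) (-2) t := by
    have := ((hasDerivAt_const t T).sub (hasDerivAt_id' t)).const_mul 2
    exact this.congr_deriv (by ring)
  have h2 := h1.sqrt (by have : (0:ℝ) < 2 * (T - t) := by linarith
                         exact this.ne')
  refine h2.congr_deriv ?_
  rw [rr]
  have : √(2 * (T - t)) ≠ 0 := (Real.sqrt_pos.2 (by linarith)).ne'
  field_simp

lemma hasDerivAt_div_rr {T t c : ℝ} (ht : t < T) :
    HasDerivAt (fun s => c / rr T s) (c / rr T t ^ 3) t := by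
  have h1 := (hasDerivAt_const t c).div (hasDerivAt_rr ht) (rr_pos ht).ne'
  refine h1.congr_deriv ?_
  have := (rr_pos ht).ne'
  field_simp
  ring

lemma rr_anti {T s t : ℝ} (hst : s ≤ t) : rr T t ≤ rr T s :=
  Real.sqrt_le_sqrt (by linarith)

section
variable {T R h : ℝ} {g : Fin 3 → ℝ → ℝ → ℂ}

theorem QF.W_bound (H : QF T R h g) {t0 : ℝ} (h0 : t0 ∈ Ioo 0 T) (hs : SecAt g t0) :
    ∃ K, 0 < K ∧ ∀ t ∈ Ico t0 T, ∀ i, ∀ p ∈ Icc (0:ℝ) 1,
      th (cang i) (g i) t p ≤ K / yM g t * (g i t p).im := by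
  have hpi := Real.pi_pos
  have hsec := H.sec_all h0 hs
  have hyM0 := H.yM_pos h0 hs
  have hya0 := H.ya_pos h0 hs
  obtain ⟨A, hA⟩ := (H.edge 0).coef_bound h0.1 (t1 := t0) h0.2
  have hA' : ∀ p ∈ Icc (0:ℝ) 1, |thp (g 0) t0 p| ≤ A :=
    fun p hp => (hA t0 ⟨le_refl _, le_refl _⟩ p hp).2.2.2
  have hA0 : 0 ≤ A := (abs_nonneg _).trans (hA' 0 zero_mem_I)
  obtain ⟨p0, hp0, hmin⟩ := isCompact_Icc.exists_isMinOn (⟨0, zero_mem_I⟩ : (Icc (0:ℝ) 1).Nonempty)
    (f := fun p => -(dp (g 0) t0 p).im)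
    ((Complex.continuous_im.comp ((H.edge 0).sm.dp.continuous_p h0)).neg.continuousOn)
  set m := -(dp (g 0) t0 p0).im with hm
  have hmpos : 0 < m := by have := H.dp0_im_neg h0 hs hp0; linarith
  have hmle : ∀ p ∈ Icc (0:ℝ) 1, m ≤ -(dp (g 0) t0 p).im := fun p hp => hmin hp
  set K := π / 3 * yM g t0 / ya g t0 + A * yM g t0 / m + π / 3 with hK
  have t1 : 0 < π / 3 * yM g t0 / ya g t0 := by positivity
  have t2 : 0 ≤ A * yM g t0 / m := by positivity
  have hKpos : 0 < K := by positivity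
  have hK1 : π / 3 ≤ K / yM g t0 * ya g t0 := by
    have : π / 3 * yM g t0 / ya g t0 ≤ K := by linarith [div_pos hpi (by norm_num : (0:ℝ) < 3)]
    rw [div_le_iff₀ hya0] at this
    rw [div_mul_eq_mul_div, le_div_iff₀ hyM0]
    linarith
  have hK2 : A ≤ K / yM g t0 * m := by
    have : A * yM g t0 / m ≤ K := by linarith [div_pos hpi (by norm_num : (0:ℝ) < 3)]
    rw [div_le_iff₀ hmpos] at this
    rw [div_mul_eq_mul_div, le_div_iff₀ hyM0]
    linarith
  have hK3 : π / 3 ≤ K := by linarith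
  have hposAt0 := SecAt.posAt H h0 hs
  -- initial time
  have hinit : ∀ i, ∀ p ∈ Icc (0:ℝ) 1,
      1 * th (cang i) (g i) t0 p - K / yM g t0 * (g i t0 p).im - 0 ≤ 0 := by
    have hKy : 0 ≤ K / yM g t0 := by positivity
    have hgen : ∀ i, (∀ p ∈ Icc (0:ℝ) 1, ya g t0 ≤ (g i t0 p).im) → ∀ p ∈ Icc (0:ℝ) 1,
      1 * th (cang i) (g i) t0 p - K / yM g t0 * (g i t0 p).im - 0 ≤ 0 := by
      intro i hi p hp
      have e1 := (H.th_mem h0 hs i hp).2
      have e2 := mul_le_mul_of_nonneg_left (hi p hp) hKy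
      linarith
    intro i
    fin_cases i
    · intro p hp
      simp only [Fin.zero_eta]
      have e1 : th (cang 0) (g 0) t0 p ≤ A * (1 - p) := by
        have := mono_of_deriv (f := fun q => th (cang 0) (g 0) t0 q + A * q)
          (f' := fun q => thp (g 0) t0 q + A * 1) (a := 0) (b := 1)
          (fun q hq => (hasDerivAt_th_p (H.edge 0).sm h0 (hposAt0 0 q hq)).add
            ((hasDerivAt_id' q).const_mul A))
          (fun q hq => by have := neg_le_of_abs_le (hA' q hq); linarith) hp one_mem_I hp.2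
        simp only [H.th_b h0 hposAt0] at this
        linarith
      have e2 : m * (1 - p) ≤ (g 0 t0 p).im := by
        have := mono_of_deriv (f := fun q => -(g 0 t0 q).im - m * q)
          (f' := fun q => -(dp (g 0) t0 q).im - m * 1) (a := 0) (b := 1)
          (fun q _ => (H.dim h0 0 q).neg.sub ((hasDerivAt_id' q).const_mul m))
          (fun q hq => by have := hmle q hq; linarith) hp one_mem_I hp.2
        simp only [H.bIm t0 h0] at this
        linarith
      have e3 : 0 ≤ 1 - p := by linarith [hp.2]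
      have e4 := mul_le_mul_of_nonneg_right hK2 e3
      have e5 := mul_le_mul_of_nonneg_left e2 hKy
      nlinarith
    · exact hgen 1 (fun p hp => by
        have := H.y1_mono h0 hs zero_mem_I hp hp.1
        rwa [H.im_zero h0] at this)
    · exact hgen 2 (fun p hp => by
        have := H.y2_mono h0 hs zero_mem_I hp hp.1
        rwa [H.im_zero h0] at this)
  refine ⟨K, hKpos, fun t ht i p hp => ?_⟩
  have hmem : ∀ s ∈ Icc t0 t, s ∈ Ioo 0 T := fun s hs => ⟨h0.1.trans_le hs.1, hs.2.trans_lt ht.2⟩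
  have hmemI : ∀ s ∈ Icc t0 t, s ∈ Ico t0 T := fun s hs => ⟨hs.1, hs.2.trans_lt ht.2⟩
  have hyMp : ∀ s ∈ Icc t0 t, 0 < yM g s := fun s hs' => H.yM_pos (hmem s hs') (hsec s (hmemI s hs'))
  have hder : ∀ s ∈ Icc t0 t, HasDerivAt (fun s => K / yM g s)
      (-(K * (dt (g 1) s 1).im) / yM g s ^ 2) s := by
    intro s hs'
    have := (hasDerivAt_const s K).div (H.yM_deriv (hmem s hs')) (hyMp s hs').ne'
    exact this.congr_deriv (by ring)
  have := H.angle_max (t0 := t0) (t1 := t) (α := 1) (κ := 0) (f := fun s => K / yM g s)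
    (f' := fun s => -(K * (dt (g 1) s 1).im) / yM g s ^ 2) h0.1 ht.2
    (fun s hs' => SecAt.posAt H (hmem s hs') (hsec s (hmemI s hs')))
    (fun s hs' => (hder s hs').continuousAt.continuousWithinAt)
    (fun s hs' => hder s ⟨hs'.1.le, hs'.2⟩)
    (fun s hs' j q hq => by
      have hs2 : s ∈ Icc t0 t := ⟨hs'.1.le, hs'.2⟩
      have e1 := (H.thp_M (hmem s hs2) (hsec s (hmemI s hs2))).2
      have e2 : 0 ≤ -(K * (dt (g 1) s 1).im) / yM g s ^ 2 := by
        apply div_nonneg _ (sq_nonneg _)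
        nlinarith
      have e3 : 0 ≤ (g j s q).im := by
        fin_cases j
        · exact H.y0_nonneg (hmem s hs2) (hsec s (hmemI s hs2)) hq
        · have := H.y1_mono (hmem s hs2) (hsec s (hmemI s hs2)) zero_mem_I hq hq.1
          rw [H.im_zero (hmem s hs2)] at this
          have h5 := H.ya_pos (hmem s hs2) (hsec s (hmemI s hs2))
          exact (h5.le.trans this)
        · have := H.y2_mono (hmem s hs2) (hsec s (hmemI s hs2)) zero_mem_I hq hq.1
          rw [H.im_zero (hmem s hs2)] at this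
          have h5 := H.ya_pos (hmem s hs2) (hsec s (hmemI s hs2))
          exact (h5.le.trans this)
      exact mul_nonneg e2 e3)
    (le_refl _)
    (fun s hs' => by
      have hs2 : s ∈ Icc t0 t := ⟨hs'.1.le, hs'.2⟩
      have : K / yM g s * (g 1 s 1).im = K := div_mul_cancel₀ _ (hyMp s hs2).ne'
      rw [this]; linarith)
    (fun s hs' => by
      have hs2 : s ∈ Icc t0 t := ⟨hs'.1.le, hs'.2⟩
      have := H.dp2_im_nonneg (hmem s hs2) (hsec s (hmemI s hs2)) one_mem_I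
      have h6 := hyMp s hs2
      positivity)
    hinit i t ⟨ht.1, le_refl _⟩ p hp
  linarith

theorem QF.D_bound (H : QF T R h g) {t0 t1 : ℝ} (h0 : t0 ∈ Ioo 0 T) (ht1 : t1 < T)
    (hs : SecAt g t0)
    (hcap : ∀ p ∈ Icc (0:ℝ) 1, Real.sin (π / 3 - th (cang 1) (g 1) t0 p) ≤
      √3 / 2 / rr T t0 * (g 1 t0 p).re)
    (hxa : ∀ t ∈ Icc t0 t1, rr T t ≤ xa g t) :
    ∀ t ∈ Icc t0 t1, ∀ p ∈ Icc (0:ℝ) 1, Real.sin (π / 3 - th (cang 1) (g 1) t p) ≤
      √3 / 2 / rr T t * (g 1 t p).re := by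
  have hpi := Real.pi_pos
  have hsec := H.sec_all h0 hs
  have hmem : ∀ s ∈ Icc t0 t1, s ∈ Ioo 0 T := fun s hs => ⟨h0.1.trans_le hs.1, hs.2.trans_lt ht1⟩
  have hsec' : ∀ s ∈ Icc t0 t1, SecAt g s := fun s hs => hsec s ⟨hs.1, hs.2.trans_lt ht1⟩
  have hI : ∀ p ∈ Ioo (0:ℝ) 1, p ∈ Icc (0:ℝ) 1 := fun p hp => ⟨hp.1.le, hp.2.le⟩
  have hth : ∀ s ∈ Icc t0 t1, ∀ p ∈ Icc (0:ℝ) 1, 0 ≤ π / 3 - th (cang 1) (g 1) s p ∧
      π / 3 - th (cang 1) (g 1) s p ≤ π / 3 := by
    intro s hs' p hp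
    have := H.th_mem (hmem s hs') (hsec' s hs') 1 hp
    constructor <;> linarith [this.1, this.2]
  obtain ⟨A, hA⟩ := (H.edge 1).coef_bound h0.1 ht1
  have hs3 : √3 * √3 = 3 := Real.mul_self_sqrt (by norm_num)
  have hs30 : 0 < √3 := by positivity
  -- the modified drift
  set bt : ℝ → ℝ → ℝ := fun t p => bc (g 1) t p -
    Real.sin (π / 3 - th (cang 1) (g 1) t p) *
      (thp (g 1) t p + √3 / 2 / rr T t * ‖dp (g 1) t p‖) * ac (g 1) t p /
      Real.cos (π / 3 - th (cang 1) (g 1) t p) with hbt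
  have hcontn : ContinuousOn (fun q : ℝ × ℝ => √3 / 2 / rr T q.1 * ‖dp (g 1) q.1 q.2‖)
      (Icc t0 t1 ×ˢ Icc 0 1) := by
    rintro ⟨t, p⟩ ⟨ht, hp⟩
    have c1 : ContinuousAt (fun q : ℝ × ℝ => √3 / 2 / rr T q.1) (t, p) :=
      ContinuousAt.comp (f := fun q : ℝ × ℝ => q.1) (g := fun s => √3 / 2 / rr T s)
        (hasDerivAt_div_rr (ht.2.trans_lt ht1)).continuousAt continuousAt_fst
    have c2 : ContinuousAt (fun q : ℝ × ℝ => ‖dp (g 1) q.1 q.2‖) (t, p) :=
      ((H.edge 1).sm.dp.continuousAt (hmem t ht) p).norm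
    exact (c1.mul c2).continuousWithinAt
  obtain ⟨C, hC⟩ := (isCompact_Icc.prod isCompact_Icc).exists_bound_of_continuousOn hcontn
  have hcosge : ∀ s ∈ Icc t0 t1, ∀ p ∈ Icc (0:ℝ) 1,
      1 / 2 ≤ Real.cos (π / 3 - th (cang 1) (g 1) s p) :=
    fun s hs' p hp => cos_ge_half (hth s hs' p hp).1 (hth s hs' p hp).2
  have hbtb : ∀ t ∈ Icc t0 t1, ∀ p ∈ Icc (0:ℝ) 1, |bt t p| ≤ A + (A + C) * A * 2 := by
    intro t ht p hp
    obtain ⟨e1, e2, e3, e4⟩ := hA t ht p hp
    have e5 : |√3 / 2 / rr T t * ‖dp (g 1) t p‖| ≤ C := hC (t, p) ⟨ht, hp⟩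
    have e6 := hcosge t ht p hp
    have e7 : |Real.sin (π / 3 - th (cang 1) (g 1) t p)| ≤ 1 := Real.abs_sin_le_one _
    have hA0 : 0 ≤ A := e1.trans e2
    have hC0 : 0 ≤ C := (abs_nonneg _).trans e5
    have e8 : |thp (g 1) t p + √3 / 2 / rr T t * ‖dp (g 1) t p‖| ≤ A + C :=
      (abs_add_le _ _).trans (add_le_add e4 e5)
    have e9 : |Real.sin (π / 3 - th (cang 1) (g 1) t p) *
      (thp (g 1) t p + √3 / 2 / rr T t * ‖dp (g 1) t p‖) * ac (g 1) t p| ≤ (A + C) * A := by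
      rw [abs_mul, abs_mul, abs_of_nonneg e1]
      have : |Real.sin (π / 3 - th (cang 1) (g 1) t p)| *
        |thp (g 1) t p + √3 / 2 / rr T t * ‖dp (g 1) t p‖| ≤ 1 * (A + C) :=
        mul_le_mul e7 e8 (abs_nonneg _) zero_le_one
      calc _ ≤ (1 * (A + C)) * A := mul_le_mul this e2 e1 (by positivity)
        _ = _ := by ring
    have e10 : |Real.sin (π / 3 - th (cang 1) (g 1) t p) *
      (thp (g 1) t p + √3 / 2 / rr T t * ‖dp (g 1) t p‖) * ac (g 1) t p /
      Real.cos (π / 3 - th (cang 1) (g 1) t p)| ≤ (A + C) * A * 2 := by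
      rw [abs_div, abs_of_pos (by linarith : 0 < Real.cos (π / 3 - th (cang 1) (g 1) t p)),
        div_le_iff₀ (by linarith)]
      have : 0 ≤ (A + C) * A := by positivity
      nlinarith
    calc |bt t p| ≤ _ := abs_sub _ _
      _ ≤ _ := add_le_add e3 e10
  have := star_max (ι := Unit) (t0 := t0) (t1 := t1)
    (u := fun _ t p => Real.sin (π / 3 - th (cang 1) (g 1) t p) - √3 / 2 / rr T t * (g 1 t p).re)
    (up := fun _ t p => Real.cos (π / 3 - th (cang 1) (g 1) t p) * (-thp (g 1) t p)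
      - √3 / 2 / rr T t * (dp (g 1) t p).re)
    (upp := fun _ t p => (-Real.sin (π / 3 - th (cang 1) (g 1) t p) * (-thp (g 1) t p)) *
      (-thp (g 1) t p) + Real.cos (π / 3 - th (cang 1) (g 1) t p) * (-thpp (g 1) t p)
      - √3 / 2 / rr T t * (dp (dp (g 1)) t p).re)
    (ut := fun _ t p => Real.cos (π / 3 - th (cang 1) (g 1) t p) * (-tht (g 1) t p)
      - (√3 / 2 / rr T t ^ 3 * (g 1 t p).re + √3 / 2 / rr T t * (dt (g 1) t p).re))
    (a := fun _ t p => ac (g 1) t p) (b := fun _ t p => bt t p)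
    (K := 3 / 4 / rr T t1 ^ 2) (A := A + (A + C) * A * 2)
    ?_ ?_ ?_ ?_ ?_ ?_ ?_ ?_ ?_ ?_
  · intro t ht p hp
    have h2 := this () t ht p hp
    linarith
  · -- continuity
    intro _
    rintro ⟨t, p⟩ ⟨ht, hp⟩
    have c0 := continuousAt_th (H.edge 1).sm (hmem t ht)
      ((SecAt.posAt H (hmem t ht) (hsec' t ht)) 1 p hp)
    have c1 : ContinuousAt (fun q : ℝ × ℝ => Real.sin (π / 3 - th (cang 1) (g 1) q.1 q.2)) (t, p) :=
      (Real.continuous_sin.continuousAt).comp (continuousAt_const.sub c0)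
    have c2 : ContinuousAt (fun q : ℝ × ℝ => √3 / 2 / rr T q.1) (t, p) :=
      ContinuousAt.comp (f := fun q : ℝ × ℝ => q.1) (g := fun s => √3 / 2 / rr T s)
        (hasDerivAt_div_rr (ht.2.trans_lt ht1)).continuousAt continuousAt_fst
    have c3 : ContinuousAt (fun q : ℝ × ℝ => (g 1 q.1 q.2).re) (t, p) :=
      Complex.continuous_re.continuousAt.comp ((H.edge 1).sm.continuousAt (hmem t ht) p)
    exact (c1.sub (c2.mul c3)).continuousWithinAt
  · intro _ t ht p hp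
    have htI : t ∈ Icc t0 t1 := ⟨ht.1.le, ht.2⟩
    have d0 := hasDerivAt_th_p (H.edge 1).sm (hmem t htI)
      ((SecAt.posAt H (hmem t htI) (hsec' t htI)) 1 p hp)
    have d1 := (d0.const_sub (π / 3)).sin
    have d2 := (H.dre (hmem t htI) 1 p).const_mul (√3 / 2 / rr T t)
    exact d1.sub d2
  · intro _ t ht p hp
    have htI : t ∈ Icc t0 t1 := ⟨ht.1.le, ht.2⟩
    have d0 := hasDerivAt_th_p (H.edge 1).sm (hmem t htI)
      ((SecAt.posAt H (hmem t htI) (hsec' t htI)) 1 p (hI p hp))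
    have d1 := (d0.const_sub (π / 3)).cos
    have d2 := (hasDerivAt_thp (H.edge 1).sm (hmem t htI)
      ((H.edge 1).reg t (hmem t htI) p (hI p hp))).neg
    have d3 := (hasDerivAt_re ((H.edge 1).sm.dp.hasDerivAt_p (hmem t htI) p)).const_mul
      (√3 / 2 / rr T t)
    exact (d1.mul d2).sub d3
  · intro _ t ht p hp
    have htI : t ∈ Icc t0 t1 := ⟨ht.1.le, ht.2⟩
    have d0 := hasDerivAt_th_t (H.edge 1).sm (hmem t htI)
      ((SecAt.posAt H (hmem t htI) (hsec' t htI)) 1 p (hI p hp))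
    have d1 := (d0.const_sub (π / 3)).sin
    have d2 := (hasDerivAt_div_rr (c := √3 / 2) (ht.2.trans_lt ht1)).mul
      (hasDerivAt_re ((H.edge 1).sm.hasDerivAt_t (hmem t htI) p))
    exact d1.sub d2
  · intro _ t ht p hp
    obtain ⟨e1, e2, e3, e4⟩ := hA t ⟨ht.1.le, ht.2⟩ p (hI p hp)
    have hA0 : 0 ≤ A := e1.trans e2
    have hC0 : 0 ≤ C := (norm_nonneg _).trans (hC (t, p) ⟨⟨ht.1.le, ht.2⟩, hI p hp⟩)
    exact ⟨e1, e2.trans (by nlinarith [mul_nonneg (add_nonneg hA0 hC0) hA0])⟩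
  · intro _ t ht p hp
    exact hbtb t ⟨ht.1.le, ht.2⟩ p (hI p hp)
  · -- the equation
    intro _ t ht p hp hupos
    have htI : t ∈ Icc t0 t1 := ⟨ht.1.le, ht.2⟩
    have hpI := hI p hp
    have e1 := (H.edge 1).pde (hmem t htI) hp
    have e2 := (H.edge 1).eqn_re (hmem t htI) hpI
    have e3 : (dp (g 1) t p).re = -(‖dp (g 1) t p‖ * Real.cos (π / 3 - th (cang 1) (g 1) t p)) :=
      (polar1 t p).1
    have e4 := hcosge t htI p hpI
    have hx0 := H.x1_nonneg (hmem t htI) (hsec' t htI) hpI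
    have hv := H.norm_pos (hmem t htI) 1 hpI
    have e5 : ac (g 1) t p * ‖dp (g 1) t p‖ ^ 2 = 1 := by
      rw [ac, Complex.normSq_eq_norm_sq, one_div, inv_mul_cancel₀ (by positivity)]
    have hr := rr_pos (ht.2.trans_lt ht1)
    have hr1 := rr_pos ht1
    have hrle : rr T t1 ≤ rr T t := rr_anti ht.2
    set S := Real.sin (π / 3 - th (cang 1) (g 1) t p) with hS
    set Cc := Real.cos (π / 3 - th (cang 1) (g 1) t p) with hCc
    set v := ‖dp (g 1) t p‖ with hvd
    set a := ac (g 1) t p with had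
    set r := rr T t with hrd
    have hCc0 : Cc ≠ 0 := by linarith
    have hK : √3 / 2 / r * (√3 / 2 / r) = 3 / 4 / r ^ 2 := by
      field_simp; nlinarith
    have hbteq : bt t p = bc (g 1) t p - S * (thp (g 1) t p + √3 / 2 / r * v) * a / Cc := rfl
    rw [e1, e2, hbteq]
    have hB3 : √3 / 2 / r * (3 / 4 / r ^ 2) ≤ √3 / 2 / r ^ 3 := by
      rw [div_mul_div_comm, div_le_div_iff₀ (by positivity) (by positivity)]
      nlinarith [pow_pos hr 3, mul_pos hs30 (pow_pos hr 3)]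
    have hB3x := mul_le_mul_of_nonneg_right hB3 hx0
    have hKle : 3 / 4 / r ^ 2 ≤ 3 / 4 / rr T t1 ^ 2 := by
      apply div_le_div_of_nonneg_left (by norm_num) (by positivity)
      exact pow_le_pow_left₀ hr1.le hrle 2
    have hKu := mul_le_mul_of_nonneg_right hKle hupos.le
    -- identity
    have key : (S * (thp (g 1) t p + √3 / 2 / r * v) * a / Cc) *
        (Cc * (-thp (g 1) t p) - √3 / 2 / r * (dp (g 1) t p).re) =
        - (a * S * (thp (g 1) t p) ^ 2) + 3 / 4 / r ^ 2 * S := by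
      rw [e3, ← hK]
      have : S * (√3 / 2 / r * (√3 / 2 / r)) = S * (√3 / 2 / r * (√3 / 2 / r)) * (a * v ^ 2) := by
        rw [e5]; ring
      rw [mul_comm (√3 / 2 / r * (√3 / 2 / r)) S, this]
      field_simp
      ring
    nlinarith [key, hB3x, hKu]
  · -- initial condition
    intro _ p hp
    have := hcap p hp
    linarith
  · intro t ht
    left
    intro _
    have htI : t ∈ Icc t0 t1 := ⟨ht.1.le, ht.2⟩
    have e1 := sin_le_half_sqrt (hth t htI 0 zero_mem_I).1 (hth t htI 0 zero_mem_I).2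
    have e2 := hxa t htI
    have hr := rr_pos (ht.2.trans_lt ht1)
    simp only [H.re_zero (hmem t htI)]
    have e3 : √3 / 2 ≤ √3 / 2 / rr T t * xa g t := by
      rw [div_mul_eq_mul_div, le_div_iff₀ hr]
      exact mul_le_mul_of_nonneg_left e2 (by positivity)
    linarith
  · intro _ t ht
    left
    have htI : t ∈ Icc t0 t1 := ⟨ht.1.le, ht.2⟩
    simp only [H.th_M (hmem t htI) (SecAt.posAt H (hmem t htI) (hsec' t htI)), H.mRe t (hmem t htI)]
    simp

end

end Run7.h661
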